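import Mathlib

/-! # A homogeneous relation -/

universe u

/-- The coefficients of `Q(X * y)` are the values of the homogeneous components of `Q`. -/
theorem H694.coeff_cone {L A : Type u} [Field L] [CommRing A] [Algebra L A] {m : ℕ}
    (y : Fin (m + 1) → A) (Q : MvPolynomial (Fin (m + 1)) L) (e : ℕ) :
    (MvPolynomial.aeval (fun i => (Polynomial.X * Polynomial.C (y i) : Polynomial A)) Q).coeff e =
      MvPolynomial.aeval y (MvPolynomial.homogeneousComponent e Q) := by
  classical
  induction Q using MvPolynomial.induction_on' with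
  | monomial s c =>
    rw [MvPolynomial.homogeneousComponent_of_mem (MvPolynomial.isHomogeneous_monomial c rfl),
      MvPolynomial.aeval_monomial]
    have h1 : (s.prod fun i k => (Polynomial.X * Polynomial.C (y i) : Polynomial A) ^ k) =
        Polynomial.C (s.prod fun i k => y i ^ k) * Polynomial.X ^ s.degree := by
      simp only [Finsupp.prod, mul_pow, Finset.prod_mul_distrib, Finset.prod_pow_eq_pow_sum,
        map_prod, map_pow]
      rw [mul_comm]
      rfl
    rw [h1, Polynomial.algebraMap_apply, ← mul_assoc, ← Polynomial.C_mul,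
      Polynomial.coeff_C_mul_X_pow]
    split_ifs with h
    · rw [MvPolynomial.aeval_monomial]
    · rw [map_zero]
  | add p q hp hq => rw [map_add, Polynomial.coeff_add, hp, hq, map_add, map_add]

theorem H694.exists_homogeneous_aeval_mem {L A : Type u} [Field L] [CommRing A] [IsDomain A]
    [Algebra L A] (f : A) (hf : f ≠ 0) (m : ℕ) (y : Fin (m + 1) → A)
    (hint : ∀ a : A, IsIntegral (Algebra.adjoin L (Set.range y)) a)
    (hdep : ¬ AlgebraicIndependent L y) :
    ∃ (n : ℕ) (Q : MvPolynomial (Fin (m + 1)) L), Q.IsHomogeneous n ∧ Q ≠ 0 ∧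
      MvPolynomial.aeval y Q ∈ Ideal.span {f} := by
  classical
  have halg : Algebra.IsAlgebraic (Algebra.adjoin L (Set.range y)) A :=
    ⟨fun a => (hint a).isAlgebraic⟩
  -- the transcendence degrees
  have hA : Algebra.trdeg L A < ((m + 1 : ℕ) : Cardinal) := by
    by_contra h
    rw [not_lt] at h
    refine hdep (Algebra.IsAlgebraic.isTranscendenceBasis_of_lift_le_trdeg_of_finite L y ?_).1
    simpa using h
  have hAX : Algebra.trdeg L (Polynomial A) < ((m + 2 : ℕ) : Cardinal) := by
    obtain ⟨d, hd⟩ := Cardinal.lt_aleph0.1 (hA.trans (Cardinal.natCast_lt_aleph0))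
    rw [← trdeg_add_eq L A (A := Polynomial A), Polynomial.trdeg_of_isDomain, hd]
    rw [hd] at hA
    have h1 : d < m + 1 := by exact_mod_cast hA
    have h2 : d + 1 < m + 2 := by omega
    exact_mod_cast h2
  -- the dependent family
  let v : Option (Fin (m + 1)) → Polynomial A := fun o =>
    o.elim (Polynomial.C f) (fun i => Polynomial.X * Polynomial.C (y i))
  have hv : ¬ AlgebraicIndependent L v := by
    intro h
    have h1 := h.lift_cardinalMk_le_trdeg
    have h2 : ((m + 2 : ℕ) : Cardinal) ≤ Algebra.trdeg L (Polynomial A) := by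
      simpa [add_assoc, one_add_one_eq_two] using h1
    exact absurd hAX (not_lt.2 h2)
  obtain ⟨G, hG0, hG⟩ : ∃ G : MvPolynomial (Option (Fin (m + 1))) L,
      MvPolynomial.aeval v G = 0 ∧ G ≠ 0 := by
    rw [algebraicIndependent_iff] at hv
    push Not at hv
    exact hv
  let φ : MvPolynomial (Fin (m + 1)) L →ₐ[L] Polynomial A :=
    MvPolynomial.aeval (fun i => (Polynomial.X * Polynomial.C (y i) : Polynomial A))
  let ψ : Polynomial (MvPolynomial (Fin (m + 1)) L) →+* Polynomial A :=
    Polynomial.eval₂RingHom (φ : MvPolynomial (Fin (m + 1)) L →+* Polynomial A) (Polynomial.C f)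
  have hψ : ∀ P : MvPolynomial (Option (Fin (m + 1))) L,
      ψ (MvPolynomial.optionEquivLeft L (Fin (m + 1)) P) = MvPolynomial.aeval v P := by
    intro P
    induction P using MvPolynomial.induction_on with
    | C a =>
      rw [MvPolynomial.optionEquivLeft_C, MvPolynomial.aeval_C]
      simp only [ψ, Polynomial.coe_eval₂RingHom, Polynomial.eval₂_C]
      exact MvPolynomial.aeval_C _ a
    | add p q hp hq => rw [map_add, map_add, map_add, hp, hq]
    | mul_X p i hp =>
      rw [map_mul, map_mul, map_mul, hp, MvPolynomial.aeval_X]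
      congr 1
      cases i with
      | none =>
        rw [MvPolynomial.optionEquivLeft_X_none]
        simp [ψ, v]
      | some i =>
        rw [MvPolynomial.optionEquivLeft_X_some]
        simp [ψ, v, φ]
  set P := MvPolynomial.optionEquivLeft L (Fin (m + 1)) G with hP
  have hP0 : P ≠ 0 := by
    rw [hP]
    exact (map_ne_zero_iff _ (MvPolynomial.optionEquivLeft L (Fin (m + 1))).injective).2 hG
  have hψP : ψ P = 0 := by rw [hP, hψ, hG0]
  obtain ⟨q, hq, hnd⟩ := P.exists_eq_pow_rootMultiplicity_mul_and_not_dvd hP0 0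
  rw [Polynomial.C_0, sub_zero] at hq hnd
  have hψX : ψ Polynomial.X = Polynomial.C f := by simp [ψ]
  have hψq : ψ q = 0 := by
    rw [hq, map_mul, map_pow, hψX] at hψP
    rcases mul_eq_zero.1 hψP with h | h
    · exact absurd h (pow_ne_zero _ (by simpa using hf))
    · exact h
  have hQ0 : q.coeff 0 ≠ 0 := fun h => hnd (Polynomial.X_dvd_iff.2 h)
  have hdiv : Polynomial.C f ∣ φ (q.coeff 0) := by
    have h1 := congrArg ψ (Polynomial.divX_mul_X_add q)
    rw [hψq, map_add, map_mul, hψX] at h1
    have h2 : ψ (Polynomial.C (q.coeff 0)) = φ (q.coeff 0) := by simp [ψ]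
    rw [h2] at h1
    exact ⟨-ψ q.divX, by linear_combination h1⟩
  rw [Polynomial.C_dvd_iff_dvd_coeff] at hdiv
  obtain ⟨e, he⟩ : ∃ e, MvPolynomial.homogeneousComponent e (q.coeff 0) ≠ 0 := by
    by_contra h
    push Not at h
    apply hQ0
    rw [← MvPolynomial.sum_homogeneousComponent (q.coeff 0)]
    exact Finset.sum_eq_zero fun i _ => h i
  refine ⟨e, MvPolynomial.homogeneousComponent e (q.coeff 0),
    MvPolynomial.homogeneousComponent_isHomogeneous _ _, he, ?_⟩
  rw [Ideal.mem_span_singleton, ← H694.coeff_cone]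
  exact hdiv e
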