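import Mathlib

/-! # A generic linear projection -/

universe u

namespace H694

open MvPolynomial

/-- homogeneous polynomials at multiples -/
theorem aeval_smul_hom {L B : Type u} [Field L] [CommRing B] [Algebra L B] {ι : Type} [Fintype ι]
    {Q : MvPolynomial ι L} {n : ℕ} (hQ : Q.IsHomogeneous n) (r : ι → L) (b : B) :
    aeval (fun i => r i • b) Q = (eval r Q) • b ^ n := by
  rw [aeval_def, eval₂_eq', eval_eq', Finset.sum_smul]
  refine Finset.sum_congr rfl fun d hd => ?_
  have h1 : ∑ i, d i = n := by
    have h2 := hQ (mem_support_iff.1 hd)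
    rw [Finsupp.weight_apply, Finsupp.sum_fintype _ _ (fun i => by simp)] at h2
    simpa using h2
  have h3 : ∏ i, (r i • b) ^ d i = (∏ i, r i ^ d i) • b ^ n := by
    rw [← h1, ← Finset.prod_pow_eq_pow_sum]
    simp only [Algebra.smul_def, mul_pow, Finset.prod_mul_distrib, map_prod, map_pow]
  rw [h3, Algebra.smul_def, Algebra.smul_def, map_mul, mul_assoc]

/-- the product of powers of linear polynomials -/
theorem prod_lin {S : Type u} [CommRing S] {ι : Type} (t : Finset ι) (p : ι → Polynomial S)
    (hp : ∀ i, (p i).natDegree ≤ 1) (d : ι → ℕ) :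
    (∏ i ∈ t, p i ^ d i).natDegree ≤ ∑ i ∈ t, d i ∧
      (∏ i ∈ t, p i ^ d i).coeff (∑ i ∈ t, d i) = ∏ i ∈ t, ((p i).coeff 1) ^ d i := by
  classical
  induction t using Finset.induction_on with
  | empty => simp
  | insert a t ha ih =>
    rw [Finset.prod_insert ha, Finset.sum_insert ha, Finset.prod_insert ha]
    have h1 : (p a ^ d a).natDegree ≤ d a := by
      refine Polynomial.natDegree_pow_le.trans ?_
      calc d a * (p a).natDegree ≤ d a * 1 := Nat.mul_le_mul_left _ (hp a)
        _ = d a := mul_one _
    refine ⟨Polynomial.natDegree_mul_le.trans (Nat.add_le_add h1 ih.1), ?_⟩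
    rw [Polynomial.coeff_mul_add_eq_of_natDegree_le h1 ih.1, ih.2]
    congr 1
    have h2 := Polynomial.coeff_pow_of_natDegree_le (m := d a) (hp a)
    rwa [mul_one] at h2

/-- substitution of linear polynomials -/
theorem subst_lin {L S : Type u} [Field L] [CommRing S] [Algebra L S] {ι : Type} [Fintype ι]
    (a : ι → S) (r : ι → L) (N : ℕ) (F : MvPolynomial ι L) (hF : F.totalDegree ≤ N) :
    (aeval (fun i => Polynomial.C (a i) + Polynomial.C (algebraMap L S (r i)) * Polynomial.X)
      F : Polynomial S).natDegree ≤ N ∧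
    (aeval (fun i => Polynomial.C (a i) + Polynomial.C (algebraMap L S (r i)) * Polynomial.X)
      F : Polynomial S).coeff N = algebraMap L S (eval r (homogeneousComponent N F)) := by
  classical
  set p : ι → Polynomial S := fun i =>
    Polynomial.C (a i) + Polynomial.C (algebraMap L S (r i)) * Polynomial.X with hp
  have hp1 : ∀ i, (p i).natDegree ≤ 1 := by
    intro i
    rw [hp]
    refine (Polynomial.natDegree_add_le _ _).trans (max_le ?_ ?_)
    · rw [Polynomial.natDegree_C]
      exact Nat.zero_le _
    · exact (Polynomial.natDegree_C_mul_le _ _).trans Polynomial.natDegree_X_le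
  have hp2 : ∀ i, (p i).coeff 1 = algebraMap L S (r i) := by
    intro i
    rw [hp]
    simp [Polynomial.coeff_C]
  have h1 : (aeval p F : Polynomial S) = ∑ d ∈ F.support,
      Polynomial.C (algebraMap L S (coeff d F)) * ∏ i, p i ^ d i := by
    rw [aeval_def, eval₂_eq']
    rfl
  have hdeg : ∀ d ∈ F.support, ∑ i, d i ≤ N := by
    intro d hd
    have h2 := le_totalDegree hd
    rw [Finsupp.sum_fintype _ _ (fun i => rfl)] at h2
    exact h2.trans hF
  constructor
  · rw [h1]
    refine Polynomial.natDegree_sum_le_of_forall_le _ _ fun d hd => ?_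
    refine (Polynomial.natDegree_C_mul_le _ _).trans ?_
    exact (prod_lin Finset.univ p hp1 d).1.trans (hdeg d hd)
  · rw [h1, Polynomial.finsetSum_coeff, homogeneousComponent_apply, map_sum, map_sum,
      Finset.sum_filter]
    refine Finset.sum_congr rfl fun d hd => ?_
    rw [Polynomial.coeff_C_mul]
    have h3 : d.degree = ∑ i, d i := by
      rw [Finsupp.degree_eq_sum]
    split_ifs with h4
    · rw [h3] at h4
      rw [eval_monomial, map_mul]
      congr 1
      have h5 := (prod_lin Finset.univ p hp1 d).2
      rw [h4] at h5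
      rw [h5, Finsupp.prod_fintype _ _ (fun i => pow_zero _), map_prod]
      exact Finset.prod_congr rfl fun i _ => by rw [hp2, map_pow]
    · rw [Polynomial.coeff_eq_zero_of_natDegree_lt, mul_zero]
      refine lt_of_le_of_lt (prod_lin Finset.univ p hp1 d).1 ?_
      rw [h3] at h4
      exact lt_of_le_of_ne (hdeg d hd) h4

end H694

theorem H694.projection_step {L A : Type u} [Field L] [Infinite L] [CommRing A] [IsDomain A]
    [Algebra L A] (M : Ideal A) (f : A) (m : ℕ) (y : Fin (m + 1) → A) (hy : ∀ i, y i ∈ M)
    (hint : ∀ a : A, IsIntegral (Algebra.adjoin L (Set.range y)) a)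
    (hdep : ¬ AlgebraicIndependent L y)
    (hM : M ≤ Ideal.span (Set.range y) ⊔ M ^ 2)
    (hZ : ∀ q : Ideal A, q.IsPrime → f ∈ q → (∀ i, y i ∈ q) → M ≤ q)
    (c : Fin (m + 1) → L) (hc : c ≠ 0) (hcM : ∑ i, c i • y i ∈ M ^ 2)
    (n : ℕ) (Q : MvPolynomial (Fin (m + 1)) L) (hQn : Q.IsHomogeneous n) (hQ0 : Q ≠ 0)
    (hQf : MvPolynomial.aeval y Q ∈ Ideal.span {f}) :
    ∃ y' : Fin m → A, (∀ i, y' i ∈ M) ∧
      (∀ a : A, IsIntegral (Algebra.adjoin L (Set.range y')) a) ∧
      M ≤ Ideal.span (Set.range y') ⊔ M ^ 2 ∧
      ∀ q : Ideal A, q.IsPrime → f ∈ q → (∀ i, y' i ∈ q) → M ≤ q := by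
  classical
  -- the relation
  obtain ⟨F, hF0, hFy⟩ : ∃ F : MvPolynomial (Fin (m + 1)) L, F ≠ 0 ∧ MvPolynomial.aeval y F = 0 := by
    rw [algebraicIndependent_iff] at hdep
    push Not at hdep
    obtain ⟨F, h1, h2⟩ := hdep
    exact ⟨F, h2, h1⟩
  set N := F.totalDegree with hN
  have hFN : MvPolynomial.homogeneousComponent N F ≠ 0 := by
    obtain ⟨d, hd, hdN⟩ : ∃ d ∈ F.support, N = d.degree := by
      have h1 : F.support.Nonempty := MvPolynomial.support_nonempty.2 hF0
      obtain ⟨d, hd, h2⟩ := Finset.exists_mem_eq_sup F.support h1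
        (fun s => s.sum fun _ e => e)
      exact ⟨d, hd, h2⟩
    intro h0
    have h1 := congrArg (MvPolynomial.coeff d) h0
    rw [MvPolynomial.coeff_homogeneousComponent, if_pos hdN.symm, MvPolynomial.coeff_zero] at h1
    exact MvPolynomial.mem_support_iff.1 hd h1
  have hlin : (∑ i, MvPolynomial.C (c i) * MvPolynomial.X i : MvPolynomial (Fin (m + 1)) L) ≠ 0 := by
    intro h0
    apply hc
    funext i
    have h1 := congrArg (MvPolynomial.eval (Pi.single i 1 : Fin (m + 1) → L)) h0
    simpa [Pi.single_apply] using h1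
  obtain ⟨w, hw⟩ : ∃ w : Fin (m + 1) → L, MvPolynomial.eval w
      (MvPolynomial.homogeneousComponent N F * Q *
        (∑ i, MvPolynomial.C (c i) * MvPolynomial.X i) * MvPolynomial.X (Fin.last m)) ≠ 0 := by
    by_contra hcon
    push Not at hcon
    have h1 : MvPolynomial.homogeneousComponent N F * Q *
        (∑ i, MvPolynomial.C (c i) * MvPolynomial.X i) * MvPolynomial.X (Fin.last m) = 0 :=
      MvPolynomial.funext fun w => by rw [hcon w, map_zero]
    exact mul_ne_zero (mul_ne_zero (mul_ne_zero hFN hQ0) hlin) (MvPolynomial.X_ne_zero _) h1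
  rw [map_mul, map_mul, map_mul, MvPolynomial.eval_X] at hw
  have hwl : w (Fin.last m) ≠ 0 := right_ne_zero_of_mul hw
  have hw1 := left_ne_zero_of_mul hw
  have hwc := right_ne_zero_of_mul hw1
  have hwQ := right_ne_zero_of_mul (left_ne_zero_of_mul hw1)
  have hwF := left_ne_zero_of_mul (left_ne_zero_of_mul hw1)
  set r : Fin (m + 1) → L := fun i => w i / w (Fin.last m) with hr
  have hwr : ∀ i, w i = r i • w (Fin.last m) := fun i => by
    rw [hr, smul_eq_mul]
    exact (div_mul_cancel₀ _ hwl).symm
  have hrF : MvPolynomial.eval r (MvPolynomial.homogeneousComponent N F) ≠ 0 := by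
    intro h0
    apply hwF
    have h1 := H694.aeval_smul_hom (MvPolynomial.homogeneousComponent_isHomogeneous N F) r
      (w (Fin.last m))
    have h2 : (fun i => r i • w (Fin.last m)) = w := funext fun i => (hwr i).symm
    rw [h2, h0, zero_smul] at h1
    rw [← h1]
    rfl
  have hrQ : MvPolynomial.eval r Q ≠ 0 := by
    intro h0
    apply hwQ
    have h1 := H694.aeval_smul_hom hQn r (w (Fin.last m))
    have h2 : (fun i => r i • w (Fin.last m)) = w := funext fun i => (hwr i).symm
    rw [h2, h0, zero_smul] at h1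
    rw [← h1]
    rfl
  have hrl : r (Fin.last m) = 1 := div_self hwl
  have hrc : ∑ i, c i * r i ≠ 0 := by
    intro h0
    apply hwc
    rw [map_sum]
    have h1 : ∀ i, MvPolynomial.eval w (MvPolynomial.C (c i) * MvPolynomial.X i) =
        (c i * r i) * w (Fin.last m) := by
      intro i
      rw [map_mul, MvPolynomial.eval_C, MvPolynomial.eval_X, hwr i, smul_eq_mul, mul_assoc]
    simp only [h1]
    rw [← Finset.sum_mul, h0, zero_mul]
  -- the new elements
  set t := y (Fin.last m) with ht
  let y' : Fin m → A := fun i => y i.castSucc - r i.castSucc • t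
  let yy : Fin (m + 1) → A := Fin.lastCases 0 y'
  have hyy : ∀ i, y i = yy i + r i • t := by
    intro i
    refine Fin.lastCases ?_ (fun i => ?_) i
    · change _ = (Fin.lastCases 0 y' (Fin.last m) : A) + _
      rw [Fin.lastCases_last, hrl, one_smul, zero_add]
    · change _ = (Fin.lastCases 0 y' i.castSucc : A) + _
      rw [Fin.lastCases_castSucc]
      change _ = y i.castSucc - r i.castSucc • t + _
      rw [sub_add_cancel]
  have hyyS : ∀ i, yy i ∈ Algebra.adjoin L (Set.range y') := by
    intro i
    refine Fin.lastCases ?_ (fun i => ?_) i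
    · change (Fin.lastCases 0 y' (Fin.last m) : A) ∈ _
      rw [Fin.lastCases_last]
      exact Subalgebra.zero_mem _
    · change (Fin.lastCases 0 y' i.castSucc : A) ∈ _
      rw [Fin.lastCases_castSucc]
      exact Algebra.subset_adjoin ⟨i, rfl⟩
  have hM1 : ∀ (a : L) {x : A}, x ∈ M → a • x ∈ M := fun a x hx => by
    rw [Algebra.smul_def]
    exact M.mul_mem_left _ hx
  have hId : ∀ (J : Ideal A) (a : L) {x : A}, x ∈ J → a • x ∈ J := fun J a x hx => by
    rw [Algebra.smul_def]
    exact J.mul_mem_left _ hx
  refine ⟨y', fun i => M.sub_mem (hy _) (hM1 _ (hy _)), ?_, ?_, ?_⟩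
  · -- integrality
    set S := Algebra.adjoin L (Set.range y') with hS
    have htI : IsIntegral S t := by
      obtain ⟨h1, h2⟩ := H694.subst_lin (S := S) (fun i => (⟨yy i, hyyS i⟩ : S)) r N F le_rfl
      set G : Polynomial S := MvPolynomial.aeval (fun i =>
        Polynomial.C (⟨yy i, hyyS i⟩ : S) + Polynomial.C (algebraMap L S (r i)) * Polynomial.X) F
        with hG
      set κ := MvPolynomial.eval r (MvPolynomial.homogeneousComponent N F) with hκ
      refine ⟨Polynomial.C (algebraMap L S κ⁻¹) * G, ?_, ?_⟩
      · refine Polynomial.monic_of_natDegree_le_of_coeff_eq_one N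
          ((Polynomial.natDegree_C_mul_le _ _).trans h1) ?_
        rw [Polynomial.coeff_C_mul, h2, ← map_mul, inv_mul_cancel₀ hrF, map_one]
      · rw [Polynomial.eval₂_mul]
        have h3 : Polynomial.eval₂ (algebraMap S A) t G = 0 := by
          have h4 : Polynomial.eval₂ (algebraMap S A) t G =
              MvPolynomial.aeval (fun i => yy i + r i • t) F := by
            have h5 := MvPolynomial.comp_aeval_apply (f := fun i =>
                Polynomial.C (⟨yy i, hyyS i⟩ : S) +
                  Polynomial.C (algebraMap L S (r i)) * Polynomial.X)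
              ((Polynomial.aeval t : Polynomial S →ₐ[S] A).restrictScalars L) F
            change Polynomial.eval₂ (algebraMap S A) t G = _ at h5
            rw [h5]
            congr 2
            funext i
            change Polynomial.aeval t (Polynomial.C (⟨yy i, hyyS i⟩ : S) +
                  Polynomial.C (algebraMap L S (r i)) * Polynomial.X) = _
            rw [map_add, map_mul, Polynomial.aeval_C, Polynomial.aeval_C, Polynomial.aeval_X,
              ← IsScalarTower.algebraMap_apply, Algebra.smul_def]
            rfl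
          rw [h4]
          have h5 : (fun i => yy i + r i • t) = y := funext fun i => (hyy i).symm
          rw [h5, hFy]
        rw [h3, mul_zero]
    have hyI : ∀ i, IsIntegral S (y i) := by
      intro i
      rw [hyy i]
      refine IsIntegral.add ?_ ?_
      · exact isIntegral_algebraMap (R := S) (A := A) (x := ⟨yy i, hyyS i⟩)
      · rw [Algebra.smul_def]
        refine IsIntegral.mul ?_ htI
        have := isIntegral_algebraMap (R := S) (A := A) (x := algebraMap L S (r i))
        rwa [← IsScalarTower.algebraMap_apply] at this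
    have hle : Algebra.adjoin L (Set.range y) ≤
        (integralClosure S A).restrictScalars L := by
      rw [Algebra.adjoin_le_iff]
      rintro _ ⟨i, rfl⟩
      exact hyI i
    intro a
    obtain ⟨P, hP, hPa⟩ := hint a
    let φ : Algebra.adjoin L (Set.range y) →+* integralClosure S A :=
      (Subalgebra.inclusion hle).toRingHom
    have h6 : IsIntegral (integralClosure S A) a := by
      refine ⟨P.map φ, hP.map _, ?_⟩
      rw [Polynomial.eval₂_map]
      exact hPa
    exact isIntegral_trans a h6
  · -- the cotangent condition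
    have h1 : t ∈ Ideal.span (Set.range y') ⊔ M ^ 2 := by
      have h2 : (∑ i, c i * r i) • t = ∑ i, c i • y i - ∑ i, c i • yy i := by
        rw [← Finset.sum_sub_distrib, Finset.sum_smul]
        refine Finset.sum_congr rfl fun i _ => ?_
        rw [← smul_sub]
        conv_rhs => rw [hyy i]
        rw [add_sub_cancel_left, mul_smul]
      have h3 : (∑ i, c i * r i) • t ∈ Ideal.span (Set.range y') ⊔ M ^ 2 := by
        rw [h2]
        refine Ideal.sub_mem _ (Ideal.mem_sup_right hcM) (Ideal.mem_sup_left ?_)
        refine Ideal.sum_mem _ fun i _ => hId _ _ ?_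
        refine Fin.lastCases ?_ (fun i => ?_) i
        · change (Fin.lastCases 0 y' (Fin.last m) : A) ∈ _
          rw [Fin.lastCases_last]
          exact Ideal.zero_mem _
        · change (Fin.lastCases 0 y' i.castSucc : A) ∈ _
          rw [Fin.lastCases_castSucc]
          exact Ideal.subset_span ⟨i, rfl⟩
      have h4 := hId _ (∑ i, c i * r i)⁻¹ h3
      rwa [smul_smul, inv_mul_cancel₀ hrc, one_smul] at h4
    refine hM.trans (sup_le ?_ le_sup_right)
    rw [Ideal.span_le]
    rintro _ ⟨i, rfl⟩
    rw [hyy i]
    refine Ideal.add_mem _ ?_ (hId _ _ h1)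
    refine Fin.lastCases ?_ (fun i => ?_) i
    · change (Fin.lastCases 0 y' (Fin.last m) : A) ∈ _
      rw [Fin.lastCases_last]
      exact Ideal.zero_mem _
    · change (Fin.lastCases 0 y' i.castSucc : A) ∈ _
      rw [Fin.lastCases_castSucc]
      exact Ideal.mem_sup_left (Ideal.subset_span ⟨i, rfl⟩)
  · -- the zeros
    intro q hq hfq hyq
    have hyyq : ∀ i, yy i ∈ q := by
      intro i
      refine Fin.lastCases ?_ (fun i => ?_) i
      · change (Fin.lastCases 0 y' (Fin.last m) : A) ∈ _
        rw [Fin.lastCases_last]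
        exact Ideal.zero_mem _
      · change (Fin.lastCases 0 y' i.castSucc : A) ∈ _
        rw [Fin.lastCases_castSucc]
        exact hyq i
    have h1 : Ideal.Quotient.mk q (MvPolynomial.aeval y Q) = 0 := by
      rw [Ideal.Quotient.eq_zero_iff_mem]
      have h2 : Ideal.span {f} ≤ q := by
        rw [Ideal.span_singleton_le_iff_mem]
        exact hfq
      exact h2 hQf
    have h2 : Ideal.Quotient.mk q (MvPolynomial.aeval y Q) =
        MvPolynomial.eval r Q • (Ideal.Quotient.mk q t) ^ n := by
      have h3 := MvPolynomial.comp_aeval_apply (f := y) (Ideal.Quotient.mkₐ L q) Q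
      change Ideal.Quotient.mk q (MvPolynomial.aeval y Q) = _ at h3
      rw [h3, ← H694.aeval_smul_hom hQn]
      congr 2
      funext i
      change Ideal.Quotient.mk q (y i) = r i • Ideal.Quotient.mk q t
      rw [hyy i, map_add, (Ideal.Quotient.eq_zero_iff_mem).2 (hyyq i), zero_add]
      rfl
    rw [h1] at h2
    have h3 : (Ideal.Quotient.mk q t) ^ n = 0 := by
      have h4 := congrArg (fun x => (MvPolynomial.eval r Q)⁻¹ • x) h2
      simp only [smul_zero, smul_smul] at h4
      rw [inv_mul_cancel₀ hrQ, one_smul] at h4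
      exact h4.symm
    have h4 : t ∈ q := by
      rw [← Ideal.Quotient.eq_zero_iff_mem]
      exact eq_zero_of_pow_eq_zero h3
    refine hZ q hq hfq fun i => ?_
    rw [hyy i]
    exact q.add_mem (hyyq i) (hId q _ h4)
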