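import Mathlib
import Pool.Agent.H694_ABV.Alg.A
import Pool.Agent.H694_ABV.Alg.B

/-! # Generic Noether normalisation at a point -/

universe u



/-- aux: affine decomposition with respect to the generators -/
theorem H694.aux_affine {L A : Type u} [Field L] [CommRing A] [Algebra L A] {N : ℕ}
    (y : Fin N → A) (a : A) (ha : a ∈ Algebra.adjoin L (Set.range y)) :
    ∃ c : L, a - algebraMap L A c ∈ Ideal.span (Set.range y) := by
  induction ha using Algebra.adjoin_induction with
  | mem x hx => exact ⟨0, by rw [map_zero, sub_zero]; exact Ideal.subset_span hx⟩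
  | algebraMap r => exact ⟨r, by rw [sub_self]; exact Ideal.zero_mem _⟩
  | add a b _ _ ha hb =>
    obtain ⟨c, hc⟩ := ha
    obtain ⟨c', hc'⟩ := hb
    refine ⟨c + c', ?_⟩
    have h1 : a + b - algebraMap L A (c + c') =
        (a - algebraMap L A c) + (b - algebraMap L A c') := by
      rw [map_add]
      ring
    rw [h1]
    exact Ideal.add_mem _ hc hc'
  | mul a b _ _ ha hb =>
    obtain ⟨c, hc⟩ := ha
    obtain ⟨c', hc'⟩ := hb
    refine ⟨c * c', ?_⟩
    have h1 : a * b - algebraMap L A (c * c') =
        b * (a - algebraMap L A c) + algebraMap L A c * (b - algebraMap L A c') := by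
      rw [map_mul]
      ring
    rw [h1]
    exact Ideal.add_mem _ (Ideal.mul_mem_left _ _ hc) (Ideal.mul_mem_left _ _ hc')

/-- aux: a constant in a proper ideal is zero -/
theorem H694.aux_const {L A : Type u} [Field L] [CommRing A] [Algebra L A] (M : Ideal A)
    (hM : M ≠ ⊤) (c : L) (hc : algebraMap L A c ∈ M) : c = 0 := by
  by_contra hne
  apply hM
  refine Ideal.eq_top_of_isUnit_mem M hc ?_
  exact (IsUnit.mk0 c hne).map (algebraMap L A)

/-- aux: generators in the maximal ideal -/
theorem H694.aux_start {L A : Type u} [Field L] [CommRing A] [Algebra L A]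
    [Algebra.FiniteType L A] (M : Ideal A) (hM : M ≠ ⊤)
    (hML : ∀ a : A, ∃ c : L, a - algebraMap L A c ∈ M) :
    ∃ (n : ℕ) (y : Fin n → A), (∀ i, y i ∈ M) ∧ Algebra.adjoin L (Set.range y) = ⊤ ∧
      M ≤ Ideal.span (Set.range y) := by
  obtain ⟨S, hS⟩ := Algebra.FiniteType.out (R := L) (A := A)
  let g : Fin S.card → A := fun i => (S.equivFin.symm i : A)
  have hg : Set.range g = (S : Set A) := by
    ext a
    constructor
    · rintro ⟨i, rfl⟩
      exact (S.equivFin.symm i).2
    · intro ha
      exact ⟨S.equivFin ⟨a, ha⟩, by simp [g]⟩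
  choose c hc using fun i => hML (g i)
  let y : Fin S.card → A := fun i => g i - algebraMap L A (c i)
  have htop : Algebra.adjoin L (Set.range y) = ⊤ := by
    rw [eq_top_iff, ← hS, Algebra.adjoin_le_iff, ← hg]
    rintro _ ⟨i, rfl⟩
    have h1 : g i = y i + algebraMap L A (c i) := by simp [y]
    rw [h1]
    exact Subalgebra.add_mem _ (Algebra.subset_adjoin ⟨i, rfl⟩) (Subalgebra.algebraMap_mem _ _)
  refine ⟨S.card, y, hc, htop, fun a ha => ?_⟩
  obtain ⟨c', hc'⟩ := H694.aux_affine y a (by rw [htop]; exact Algebra.mem_top)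
  have hle : Ideal.span (Set.range y) ≤ M := by
    rw [Ideal.span_le]
    rintro _ ⟨i, rfl⟩
    exact hc i
  have h2 : algebraMap L A c' ∈ M := by
    have h3 := M.sub_mem ha (hle hc')
    rwa [sub_sub_cancel] at h3
  have h4 := H694.aux_const M hM c' h2
  rw [h4, map_zero, sub_zero] at hc'
  exact hc'

/-- aux: the transcendence degree is smaller -/
theorem H694.aux_trdeg {L A : Type u} [Field L] [CommRing A] [IsDomain A] [Algebra L A]
    {e m : ℕ} (x : Fin e → A) (hx : AlgebraicIndependent L x) (y : Fin (m + 1) → A)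
    (hint : ∀ a : A, IsIntegral (Algebra.adjoin L (Set.range y)) a)
    (hdep : ¬ AlgebraicIndependent L y) : e ≤ m := by
  classical
  have hinj : Function.Injective (algebraMap L A) := (algebraMap L A).injective
  have : FaithfulSMul L A := (faithfulSMul_iff_algebraMap_injective L A).2 hinj
  have halg : Algebra.IsAlgebraic (Algebra.adjoin L (Set.range y)) A :=
    ⟨fun a => (hint a).isAlgebraic⟩
  obtain ⟨t, ht, htb⟩ := exists_isTranscendenceBasis_subset (R := L) (Set.range y)
  have h1 := hx.lift_cardinalMk_le_trdeg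
  have h2 := htb.cardinalMk_eq_trdeg
  have htfin : t.Finite := (Set.finite_range y).subset ht
  have h3 : e ≤ t.ncard := by
    rw [← h2] at h1
    rw [Cardinal.mk_fin, Cardinal.lift_natCast, Cardinal.lift_uzero] at h1
    have h4 : Cardinal.mk t = (t.ncard : Cardinal) := by
      have := htfin.to_subtype
      rw [Set.ncard, Set.encard, ENat.card_eq_coe_natCard, ENat.toNat_natCast,
        Nat.cast_card]
    rw [h4] at h1
    exact_mod_cast h1
  have h4 : (Set.range y).ncard ≤ m + 1 := by
    rw [← Set.image_univ]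
    refine (Set.ncard_image_le Set.finite_univ).trans ?_
    rw [Set.ncard_univ, Nat.card_eq_fintype_card, Fintype.card_fin]
  have h5 : t.ncard ≤ (Set.range y).ncard := Set.ncard_le_ncard ht (Set.finite_range y)
  by_contra hlt
  push Not at hlt
  have h6 : t.ncard = m + 1 := by omega
  have h7 : (Set.range y).ncard = m + 1 := by omega
  have h8 : t = Set.range y :=
    Set.eq_of_subset_of_ncard_le ht (by omega) (Set.finite_range y)
  have hyinj : Function.Injective y := by
    have h9 : Set.InjOn y Set.univ := by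
      apply Set.injOn_of_ncard_image_eq
      · rw [Set.image_univ, h7, Set.ncard_univ, Nat.card_eq_fintype_card, Fintype.card_fin]
      · exact Set.finite_univ
    exact Set.injOn_univ.1 h9
  apply hdep
  have h10 : AlgebraicIndependent L ((↑) : Set.range y → A) := by
    rw [← h8]
    exact htb.1
  have h11 := h10.comp (fun i : Fin (m + 1) => (⟨y i, i, rfl⟩ : Set.range y)) (fun i j hij =>
    hyinj (congrArg Subtype.val hij))
  exact h11

/-- aux: a linear relation modulo the square -/
theorem H694.aux_rel {L A : Type u} [Field L] [CommRing A] [Algebra L A] (M : Ideal A)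
    (hML : ∀ a : A, ∃ c : L, a - algebraMap L A c ∈ M) {e m : ℕ} (hem : e ≤ m)
    (u : Fin e → A) (hu : ∀ i, u i ∈ M) (huM : M ≤ Ideal.span (Set.range u) ⊔ M ^ 2)
    (y : Fin (m + 1) → A) (hy : ∀ i, y i ∈ M) :
    ∃ c : Fin (m + 1) → L, c ≠ 0 ∧ ∑ i, c i • y i ∈ M ^ 2 := by
  classical
  let N : Submodule L A := (M ^ 2).restrictScalars L
  let W : Submodule L (A ⧸ N) := Submodule.span L (Set.range fun i => N.mkQ (u i))
  have hW : ∀ a ∈ Ideal.span (Set.range u), N.mkQ a ∈ W := by
    intro a ha
    induction ha using Submodule.span_induction with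
    | mem x hx =>
      obtain ⟨i, rfl⟩ := hx
      exact Submodule.subset_span ⟨i, rfl⟩
    | zero => rw [map_zero]; exact Submodule.zero_mem _
    | add x y _ _ hx hy => rw [map_add]; exact Submodule.add_mem _ hx hy
    | smul r x hx' hx =>
      obtain ⟨c, hc⟩ := hML r
      have hxM : x ∈ M := by
        have hle : Ideal.span (Set.range u) ≤ M := by
          rw [Ideal.span_le]
          rintro _ ⟨i, rfl⟩
          exact hu i
        exact hle hx'
      have h1 : r • x = c • x + (r - algebraMap L A c) * x := by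
        rw [smul_eq_mul, Algebra.smul_def c x]
        ring
      have h2 : (r - algebraMap L A c) * x ∈ N := by
        change (r - algebraMap L A c) * x ∈ M ^ 2
        rw [pow_two]
        exact Ideal.mul_mem_mul hc hxM
      have h3 : N.mkQ ((r - algebraMap L A c) * x) = 0 := (Submodule.Quotient.mk_eq_zero N).2 h2
      rw [h1, map_add, map_smul, h3, add_zero]
      exact Submodule.smul_mem _ _ hx
  have hyW : ∀ i, N.mkQ (y i) ∈ W := by
    intro i
    obtain ⟨a, ha, b, hb, hab⟩ := Submodule.mem_sup.1 (huM (hy i))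
    have h1 : N.mkQ b = 0 := (Submodule.Quotient.mk_eq_zero N).2 hb
    rw [← hab, map_add, h1, add_zero]
    exact hW a ha
  let v : Fin (m + 1) → W := fun i => ⟨N.mkQ (y i), hyW i⟩
  have hWfin : FiniteDimensional L W := FiniteDimensional.span_of_finite L (Set.finite_range _)
  have hrank : Module.finrank L W ≤ e := by
    have h1 := finrank_range_le_card (R := L) (fun i => N.mkQ (u i))
    rw [Fintype.card_fin] at h1
    exact h1
  have hnot : ¬ LinearIndependent L v := by
    intro h
    have h1 := h.fintype_card_le_finrank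
    rw [Fintype.card_fin] at h1
    omega
  rw [Fintype.not_linearIndependent_iff] at hnot
  obtain ⟨c, hc, i, hi⟩ := hnot
  refine ⟨c, fun h => hi (congrFun h i), ?_⟩
  have h1 : N.mkQ (∑ i, c i • y i) = 0 := by
    rw [map_sum]
    have h2 := congrArg Subtype.val hc
    rw [AddSubmonoidClass.coe_finsetSum] at h2
    simp only [v, SetLike.val_smul, ZeroMemClass.coe_zero] at h2
    rw [← h2]
    exact Finset.sum_congr rfl fun i _ => map_smul _ _ _
  exact (Submodule.Quotient.mk_eq_zero N).1 h1

theorem H694.core {L A : Type u} [Field L] [Infinite L] [CommRing A] [IsDomain A]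
    [Algebra L A] [Algebra.FiniteType L A] (M : Ideal A) (hM : M ≠ ⊤)
    (hML : ∀ a : A, ∃ c : L, a - algebraMap L A c ∈ M)
    (e : ℕ) (x : Fin e → A) (hx : AlgebraicIndependent L x)
    (u : Fin e → A) (hu : ∀ i, u i ∈ M) (huM : M ≤ Ideal.span (Set.range u) ⊔ M ^ 2)
    (f : A) (hf : f ≠ 0) :
    ∃ (d : ℕ) (t : Fin d → A), AlgebraicIndependent L t ∧
      (∀ a : A, IsIntegral (Algebra.adjoin L (Set.range t)) a) ∧ (∀ i, t i ∈ M) ∧
      M ≤ Ideal.span (Set.range t) ⊔ M ^ 2 ∧
      ∀ q : Ideal A, q.IsPrime → f ∈ q → (∀ i, t i ∈ q) → M ≤ q := by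
  classical
  -- the descent
  have key : ∀ (n : ℕ) (y : Fin n → A), (∀ i, y i ∈ M) →
      (∀ a : A, IsIntegral (Algebra.adjoin L (Set.range y)) a) →
      M ≤ Ideal.span (Set.range y) ⊔ M ^ 2 →
      (∀ q : Ideal A, q.IsPrime → f ∈ q → (∀ i, y i ∈ q) → M ≤ q) →
      ∃ (d : ℕ) (t : Fin d → A), AlgebraicIndependent L t ∧
        (∀ a : A, IsIntegral (Algebra.adjoin L (Set.range t)) a) ∧ (∀ i, t i ∈ M) ∧
        M ≤ Ideal.span (Set.range t) ⊔ M ^ 2 ∧
        ∀ q : Ideal A, q.IsPrime → f ∈ q → (∀ i, t i ∈ q) → M ≤ q := by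
    intro n
    induction n with
    | zero =>
      intro y h1 h2 h3 h4
      exact ⟨0, y, algebraicIndependent_empty_type_iff.2 (algebraMap L A).injective, h2, h1, h3, h4⟩
    | succ m ih =>
      intro y h1 h2 h3 h4
      by_cases hdep : AlgebraicIndependent L y
      · exact ⟨m + 1, y, hdep, h2, h1, h3, h4⟩
      · have hem := H694.aux_trdeg x hx y h2 hdep
        obtain ⟨c, hc, hcM⟩ := H694.aux_rel M hML hem u hu huM y h1
        obtain ⟨n, Q, hQn, hQ0, hQf⟩ := H694.exists_homogeneous_aeval_mem f hf m y h2 hdep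
        obtain ⟨y', h5, h6, h7, h8⟩ := H694.projection_step M f m y h1 h2 hdep h3 h4 c hc hcM n Q
          hQn hQ0 hQf
        exact ih y' h5 h6 h7 h8
  obtain ⟨n, y, h1, h2, h3⟩ := H694.aux_start M hM hML
  refine key n y h1 (fun a => ?_) (h3.trans le_sup_left) (fun q hq _ hy => ?_)
  · have ha : a ∈ Algebra.adjoin L (Set.range y) := by
      rw [h2]
      exact Algebra.mem_top
    exact isIntegral_algebraMap (R := Algebra.adjoin L (Set.range y)) (x := ⟨a, ha⟩)
  · refine h3.trans ?_
    rw [Ideal.span_le]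
    rintro _ ⟨i, rfl⟩
    exact hy i
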