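import Mathlib

/-! # Smooth algebras over a field are locally domains -/

universe u

open TensorProduct

namespace H694

/-- an étale algebra over a normal domain is locally a domain (by an idempotent) -/
theorem etale_idem {S C : Type u} [CommRing S] [IsDomain S] [IsIntegrallyClosed S] [CommRing C]
    [Algebra S C] [Algebra.Etale S C] (P : Ideal C) [P.IsPrime] :
    ∃ h : C, h ∉ P ∧ h * h = h ∧ ∀ a b : C, a * b * h = 0 → a * h = 0 ∨ b * h = 0 := by
  classical
  let K := FractionRing S
  obtain ⟨I, hI, Ai, hF, hAlg, ⟨e, -⟩⟩ :=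
    (Algebra.Etale.iff_exists_algEquiv_prod K (K ⊗[S] C)).1 inferInstance
  -- the embedding of `C`
  let ι : C →ₐ[S] C ⊗[S] K := Algebra.TensorProduct.includeLeft
  have hι : Function.Injective ι :=
    Algebra.TensorProduct.includeLeft_injective (IsFractionRing.injective S K)
  let τ : C ⊗[S] K ≃ₐ[S] K ⊗[S] C := Algebra.TensorProduct.comm S C K
  let ψ : C ⊗[S] K ≃+* (∀ i, Ai i) := τ.toRingEquiv.trans e.toRingEquiv
  have key : ∀ ε : C ⊗[S] K, ε * ε = ε → ∃ c : C, ι c = ε := by
    intro ε hε
    have hint : IsIntegral C ε := by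
      refine ⟨Polynomial.X ^ 2 - Polynomial.X, ?_, ?_⟩
      · monicity!
      · simp only [Polynomial.eval₂_sub, Polynomial.eval₂_pow, Polynomial.eval₂_X]
        rw [pow_two, hε, sub_self]
    obtain ⟨z, hz⟩ := (TensorProduct.toIntegralClosure_bijective_of_smooth
      (R := S) (S := C) (B := K)).2 ⟨ε, hint⟩
    have hz' : ∃ c : C, z = c ⊗ₜ[S] (1 : integralClosure S K) := by
      clear hz
      induction z with
      | zero => exact ⟨0, by rw [TensorProduct.zero_tmul]⟩
      | add x y hx hy =>
        obtain ⟨c, rfl⟩ := hx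
        obtain ⟨d, rfl⟩ := hy
        exact ⟨c + d, by rw [TensorProduct.add_tmul]⟩
      | tmul x y =>
        obtain ⟨s, hs⟩ : ∃ s : S, algebraMap S (integralClosure S K) s = y := by
          obtain ⟨s, hs⟩ := IsIntegrallyClosed.isIntegral_iff.1 y.2
          exact ⟨s, Subtype.ext hs⟩
        refine ⟨s • x, ?_⟩
        rw [← hs, Algebra.algebraMap_eq_smul_one, TensorProduct.smul_tmul]
    obtain ⟨c, rfl⟩ := hz'
    refine ⟨c, ?_⟩
    have h2 := congrArg Subtype.val hz
    simpa [TensorProduct.toIntegralClosure, ι] using h2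
  let ε : I → C ⊗[S] K := fun i => ψ.symm (Pi.single i 1)
  have hε : ∀ i, ε i * ε i = ε i := by
    intro i
    rw [← map_mul, ← Pi.single_mul_left]
    simp [ε]
  choose c hc using fun i => key (ε i) (hε i)
  have : Fintype I := Fintype.ofFinite I
  have hsum : ∑ i, c i = 1 := by
    apply hι
    rw [map_sum, map_one]
    simp_rw [hc]
    rw [← map_sum, Finset.univ_sum_single (fun i => (1 : Ai i))]
    exact map_one ψ.symm
  obtain ⟨i, hi⟩ : ∃ i, c i ∉ P := by
    by_contra hcon
    push Not at hcon
    have h1 : (1 : C) ∈ P := by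
      rw [← hsum]
      exact Ideal.sum_mem _ fun i _ => hcon i
    exact (Ideal.ne_top_iff_one P).1 (Ideal.IsPrime.ne_top ‹_›) h1
  refine ⟨c i, hi, ?_, ?_⟩
  · apply hι
    rw [map_mul, hc, hε]
  · intro a b hab
    have h1 : ∀ d : C, d * c i = 0 ↔ ψ (ι d) i = 0 := by
      intro d
      rw [← map_eq_zero_iff ι hι, map_mul, hc, ← map_eq_zero_iff ψ ψ.injective, map_mul]
      constructor
      · intro h
        have := congrFun h i
        simpa [ε] using this
      · intro h
        funext j
        by_cases hj : j = i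
        · subst hj
          simp [h]
        · simp [ε, hj]
    rw [h1] at hab ⊢
    rw [h1]
    rw [map_mul, map_mul, Pi.mul_apply, mul_eq_zero] at hab
    exact hab

/-- elements of a localization -/
theorem away_domain {A : Type u} [CommRing A] {f : A} {P : Ideal A} [P.IsPrime] (hf : f ∉ P)
    (H : ∀ Q : Ideal (Localization.Away f), Q.IsPrime → 
      ∃ h : Localization.Away f, h ∉ Q ∧ h * h = h ∧
        ∀ a b : Localization.Away f, a * b * h = 0 → a * h = 0 ∨ b * h = 0) :
    ∃ a : A, f * a ∉ P ∧ IsDomain (Localization.Away (f * a)) := by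
  have hQ : (P.map (algebraMap A (Localization.Away f))).IsPrime :=
    IsLocalization.isPrime_of_isPrime_disjoint (.powers f) _ _ ‹_›
      ((Ideal.disjoint_powers_iff_notMem_of_isPrime _).mpr hf)
  obtain ⟨h, h1, h2, h3⟩ := H _ hQ
  obtain ⟨n, a, ha⟩ := IsLocalization.Away.surj f h
  have hfu : IsUnit (algebraMap A (Localization.Away f) f) := IsLocalization.Away.algebraMap_isUnit f
  have haP : a ∉ P := by
    intro haP
    have h4 : algebraMap A (Localization.Away f) a ∈ P.map (algebraMap A (Localization.Away f)) :=
      Ideal.mem_map_of_mem _ haP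
    rw [← ha, mul_comm, Ideal.unit_mul_mem_iff_mem _ (hfu.pow n)] at h4
    exact h1 h4
  have hg : f * a ∉ P := fun h => (Ideal.IsPrime.mem_or_mem ‹_› h).elim hf haP
  refine ⟨a, hg, ?_⟩
  have hnt : Nontrivial (Localization.Away (f * a)) := by
    by_contra hcon
    rw [not_nontrivial_iff_subsingleton] at hcon
    have h4 : (algebraMap A (Localization.Away (f * a))) 1 = algebraMap A _ 0 :=
      Subsingleton.elim _ _
    obtain ⟨⟨_, k, rfl⟩, hk⟩ := (IsLocalization.eq_iff_exists (.powers (f * a)) _).1 h4
    simp only [mul_one, mul_zero] at hk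
    exact hg (Ideal.IsPrime.mem_of_pow_mem ‹_› k (by rw [hk]; exact P.zero_mem))
  refine @NoZeroDivisors.to_isDomain _ _ hnt ⟨?_⟩
  intro x y hxy
  obtain ⟨i, x', hx⟩ := IsLocalization.Away.surj (f * a) x
  obtain ⟨j, y', hy⟩ := IsLocalization.Away.surj (f * a) y
  have hgu : IsUnit (algebraMap A (Localization.Away (f * a)) (f * a)) :=
    IsLocalization.Away.algebraMap_isUnit (f * a)
  have h4 : algebraMap A (Localization.Away (f * a)) (x' * y') = algebraMap A _ 0 := by
    rw [map_mul, ← hx, ← hy, map_zero]
    linear_combination (algebraMap A (Localization.Away (f * a)) (f * a) ^ i *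
      algebraMap A (Localization.Away (f * a)) (f * a) ^ j) * hxy
  obtain ⟨⟨_, k, rfl⟩, hk⟩ := (IsLocalization.eq_iff_exists (.powers (f * a)) _).1 h4
  simp only [mul_zero] at hk
  have h5 := congrArg (algebraMap A (Localization.Away f)) hk
  simp only [map_mul, map_pow, map_zero, mul_pow, ← ha] at h5
  have hhk : ∀ k : ℕ, h ^ (k + 1) = h := by
    intro k
    induction k with
    | zero => rw [zero_add, pow_one]
    | succ k ih => rw [pow_succ, ih, h2]
  -- `x' y' h = 0`
  have h6 : algebraMap A (Localization.Away f) x' * algebraMap A (Localization.Away f) y' * h = 0 := by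
    have hu : IsUnit (algebraMap A (Localization.Away f) f ^ k *
        (algebraMap A (Localization.Away f) f ^ n) ^ k) := (hfu.pow k).mul ((hfu.pow n).pow k)
    rw [← hu.mul_right_eq_zero]
    have h7 : h * h ^ k = h := by rw [← pow_succ', hhk]
    linear_combination h * h5 - (algebraMap A (Localization.Away f) f ^ k *
        (algebraMap A (Localization.Away f) f ^ n) ^ k * algebraMap A (Localization.Away f) x' *
          algebraMap A (Localization.Away f) y') * h7
  have h8 : ∀ z : Localization.Away (f * a), ∀ (l : ℕ) (z' : A),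
      z * algebraMap A (Localization.Away (f * a)) (f * a) ^ l = algebraMap A _ z' →
      algebraMap A (Localization.Away f) z' * h = 0 → z = 0 := by
    intro z l z' hz hz0
    have h9 : algebraMap A (Localization.Away f) (z' * a) = algebraMap A _ 0 := by
      rw [map_mul, ← ha, map_zero]
      linear_combination (algebraMap A (Localization.Away f) f ^ n) * hz0
    obtain ⟨⟨_, m, rfl⟩, hm⟩ := (IsLocalization.eq_iff_exists (.powers f) _).1 h9
    simp only [mul_zero] at hm
    have h10 : algebraMap A (Localization.Away (f * a)) z' = 0 := by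
      have h11 : algebraMap A (Localization.Away (f * a)) ((f * a) ^ (m + 1) * z') = 0 := by
        have : (f * a) ^ (m + 1) * z' = (f * a ^ m) * (f ^ m * (z' * a)) := by ring
        rw [this, hm, mul_zero, map_zero]
      rw [map_mul, map_pow] at h11
      exact (hgu.pow (m + 1)).mul_right_eq_zero.1 h11
    rw [h10] at hz
    exact (hgu.pow l).mul_left_eq_zero.1 hz
  rcases h3 _ _ h6 with h9 | h9
  · exact Or.inl (h8 x i x' hx h9)
  · exact Or.inr (h8 y j y' hy h9)

theorem exists_etale {L A : Type u} [Field L] [CommRing A] [Algebra L A]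
    [Algebra.Smooth L A] (M : Ideal A) [M.IsPrime] :
    ∃ f ∉ M, ∃ a : A, f * a ∉ M ∧ IsDomain (Localization.Away (f * a)) ∧
      ∃ (n : ℕ) (_ : Algebra (MvPolynomial (Fin n) L) (Localization.Away f)),
      IsScalarTower L (MvPolynomial (Fin n) L) (Localization.Away f) ∧
      Algebra.Etale (MvPolynomial (Fin n) L) (Localization.Away f) := by
  obtain ⟨f, hf, n, h1, h2, h3⟩ :=
    Algebra.IsSmoothAt.exists_isStandardEtale_mvPolynomial (R := L) (p := M)
  obtain ⟨a, ha, hd⟩ := away_domain (P := M) hf (fun Q hQ =>
    etale_idem (S := MvPolynomial (Fin n) L) Q)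
  exact ⟨f, hf, a, ha, hd, n, h1, h2, inferInstance⟩


theorem exists_etale' {L A : Type u} [Field L] [CommRing A] [Algebra L A]
    [Algebra.Smooth L A] (M : Ideal A) [M.IsPrime] :
    ∃ g ∉ M, IsDomain (Localization.Away g) ∧
      ∃ (n : ℕ) (_ : Algebra (MvPolynomial (Fin n) L) (Localization.Away g)),
      IsScalarTower L (MvPolynomial (Fin n) L) (Localization.Away g) ∧
      Algebra.Etale (MvPolynomial (Fin n) L) (Localization.Away g) := by
  obtain ⟨f, hf, a, ha, hd, n, h1, h2, h3⟩ := exists_etale (L := L) M
  refine ⟨f * a, ha, hd, n, ?_⟩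
  let T := Localization.Away (algebraMap A (Localization.Away f) a)
  let e : T ≃ₐ[A] Localization.Away (f * a) :=
    IsLocalization.algEquiv (Submonoid.powers (f * a)) T (Localization.Away (f * a))
  have hT : Algebra.Etale (Localization.Away f) T :=
    Algebra.Etale.of_isLocalizationAway (algebraMap A (Localization.Away f) a)
  have hT2 : Algebra.Etale (MvPolynomial (Fin n) L) T :=
    Algebra.Etale.comp (MvPolynomial (Fin n) L) (Localization.Away f) T
  let φ : MvPolynomial (Fin n) L →+* Localization.Away (f * a) :=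
    (e : T →+* Localization.Away (f * a)).comp (algebraMap (MvPolynomial (Fin n) L) T)
  let h4 : Algebra (MvPolynomial (Fin n) L) (Localization.Away (f * a)) := φ.toAlgebra
  let e' : T ≃ₐ[MvPolynomial (Fin n) L] Localization.Away (f * a) :=
    { e.toRingEquiv with commutes' := fun r => rfl }
  refine ⟨h4, ?_, Algebra.Etale.of_equiv e'⟩
  refine IsScalarTower.of_algebraMap_eq fun r => ?_
  change _ = e (algebraMap (MvPolynomial (Fin n) L) T (algebraMap L _ r))
  rw [← IsScalarTower.algebraMap_apply L (MvPolynomial (Fin n) L) T,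
    IsScalarTower.algebraMap_apply L A T, AlgEquiv.commutes]
  rfl

/-- in an étale algebra over a ring, ideals over a maximal ideal are idempotent modulo it -/
theorem etale_idem_ideal {S B : Type u} [CommRing S] [CommRing B] [Algebra S B]
    [Algebra.Etale S B] (n : Ideal S) [n.IsMaximal] (I : Ideal B) :
    I ≤ n.map (algebraMap S B) ⊔ I ^ 2 := by
  let : Field (S ⧸ n) := Ideal.Quotient.field n
  set J := n.map (algebraMap S B) with hJ
  have hred : IsReduced (B ⧸ J) := by
    rw [← Ideal.isRadical_iff_quotient_reduced]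
    exact Algebra.FormallyUnramified.isRadical_map_isMaximal (A := S) B n
  have hfin : Module.Finite (S ⧸ n) (B ⧸ J) := Algebra.FormallyUnramified.finite_of_free _ _
  have hart : IsArtinianRing (B ⧸ J) := isArtinian_of_tower (S ⧸ n) inferInstance
  intro x hx
  obtain ⟨k, y, hy⟩ := IsArtinian.exists_pow_succ_smul_dvd (Ideal.Quotient.mk J x) (1 : B ⧸ J)
  obtain ⟨y, rfl⟩ := Ideal.Quotient.mk_surjective y
  simp only [smul_eq_mul, mul_one] at hy
  have h1 : (Ideal.Quotient.mk J (x - x ^ 2 * y)) ^ (k + 1) = 0 := by
    rw [map_sub, map_mul, map_pow]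
    have h2 : (Ideal.Quotient.mk J x - Ideal.Quotient.mk J x ^ 2 * Ideal.Quotient.mk J y) ^ (k + 1) =
        (Ideal.Quotient.mk J x) ^ k * (1 - Ideal.Quotient.mk J x * Ideal.Quotient.mk J y) *
          ((Ideal.Quotient.mk J x) * (1 - Ideal.Quotient.mk J x * Ideal.Quotient.mk J y) ^ k) := by
      rw [show Ideal.Quotient.mk J x - Ideal.Quotient.mk J x ^ 2 * Ideal.Quotient.mk J y =
        Ideal.Quotient.mk J x * (1 - Ideal.Quotient.mk J x * Ideal.Quotient.mk J y) by ring,
        mul_pow]
      ring
    have h3 : (Ideal.Quotient.mk J x) ^ k * (1 - Ideal.Quotient.mk J x * Ideal.Quotient.mk J y) = 0 := by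
      rw [Nat.succ_eq_add_one] at hy
      linear_combination -hy
    rw [h2, h3, zero_mul]
  have h4 : x - x ^ 2 * y ∈ J := by
    rw [← Ideal.Quotient.eq_zero_iff_mem]
    exact pow_eq_zero_iff (n := k + 1) (by omega) |>.1 h1
  have h5 : x = (x - x ^ 2 * y) + x ^ 2 * y := by ring
  rw [h5]
  exact Submodule.add_mem_sup h4 (Ideal.mul_mem_right _ _ (Ideal.pow_mem_pow hx 2))


/-- a polynomial is its value at `c` modulo the `X i - c i` -/
theorem poly_mod {L : Type u} [Field L] {n : ℕ} (c : Fin n → L) (p : MvPolynomial (Fin n) L) :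
    p - MvPolynomial.C (MvPolynomial.eval c p) ∈
      Ideal.span (Set.range fun i : Fin n => (MvPolynomial.X i - MvPolynomial.C (c i) :
        MvPolynomial (Fin n) L)) := by
  induction p using MvPolynomial.induction_on with
  | C a => simp
  | add p q hp hq =>
    have : p + q - MvPolynomial.C (MvPolynomial.eval c (p + q)) =
        (p - MvPolynomial.C (MvPolynomial.eval c p)) +
          (q - MvPolynomial.C (MvPolynomial.eval c q)) := by
      rw [map_add, map_add]; ring
    rw [this]
    exact add_mem hp hq
  | mul_X p i hp =>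
    have : p * MvPolynomial.X i - MvPolynomial.C (MvPolynomial.eval c (p * MvPolynomial.X i)) =
        (p - MvPolynomial.C (MvPolynomial.eval c p)) * MvPolynomial.X i +
          MvPolynomial.C (MvPolynomial.eval c p) * (MvPolynomial.X i - MvPolynomial.C (c i)) := by
      rw [map_mul, MvPolynomial.eval_X, map_mul]; ring
    rw [this]
    exact add_mem (Ideal.mul_mem_right _ _ hp)
      (Ideal.mul_mem_left _ _ (Ideal.subset_span ⟨i, rfl⟩))

theorem smooth_local {L A : Type u} [Field L] [CommRing A] [Algebra L A] [Algebra.Smooth L A]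
    (M : Ideal A) [M.IsMaximal] (hML : ∀ a : A, ∃ c : L, a - algebraMap L A c ∈ M) :
    ∃ (g : A) (_ : g ∉ M) (e : ℕ) (x u : Fin e → Localization.Away g),
      IsDomain (Localization.Away g) ∧ AlgebraicIndependent L x ∧
      (∀ i, u i ∈ M.map (algebraMap A (Localization.Away g))) ∧
      M.map (algebraMap A (Localization.Away g)) ≤
        Ideal.span (Set.range u) ⊔ M.map (algebraMap A (Localization.Away g)) ^ 2 := by
  obtain ⟨g, hg, hdom, n, halg, htow, het⟩ := exists_etale' (L := L) M
  have hgu : IsUnit (algebraMap A (Localization.Away g) g) := IsLocalization.Away.algebraMap_isUnit g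
  have hML' : ∀ b : Localization.Away g, ∃ c : L,
      b - algebraMap L (Localization.Away g) c ∈ M.map (algebraMap A (Localization.Away g)) := by
    intro b
    obtain ⟨k, a, ha⟩ := IsLocalization.Away.surj g b
    obtain ⟨c, hc⟩ := hML a
    obtain ⟨d, hd⟩ := hML g
    have hd0 : d ≠ 0 := by
      rintro rfl
      rw [map_zero, sub_zero] at hd
      exact hg hd
    have h1 : a - algebraMap L A (c / d ^ k) * g ^ k ∈ M := by
      have h2 : g ^ k - algebraMap L A d ^ k ∈ M :=
        M.mem_of_dvd (sub_dvd_pow_sub_pow g (algebraMap L A d) k) hd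
      have h3 : algebraMap L A (c / d ^ k) * algebraMap L A d ^ k = algebraMap L A c := by
        rw [← map_pow, ← map_mul, div_mul_cancel₀ _ (pow_ne_zero _ hd0)]
      have h4 : a - algebraMap L A (c / d ^ k) * g ^ k = (a - algebraMap L A c) -
          algebraMap L A (c / d ^ k) * (g ^ k - algebraMap L A d ^ k) := by
        linear_combination -h3
      rw [h4]
      exact sub_mem hc (Ideal.mul_mem_left _ _ h2)
    refine ⟨c / d ^ k, ?_⟩
    rw [← Ideal.mul_unit_mem_iff_mem _ (hgu.pow k)]
    have h2 := Ideal.mem_map_of_mem (algebraMap A (Localization.Away g)) h1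
    rw [map_sub, map_mul, map_pow, ← ha, ← IsScalarTower.algebraMap_apply] at h2
    convert h2 using 1
    ring
  let S := MvPolynomial (Fin n) L
  let x : Fin n → Localization.Away g := fun i => algebraMap S _ (MvPolynomial.X i)
  choose c hc using fun i => hML' (x i)
  let u : Fin n → Localization.Away g := fun i => x i - algebraMap L _ (c i)
  have hu : ∀ i, u i = algebraMap S _ (MvPolynomial.X i - MvPolynomial.C (c i)) := by
    intro i
    change _ - _ = _
    rw [map_sub, IsScalarTower.algebraMap_apply L S (Localization.Away g)]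
    rfl
  refine ⟨g, hg, n, x, u, hdom, ?_, hc, ?_⟩
  · have hx : (MvPolynomial.aeval x : S →ₐ[L] Localization.Away g) =
        IsScalarTower.toAlgHom L S (Localization.Away g) := by
      apply MvPolynomial.algHom_ext
      intro i
      rw [MvPolynomial.aeval_X]
      rfl
    rw [AlgebraicIndependent, hx]
    have hflat : Module.Flat S (Localization.Away g) := inferInstance
    have : Module.IsTorsionFree S (Localization.Away g) := inferInstance
    exact FaithfulSMul.algebraMap_injective S (Localization.Away g)
  · have hmax : (Ideal.span (Set.range fun i : Fin n => (MvPolynomial.X i - MvPolynomial.C (c i) :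
        S))).IsMaximal := by
      have h1 : Ideal.span (Set.range fun i : Fin n => (MvPolynomial.X i - MvPolynomial.C (c i) :
        S)) = RingHom.ker (MvPolynomial.eval c) := by
        apply le_antisymm
        · rw [Ideal.span_le]
          rintro _ ⟨i, rfl⟩
          change MvPolynomial.eval c (MvPolynomial.X i - MvPolynomial.C (c i)) = 0
          rw [map_sub, MvPolynomial.eval_X, MvPolynomial.eval_C, sub_self]
        · intro p hp
          have := poly_mod c p
          rw [RingHom.mem_ker] at hp
          rwa [hp, map_zero, sub_zero] at this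
      rw [h1]
      exact RingHom.ker_isMaximal_of_surjective _
        fun a => ⟨MvPolynomial.C a, MvPolynomial.eval_C a⟩
    have h2 := etale_idem_ideal (B := Localization.Away g)
      (Ideal.span (Set.range fun i : Fin n => (MvPolynomial.X i - MvPolynomial.C (c i) : S)))
      (M.map (algebraMap A (Localization.Away g)))
    rw [Ideal.map_span, ← Set.range_comp] at h2
    have hu' : u = (algebraMap S (Localization.Away g)) ∘
        fun i => MvPolynomial.X i - MvPolynomial.C (c i) := funext hu
    rw [hu']
    exact h2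

/-- second TARGET, from parts (1) and (2) of the proof: no rational point needed -/
theorem smooth_locally_domain {L A : Type u} [Field L] [CommRing A] [Algebra L A]
    [Algebra.Smooth L A] (M : Ideal A) [M.IsPrime] :
    ∃ g : A, g ∉ M ∧ IsDomain (Localization.Away g) := by
  obtain ⟨g, hg, hdom, -⟩ := exists_etale' (L := L) M
  exact ⟨g, hg, hdom⟩


end H694
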