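import Mathlib
import Pool.Agent.H694_ABV.Alg.C
import Pool.Agent.H694_ABV.Alg.D

/-! # Good coordinates over an infinite field -/

universe u



theorem H694.fas_infinite {L A : Type u} [Field L] [Infinite L] [CommRing A] [Algebra L A]
    [Algebra.Smooth L A] (M : Ideal A) [M.IsMaximal]
    (hML : ∀ a : A, ∃ c : L, a - algebraMap L A c ∈ M) (f : A) (hf : f ∈ nonZeroDivisors A) :
    ∃ (g : A) (_ : g ∉ M) (d : ℕ) (t : Fin d → Localization.Away g) (b : Fin d → L)
      (G : MvPolynomial (Fin d) L),
      IsDomain (Localization.Away g) ∧ AlgebraicIndependent L t ∧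
      (∀ a : Localization.Away g, IsIntegral (Algebra.adjoin L (Set.range t)) a) ∧
      (∀ i, t i ∈ M.map (algebraMap A (Localization.Away g))) ∧
      M.map (algebraMap A (Localization.Away g)) ≤
        Ideal.span (Set.range t) ⊔ M.map (algebraMap A (Localization.Away g)) ^ 2 ∧
      (∀ q : Ideal (Localization.Away g), q.IsPrime →
        algebraMap A (Localization.Away g) f ∈ q → (∀ i, t i ∈ q) →
        M.map (algebraMap A (Localization.Away g)) ≤ q) ∧
      MvPolynomial.eval b G ≠ 0 ∧
      MvPolynomial.aeval t G ∈ Ideal.span {algebraMap A (Localization.Away g) f} := by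
  classical
  obtain ⟨g, hg, e, x, u, hdom, hx, hu, huM⟩ := H694.smooth_local M hML
  set MD : Ideal (Localization.Away g) := M.map (algebraMap A (Localization.Away g)) with hMD
  have hMprime : M.IsPrime := Ideal.IsMaximal.isPrime' M
  have hpow : ∀ n : ℕ, g ^ n ∉ M := fun n h => hg (hMprime.mem_of_pow_mem n h)
  -- `MD ≠ ⊤`
  have hMDne : MD ≠ ⊤ := by
    rw [hMD, IsLocalization.map_algebraMap_ne_top_iff_disjoint (Submonoid.powers g)]
    rw [Set.disjoint_left]
    rintro _ ⟨n, rfl⟩ h
    exact hpow n h
  -- the constants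
  obtain ⟨c₀, hc₀⟩ := hML g
  have hc₀ne : c₀ ≠ 0 := by
    rintro rfl
    rw [map_zero, sub_zero] at hc₀
    exact hg hc₀
  have hconst : ∀ a : (Localization.Away g), ∃ c : L, a - algebraMap L (Localization.Away g) c ∈ MD := by
    intro a
    obtain ⟨⟨a₀, ⟨_, n, rfl⟩⟩, ha⟩ := IsLocalization.surj (Submonoid.powers g) a
    simp only at ha
    obtain ⟨c₁, hc₁⟩ := hML a₀
    refine ⟨c₁ / c₀ ^ n, ?_⟩
    have hmem1 : algebraMap A (Localization.Away g) (a₀ - algebraMap L A c₁) ∈ MD := Ideal.mem_map_of_mem _ hc₁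
    have hmem2 : algebraMap A (Localization.Away g) (g ^ n - algebraMap L A c₀ ^ n) ∈ MD := by
      refine Ideal.mem_map_of_mem _ ?_
      obtain ⟨w, hw⟩ := sub_dvd_pow_sub_pow g (algebraMap L A c₀) n
      rw [hw]
      exact M.mul_mem_right _ hc₀
    have h3 : algebraMap L (Localization.Away g) (c₀ ^ n)⁻¹ * algebraMap L (Localization.Away g) (c₀ ^ n) = 1 := by
      rw [← map_mul, inv_mul_cancel₀ (pow_ne_zero _ hc₀ne), map_one]
    have e1 : algebraMap A (Localization.Away g) (algebraMap L A c₁) = algebraMap L (Localization.Away g) c₁ :=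
      (IsScalarTower.algebraMap_apply L A (Localization.Away g) c₁).symm
    have e0 : algebraMap A (Localization.Away g) (algebraMap L A c₀) = algebraMap L (Localization.Away g) c₀ :=
      (IsScalarTower.algebraMap_apply L A (Localization.Away g) c₀).symm
    have key : a - algebraMap L (Localization.Away g) (c₁ / c₀ ^ n) = algebraMap L (Localization.Away g) (c₀ ^ n)⁻¹ *
        (algebraMap A (Localization.Away g) (a₀ - algebraMap L A c₁) -
          algebraMap A (Localization.Away g) (g ^ n - algebraMap L A c₀ ^ n) * a) := by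
      rw [map_sub, map_sub, map_pow (algebraMap A (Localization.Away g)) (algebraMap L A c₀), e1, e0, ← ha,
        div_eq_mul_inv, map_mul, ← map_pow (algebraMap L (Localization.Away g)) c₀ n]
      linear_combination (-a) * h3
    rw [key]
    exact MD.mul_mem_left _ (MD.sub_mem hmem1 (MD.mul_mem_right _ hmem2))
  -- the image of `f`
  have hf' : algebraMap A (Localization.Away g) f ≠ 0 := by
    intro h0
    rw [IsLocalization.map_eq_zero_iff (Submonoid.powers g)] at h0
    obtain ⟨⟨_, n, rfl⟩, hn⟩ := h0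
    simp only at hn
    have h1 : g ^ n = 0 := (mem_nonZeroDivisors_iff.1 hf).2 _ hn
    exact hpow n (h1 ▸ M.zero_mem)
  have hft : Algebra.FiniteType L (Localization.Away g) := inferInstance
  obtain ⟨d, t, ht_ind, ht_int, ht_mem, ht_M, ht_q⟩ := H694.core MD hMDne hconst e x hx u hu huM
    (algebraMap A (Localization.Away g) f) hf'
  -- the polynomial `G`
  have hcomap := Ideal.comap_ne_bot_of_integral_mem (R := Algebra.adjoin L (Set.range t))
    (I := Ideal.span {algebraMap A (Localization.Away g) f}) hf' (Ideal.mem_span_singleton_self _) (ht_int _)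
  obtain ⟨s, hs_mem, hs_ne⟩ := Submodule.exists_mem_ne_zero_of_ne_bot hcomap
  rw [Ideal.mem_comap] at hs_mem
  obtain ⟨G, hG⟩ : ∃ G : MvPolynomial (Fin d) L, MvPolynomial.aeval t G = (s : (Localization.Away g)) := by
    have h1 : (s : (Localization.Away g)) ∈
        (MvPolynomial.aeval t : MvPolynomial (Fin d) L →ₐ[L] (Localization.Away g)).range := by
      rw [← Algebra.adjoin_range_eq_range_aeval]
      exact s.2
    exact h1
  have hGne : G ≠ 0 := by
    rintro rfl
    rw [map_zero] at hG
    exact hs_ne (Subtype.ext hG.symm)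
  obtain ⟨b, hb⟩ : ∃ b : Fin d → L, MvPolynomial.eval b G ≠ 0 := by
    by_contra h
    push Not at h
    exact hGne (MvPolynomial.funext fun b => by rw [h b, map_zero])
  exact ⟨g, hg, d, t, b, G, hdom, ht_ind, ht_int, ht_mem, ht_M, ht_q, hb, hG ▸ hs_mem⟩
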