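import Mathlib
import Pool.Agent.H694_ABV.Alg.E1

/-! # Spreading out to a finite extension -/

set_option autoImplicit false
universe u

open Filter TensorProduct

namespace H694E2

section descent

variable {k Ω D : Type u} [Field k] [Field Ω] [Algebra k Ω] [CommRing D] [Algebra Ω D]

/-- the field generated by a finite set -/
abbrev F (k : Type u) {Ω : Type u} [Field k] [Field Ω] [Algebra k Ω] (s : Finset Ω) : IntermediateField k Ω :=
  IntermediateField.adjoin k (s : Set Ω)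

theorem ev_F (c : Ω) : ∀ᶠ s : Finset Ω in atTop, c ∈ F k s := by
  filter_upwards [eventually_ge_atTop {c}] with s hs
  exact IntermediateField.subset_adjoin _ _ (hs (Finset.mem_singleton_self c))

theorem ev_adjoin (T : Set D) (x : D) (hx : x ∈ Algebra.adjoin Ω T) :
    ∀ᶠ s : Finset Ω in atTop, x ∈ Algebra.adjoin (F k s) T := by
  induction hx using Algebra.adjoin_induction with
  | mem x hx => exact Eventually.of_forall fun s => Algebra.subset_adjoin hx
  | algebraMap c =>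
    filter_upwards [ev_F (k := k) c] with s hs
    exact Subalgebra.algebraMap_mem (Algebra.adjoin (F k s) T) (⟨c, hs⟩ : F k s)
  | add x y _ _ h1 h2 =>
    filter_upwards [h1, h2] with s h1 h2
    exact add_mem h1 h2
  | mul x y _ _ h1 h2 =>
    filter_upwards [h1, h2] with s h1 h2
    exact mul_mem h1 h2

theorem int_desc {K C : Type u} [CommRing K] [CommRing C] [Algebra K C] [Algebra K D] (ι : C →ₐ[K] D)
    (hι : Function.Injective ι) (T : Set C) (P : Polynomial D) (hP : P.Monic)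
    (hcoeff : ∀ n, P.coeff n ∈ Algebra.adjoin K (ι '' T)) (z : C) (hz : P.eval (ι z) = 0) :
    IsIntegral (Algebra.adjoin K T) z := by
  have hlift : P ∈ Polynomial.lifts ((ι : C →+* D).comp (algebraMap (Algebra.adjoin K T) C)) := by
    rw [Polynomial.lifts_iff_coeff_lifts]
    intro n
    have := hcoeff n
    rw [← AlgHom.map_adjoin] at this
    obtain ⟨c, hc, hc'⟩ := this
    exact ⟨⟨c, hc⟩, hc'⟩
  obtain ⟨q, hq, -, hqm⟩ := Polynomial.lifts_and_natDegree_eq_and_monic hlift hP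
  refine ⟨q, hqm, ?_⟩
  apply hι
  rw [map_zero, ← hz, ← hq, Polynomial.eval_map]
  change (ι : C →+* D) _ = _
  rw [Polynomial.hom_eval₂]
  rfl

/-- the limit of a family of ideals -/
def limIdeal (W : Set D) (hW : Algebra.adjoin Ω W = ⊤)
    (J : ∀ s : Finset Ω, Ideal (Algebra.adjoin (F k s) W)) : Ideal D where
  carrier := {y | ∀ᶠ s : Finset Ω in atTop, ∃ hy : y ∈ Algebra.adjoin (F k s) W, (⟨y, hy⟩ : Algebra.adjoin (F k s) W) ∈ J s}
  zero_mem' := Eventually.of_forall fun s => ⟨zero_mem _, (J s).zero_mem⟩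
  add_mem' := by
    intro a b ha hb
    simp only [Set.mem_ofPred_eq] at ha hb ⊢
    filter_upwards [ha, hb] with s h1 h2
    obtain ⟨h1, h1'⟩ := h1
    obtain ⟨h2, h2'⟩ := h2
    exact ⟨add_mem h1 h2, (J s).add_mem h1' h2'⟩
  smul_mem' := by
    intro c x hx
    simp only [Set.mem_ofPred_eq] at hx ⊢
    filter_upwards [hx, ev_adjoin (k := k) W c (hW ▸ trivial)] with s h1 h2
    obtain ⟨h1, h1'⟩ := h1
    exact ⟨mul_mem h2 h1, (J s).mul_mem_left ⟨c, h2⟩ h1'⟩

theorem mem_limIdeal (W : Set D) (hW : Algebra.adjoin Ω W = ⊤)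
    (J : ∀ s : Finset Ω, Ideal (Algebra.adjoin (F k s) W)) (y : D) :
    y ∈ limIdeal W hW J ↔ ∀ᶠ s : Finset Ω in atTop, ∃ hy : y ∈ Algebra.adjoin (F k s) W, (⟨y, hy⟩ : Algebra.adjoin (F k s) W) ∈ J s :=
  Iff.rfl

/-- ideal membership descends: for ideals generated by elements -/
theorem ev_span (W : Set D) (hW : Algebra.adjoin Ω W = ⊤) (T : Set D) (y : D) (hy : y ∈ Ideal.span T) :
    ∀ᶠ s : Finset Ω in atTop, ∃ hy : y ∈ Algebra.adjoin (F k s) W,
      (⟨y, hy⟩ : Algebra.adjoin (F k s) W) ∈ Ideal.span ((algebraMap (Algebra.adjoin (F k s) W) D) ⁻¹' T) := by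
  have : Ideal.span T ≤ limIdeal W hW (fun s : Finset Ω => Ideal.span ((algebraMap (Algebra.adjoin (F k s) W) D) ⁻¹' T)) := by
    rw [Ideal.span_le]
    intro t ht
    change _ ∈ limIdeal W hW _
    rw [mem_limIdeal]
    filter_upwards [ev_adjoin (k := k) W t (hW ▸ trivial)] with s h1
    exact ⟨h1, Ideal.subset_span ht⟩
  exact this hy

theorem preimage_singleton {K : Type u} [CommRing K] [Algebra K D] (S : Subalgebra K D) (f : D) (hf : f ∈ S) :
    (algebraMap S D) ⁻¹' {f} = {⟨f, hf⟩} := by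
  ext x
  simp only [Set.mem_preimage, Set.mem_singleton_iff]
  constructor
  · intro h; exact Subtype.ext h
  · rintro rfl; rfl

theorem preimage_range {K : Type u} [CommRing K] [Algebra K D] (S : Subalgebra K D) {d : ℕ} (t : Fin d → D)
    (ht : ∀ i, t i ∈ S) :
    (algebraMap S D) ⁻¹' (Set.range t) = Set.range (fun i => (⟨t i, ht i⟩ : S)) := by
  ext x
  simp only [Set.mem_preimage, Set.mem_range]
  constructor
  · rintro ⟨i, hi⟩; exact ⟨i, Subtype.ext hi⟩
  · rintro ⟨i, rfl⟩; exact ⟨i, rfl⟩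

/-- every element of the small ring is a constant modulo the ideal generated by the `w - c w` -/
theorem const_mod {K : Type u} [Field K] [Algebra K D] (W : Set D) (c : D → K) (T : Ideal (Algebra.adjoin K W))
    (hT : ∀ w (hw : w ∈ W), (⟨w, Algebra.subset_adjoin hw⟩ : Algebra.adjoin K W) - algebraMap K (Algebra.adjoin K W) (c w) ∈ T)
    (a : Algebra.adjoin K W) : ∃ c : K, a - algebraMap K (Algebra.adjoin K W) c ∈ T := by
  obtain ⟨a, ha⟩ := a
  induction ha using Algebra.adjoin_induction with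
  | mem x hx => exact ⟨c x, hT x hx⟩
  | algebraMap r =>
    refine ⟨r, ?_⟩
    convert T.zero_mem
    rw [sub_eq_zero]
    rfl
  | add x y hx hy h1 h2 =>
    obtain ⟨c1, h1⟩ := h1
    obtain ⟨c2, h2⟩ := h2
    refine ⟨c1 + c2, ?_⟩
    have := T.add_mem h1 h2
    convert this using 1
    rw [map_add]
    have e : (⟨x + y, add_mem hx hy⟩ : Algebra.adjoin K W) = ⟨x, hx⟩ + ⟨y, hy⟩ := rfl
    rw [e]
    ring
  | mul x y hx hy h1 h2 =>
    obtain ⟨c1, h1⟩ := h1
    obtain ⟨c2, h2⟩ := h2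
    refine ⟨c1 * c2, ?_⟩
    have := T.add_mem (T.mul_mem_left ⟨x, hx⟩ h2) (T.mul_mem_left (algebraMap K (Algebra.adjoin K W) c2) h1)
    convert this using 1
    rw [map_mul]
    have e : (⟨x * y, mul_mem hx hy⟩ : Algebra.adjoin K W) = ⟨x, hx⟩ * ⟨y, hy⟩ := rfl
    rw [e]
    ring

theorem descend [IsDomain D] (W : Finset D) (hW : Algebra.adjoin Ω (W : Set D) = ⊤)
    (MD : Ideal D) [hMD : MD.IsPrime]
    (hM : ∀ a : D, ∃ c : Ω, a - algebraMap Ω D c ∈ MD) (f : D) (d : ℕ) (t : Fin d → D) (b : Fin d → Ω)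
    (G : MvPolynomial (Fin d) Ω)
    (h1 : AlgebraicIndependent Ω t)
    (h2 : ∀ a : D, IsIntegral (Algebra.adjoin Ω (Set.range t)) a)
    (h3 : ∀ i, t i ∈ MD) (h4 : MD ≤ Ideal.span (Set.range t) ⊔ MD ^ 2)
    (h5 : ∀ q : Ideal D, q.IsPrime → f ∈ q → (∀ i, t i ∈ q) → MD ≤ q)
    (h6 : MvPolynomial.eval b G ≠ 0)
    (h7 : MvPolynomial.aeval t G ∈ Ideal.span {f}) :
    ∀ᶠ s : Finset Ω in atTop, ∃ (hf : f ∈ Algebra.adjoin (F k s) (W : Set D))
      (t' : Fin d → Algebra.adjoin (F k s) (W : Set D)) (b' : Fin d → F k s) (G' : MvPolynomial (Fin d) (F k s)),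
      (∀ a : Algebra.adjoin (F k s) (W : Set D), ∃ c : F k s, a - algebraMap _ _ c ∈
        MD.comap (algebraMap (Algebra.adjoin (F k s) (W : Set D)) D)) ∧
      AlgebraicIndependent (F k s) t' ∧
      (∀ a : Algebra.adjoin (F k s) (W : Set D), IsIntegral (Algebra.adjoin (F k s) (Set.range t')) a) ∧
      (∀ i, t' i ∈ MD.comap (algebraMap (Algebra.adjoin (F k s) (W : Set D)) D)) ∧
      MD.comap (algebraMap (Algebra.adjoin (F k s) (W : Set D)) D) ≤
        Ideal.span (Set.range t') ⊔ (MD.comap (algebraMap (Algebra.adjoin (F k s) (W : Set D)) D)) ^ 2 ∧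
      (∀ q : Ideal (Algebra.adjoin (F k s) (W : Set D)), q.IsPrime → (⟨f, hf⟩ : Algebra.adjoin (F k s) (W : Set D)) ∈ q →
        (∀ i, t' i ∈ q) → MD.comap (algebraMap (Algebra.adjoin (F k s) (W : Set D)) D) ≤ q) ∧
      MvPolynomial.eval b' G' ≠ 0 ∧
      MvPolynomial.aeval t' G' ∈ Ideal.span {(⟨f, hf⟩ : Algebra.adjoin (F k s) (W : Set D))} := by
  have ev : ∀ x : D, ∀ᶠ s : Finset Ω in atTop, x ∈ Algebra.adjoin (F k s) (W : Set D) :=
    fun x => ev_adjoin (k := k) (W : Set D) x (hW ▸ trivial)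
  choose c hc using hM
  have e1 := ev f
  have e2 : ∀ᶠ s : Finset Ω in atTop, ∀ i, t i ∈ Algebra.adjoin (F k s) (W : Set D) :=
    Filter.eventually_all.mpr fun i => ev (t i)
  have e3 : ∀ᶠ s : Finset Ω in atTop, ∀ w ∈ W, c w ∈ F k s :=
    (Filter.eventually_all_finset W).mpr fun w _ => ev_F (k := k) (c w)
  have e4 : ∀ᶠ s : Finset Ω in atTop, ∀ w ∈ W, ∃ P : Polynomial D, P.Monic ∧
      (∀ n, P.coeff n ∈ Algebra.adjoin (F k s) (Set.range t)) ∧ P.eval w = 0 := by
    refine (Filter.eventually_all_finset W).mpr fun w _ => ?_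
    obtain ⟨p, hp, hp'⟩ := h2 w
    have h : ∀ᶠ s : Finset Ω in atTop, ∀ n ∈ (p.map (algebraMap (Algebra.adjoin Ω (Set.range t)) D)).support,
        (p.map (algebraMap (Algebra.adjoin Ω (Set.range t)) D)).coeff n ∈ Algebra.adjoin (F k s) (Set.range t) := by
      refine (Filter.eventually_all_finset _).mpr fun n _ => ev_adjoin _ _ ?_
      rw [Polynomial.coeff_map]
      exact (p.coeff n).2
    filter_upwards [h] with s hs
    refine ⟨p.map (algebraMap (Algebra.adjoin Ω (Set.range t)) D), hp.map _, ?_, ?_⟩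
    · intro n
      by_cases hn : n ∈ (p.map (algebraMap (Algebra.adjoin Ω (Set.range t)) D)).support
      · exact hs n hn
      · rw [Polynomial.notMem_support_iff.mp hn]
        exact zero_mem _
    · rw [Polynomial.eval_map]
      exact hp'
  have e5 : ∀ᶠ s : Finset Ω in atTop, ∀ w ∈ W, ∃ hy : w - algebraMap Ω D (c w) ∈ Algebra.adjoin (F k s) (W : Set D),
      (⟨_, hy⟩ : Algebra.adjoin (F k s) (W : Set D)) ∈
        Ideal.span ((algebraMap (Algebra.adjoin (F k s) (W : Set D)) D) ⁻¹' (Set.range t)) ⊔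
          (MD.comap (algebraMap (Algebra.adjoin (F k s) (W : Set D)) D)) ^ 2 := by
    refine (Filter.eventually_all_finset W).mpr fun w _ => ?_
    have h : Ideal.span (Set.range t) ⊔ MD ^ 2 ≤ limIdeal (W : Set D) hW (fun s : Finset Ω =>
        Ideal.span ((algebraMap (Algebra.adjoin (F k s) (W : Set D)) D) ⁻¹' (Set.range t)) ⊔
          (MD.comap (algebraMap (Algebra.adjoin (F k s) (W : Set D)) D)) ^ 2) := by
      refine sup_le ?_ ?_
      · rw [Ideal.span_le]
        intro x hx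
        change _ ∈ limIdeal (W : Set D) hW _
        rw [mem_limIdeal]
        filter_upwards [ev x] with s hs
        exact ⟨hs, Ideal.mem_sup_left (Ideal.subset_span hx)⟩
      · rw [pow_two, Ideal.mul_le]
        intro x hx y hy
        rw [mem_limIdeal]
        filter_upwards [ev x, ev y] with s hx' hy'
        refine ⟨mul_mem hx' hy', Ideal.mem_sup_right ?_⟩
        rw [pow_two]
        exact Ideal.mul_mem_mul (Ideal.mem_comap.mpr hx : (⟨x, hx'⟩ : Algebra.adjoin (F k s) (W : Set D)) ∈ _)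
          (Ideal.mem_comap.mpr hy : (⟨y, hy'⟩ : Algebra.adjoin (F k s) (W : Set D)) ∈ _)
    exact h (h4 (hc w))
  have e6 : ∀ᶠ s : Finset Ω in atTop, ∀ w ∈ W, ∃ (n : ℕ) (hy : (w - algebraMap Ω D (c w)) ^ n ∈ Algebra.adjoin (F k s) (W : Set D)),
      (⟨_, hy⟩ : Algebra.adjoin (F k s) (W : Set D)) ∈
        Ideal.span ((algebraMap (Algebra.adjoin (F k s) (W : Set D)) D) ⁻¹' ({f} ∪ Set.range t)) := by
    refine (Filter.eventually_all_finset W).mpr fun w _ => ?_
    have h : w - algebraMap Ω D (c w) ∈ (Ideal.span ({f} ∪ Set.range t)).radical := by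
      rw [Ideal.radical_eq_sInf, Submodule.mem_sInf]
      rintro q ⟨hq, hqp⟩
      exact h5 q hqp (hq (Ideal.subset_span (Or.inl rfl))) (fun i => hq (Ideal.subset_span (Or.inr ⟨i, rfl⟩))) (hc w)
    obtain ⟨n, hn⟩ := h
    filter_upwards [ev_span (k := k) (W : Set D) hW _ _ hn] with s hs
    exact ⟨n, hs⟩
  have e7 : ∀ᶠ s : Finset Ω in atTop, ∀ i, b i ∈ F k s :=
    Filter.eventually_all.mpr fun i => ev_F (k := k) (b i)
  have e8 : ∀ᶠ s : Finset Ω in atTop, ∀ m ∈ G.support, G.coeff m ∈ F k s :=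
    (Filter.eventually_all_finset _).mpr fun m _ => ev_F (k := k) _
  have e9 := ev_span (k := k) (W : Set D) hW _ _ h7
  filter_upwards [e1, e2, e3, e4, e5, e6, e7, e8, e9] with s e1 e2 e3 e4 e5 e6 e7 e8 e9
  have hG : ∃ G' : MvPolynomial (Fin d) (F k s), MvPolynomial.map (algebraMap (F k s) Ω) G' = G := by
    have : G ∈ Set.range (MvPolynomial.map (algebraMap (F k s) Ω)) := by
      rw [MvPolynomial.mem_range_map_iff_coeffs_subset]
      classical
      intro x hx
      rw [MvPolynomial.coeffs, Finset.coe_image] at hx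
      obtain ⟨m, hm, rfl⟩ := hx
      exact ⟨⟨_, e8 m hm⟩, rfl⟩
    exact this
  obtain ⟨G', hG'⟩ := hG
  have hinjS : Function.Injective (algebraMap (Algebra.adjoin (F k s) (W : Set D)) D) := Subtype.val_injective
  obtain ⟨M', hM'⟩ : ∃ M', M' = MD.comap (algebraMap (Algebra.adjoin (F k s) (W : Set D)) D) := ⟨_, rfl⟩
  rw [← hM'] at e5
  have hM'p : M'.IsPrime := by rw [hM']; exact Ideal.comap_isPrime _ _
  obtain ⟨t', ht'⟩ : ∃ t' : Fin d → Algebra.adjoin (F k s) (W : Set D), t' = fun i => ⟨t i, e2 i⟩ := ⟨_, rfl⟩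
  have ht'c : (Algebra.adjoin (F k s) (W : Set D)).val ∘ t' = t := by
    rw [ht']; rfl
  obtain ⟨b', hb'⟩ : ∃ b' : Fin d → F k s, b' = fun i => ⟨b i, e7 i⟩ := ⟨_, rfl⟩
  have hpre1 : (algebraMap (Algebra.adjoin (F k s) (W : Set D)) D) ⁻¹' (Set.range t) = Set.range t' := by
    rw [ht']; exact preimage_range _ t e2
  have hpre2 := preimage_singleton (Algebra.adjoin (F k s) (W : Set D)) f e1
  -- the constants
  obtain ⟨c', hc'⟩ : ∃ c' : D → F k s, ∀ w ∈ W, (c' w : Ω) = c w := by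
    classical
    exact ⟨fun w => if h : c w ∈ F k s then ⟨c w, h⟩ else 0, fun w hw => by simp [e3 w hw]⟩
  have hz : ∀ w (hw : w ∈ W), algebraMap (Algebra.adjoin (F k s) (W : Set D)) D
      ((⟨w, Algebra.subset_adjoin hw⟩ : Algebra.adjoin (F k s) (W : Set D)) - algebraMap _ _ (c' w)) =
      w - algebraMap Ω D (c w) := by
    intro w hw
    rw [map_sub, ← IsScalarTower.algebraMap_apply, IsScalarTower.algebraMap_apply (F k s) Ω D]
    congr 2
    exact hc' w hw
  obtain ⟨Z, hZ⟩ : ∃ Z : Ideal (Algebra.adjoin (F k s) (W : Set D)), Z = Ideal.span {z | ∃ w, ∃ hw : w ∈ W, z =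
      (⟨w, Algebra.subset_adjoin hw⟩ : Algebra.adjoin (F k s) (W : Set D)) - algebraMap _ _ (c' w)} := ⟨_, rfl⟩
  have hZM : Z ≤ M' := by
    rw [hZ, Ideal.span_le]
    rintro _ ⟨w, hw, rfl⟩
    rw [hM']
    change algebraMap _ D _ ∈ MD
    rw [hz w hw]
    exact hc w
  have hconstZ : ∀ a : Algebra.adjoin (F k s) (W : Set D), ∃ c : F k s, a - algebraMap _ _ c ∈ Z := by
    refine const_mod (W : Set D) c' Z ?_
    intro w hw
    rw [hZ]
    exact Ideal.subset_span ⟨w, hw, rfl⟩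
  have hMZ : M' ≤ Z := by
    intro a ha
    obtain ⟨r, hr⟩ := hconstZ a
    by_cases h0 : r = 0
    · rw [h0, map_zero, sub_zero] at hr
      exact hr
    · exfalso
      have h1 : algebraMap (F k s) (Algebra.adjoin (F k s) (W : Set D)) r ∈ M' := by
        have := M'.sub_mem ha (hZM hr)
        rwa [sub_sub_cancel] at this
      have h2 : (1 : Algebra.adjoin (F k s) (W : Set D)) ∈ M' := by
        have := M'.mul_mem_left (algebraMap (F k s) (Algebra.adjoin (F k s) (W : Set D)) r⁻¹) h1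
        rwa [← map_mul, inv_mul_cancel₀ h0, map_one] at this
      exact hM'p.ne_top ((Ideal.eq_top_iff_one _).mpr h2)
  refine ⟨e1, t', b', G', ?_, ?_, ?_, ?_, ?_, ?_, ?_, ?_⟩
  · intro a
    obtain ⟨r, hr⟩ := hconstZ a
    exact ⟨r, hM' ▸ hZM hr⟩
  · have h1' : AlgebraicIndependent (F k s) t :=
      h1.restrictScalars (FaithfulSMul.algebraMap_injective (F k s) Ω)
    rw [← ht'c] at h1'
    exact AlgebraicIndependent.of_comp _ h1'
  · -- integrality
    have hgen : ∀ w (hw : w ∈ W), IsIntegral (Algebra.adjoin (F k s) (Set.range t'))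
        (⟨w, Algebra.subset_adjoin hw⟩ : Algebra.adjoin (F k s) (W : Set D)) := by
      intro w hw
      obtain ⟨P, hP, hPc, hPe⟩ := e4 w hw
      refine int_desc (Algebra.adjoin (F k s) (W : Set D)).val Subtype.val_injective _ P hP ?_ _ hPe
      intro n
      have := hPc n
      rwa [← ht'c, Set.range_comp] at this
    intro a
    obtain ⟨a, ha⟩ := a
    induction ha using Algebra.adjoin_induction with
    | mem x hx => exact hgen x hx
    | algebraMap r =>
      exact isIntegral_algebraMap (R := Algebra.adjoin (F k s) (Set.range t')) (x := algebraMap (F k s) _ r)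
    | add x y hx hy h1 h2 => exact h1.add h2
    | mul x y hx hy h1 h2 => exact h1.mul h2
  · intro i
    rw [ht']
    exact h3 i
  · rw [← hM']
    refine hMZ.trans ?_
    rw [hZ, Ideal.span_le]
    rintro _ ⟨w, hw, rfl⟩
    obtain ⟨hy, hy'⟩ := e5 w hw
    rw [hpre1] at hy'
    have he := hinjS ((hz w hw).trans (rfl : _ = algebraMap (Algebra.adjoin (F k s) (W : Set D)) D ⟨_, hy⟩))
    rw [he]
    exact hy'
  · intro q hq hfq htq
    rw [← hM']
    refine hMZ.trans ?_
    rw [hZ, Ideal.span_le]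
    rintro _ ⟨w, hw, rfl⟩
    obtain ⟨n, hy, hy'⟩ := e6 w hw
    rw [Set.preimage_union, hpre1, hpre2] at hy'
    have h1' : (⟨_, hy⟩ : Algebra.adjoin (F k s) (W : Set D)) ∈ q := by
      refine (Ideal.span_le.mpr ?_) hy'
      rintro x (hx | ⟨i, rfl⟩)
      · rw [Set.mem_singleton_iff.mp hx]; exact hfq
      · exact htq i
    refine hq.mem_of_pow_mem n ?_
    convert h1' using 1
    apply hinjS
    rw [map_pow, hz w hw]
    rfl
  · intro h0
    apply h6
    rw [← hG']
    have hb'' : b = fun i => algebraMap (F k s) Ω (b' i) := by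
      rw [hb']; rfl
    rw [hb'', MvPolynomial.eval_map]
    have := congrArg (algebraMap (F k s) Ω) h0
    rw [map_zero] at this
    rw [← this, MvPolynomial.eval, MvPolynomial.coe_eval₂Hom, MvPolynomial.eval₂_comp_left]
    rfl
  · obtain ⟨hy, hy'⟩ := e9
    rw [hpre2] at hy'
    convert hy' using 1
    apply hinjS
    have h1 : algebraMap (Algebra.adjoin (F k s) (W : Set D)) D (MvPolynomial.aeval t' G') =
        MvPolynomial.aeval t G' := by
      have := MvPolynomial.aeval_algebraMap_apply D t' G'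
      rw [← this]
      congr 2
    rw [h1]
    change MvPolynomial.aeval t G' = MvPolynomial.aeval t G
    rw [← hG', MvPolynomial.aeval_def, MvPolynomial.aeval_def, MvPolynomial.eval₂_map]
    rfl

end descent



theorem etale_of_aux {k A D F : Type u} [Field k] [CommRing A] [Algebra k A]
    [CommRing D] [Field F] [Algebra k F] [Algebra F D]
    (φ : A →+* D)
    (ψ : A ⊗[k] F →+* D) (hψ1 : ∀ c : F, ψ (1 ⊗ₜ c) = algebraMap F D c) (hψ2 : ∀ a : A, ψ (a ⊗ₜ 1) = φ a)
    (gF : A ⊗[k] F) (ginv : D) (h : ψ gF * ginv = 1) (hker : ∀ x, ψ x = 0 → ∃ n : ℕ, gF ^ n * x = 0)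
    (W : Set D) (hWA : ∀ a : A, φ a ∈ Algebra.adjoin F W) (hinv : ginv ∈ Algebra.adjoin F W)
    (hWle : ∀ w ∈ W, w = ginv ∨ ∃ a, w = φ a)
    [Algebra A (Algebra.adjoin F W)]
    (hAlg : ∀ a : A, ((algebraMap A (Algebra.adjoin F W) a : Algebra.adjoin F W) : D) = φ a)
    (L : Type u) [CommRing L] [Algebra (A ⊗[k] F) L] [Algebra A L] [IsScalarTower A (A ⊗[k] F) L]
    [IsLocalization.Away gF L] [Algebra.Etale A L] :
    Algebra.Etale A (Algebra.adjoin F W) := by
  have hunit : IsUnit (ψ gF) := IsUnit.of_mul_eq_one _ h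
  let Λ : L →+* D := IsLocalization.Away.lift gF hunit
  have hΛ : ∀ x : A ⊗[k] F, Λ (algebraMap (A ⊗[k] F) (L) x) = ψ x := fun x => IsLocalization.Away.lift_eq gF hunit x
  have hΛg : ∀ n : ℕ, (ψ gF) ^ n * ginv ^ n = 1 := by
    intro n
    rw [← mul_pow, h, one_pow]
  have hsurj : ∀ y : L, ∃ (n : ℕ) (x : A ⊗[k] F), y * algebraMap (A ⊗[k] F) (L) (gF ^ n) = algebraMap (A ⊗[k] F) (L) x :=
    fun y => by
      obtain ⟨n, x, hx⟩ := IsLocalization.Away.surj gF y
      exact ⟨n, x, by rw [map_pow]; exact hx⟩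
  have hΛform : ∀ y : L, ∃ (n : ℕ) (x : A ⊗[k] F), Λ y = ψ x * ginv ^ n := by
    intro y
    obtain ⟨n, x, hx⟩ := hsurj y
    refine ⟨n, x, ?_⟩
    have := congrArg Λ hx
    rw [map_mul, hΛ, hΛ, map_pow] at this
    rw [← this, mul_assoc, hΛg, mul_one]
  have hinj : Function.Injective Λ := by
    rw [injective_iff_map_eq_zero]
    intro y hy
    obtain ⟨n, x, hx⟩ := hsurj y
    have h1 := congrArg Λ hx
    rw [map_mul, hy, zero_mul, hΛ] at h1
    obtain ⟨m, hm⟩ := hker x h1.symm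
    have h2 : algebraMap (A ⊗[k] F) (L) (gF ^ m * x) = 0 := by rw [hm, map_zero]
    rw [map_mul, ← hx] at h2
    have h3 : ∀ m : ℕ, IsUnit (algebraMap (A ⊗[k] F) (L) (gF ^ m)) := by
      intro m
      rw [map_pow]
      exact (IsLocalization.Away.algebraMap_isUnit gF).pow m
    have h4 := (h3 m).mul_right_eq_zero.mp h2
    exact (h3 n).mul_left_eq_zero.mp h4
  have hψS : ∀ x, ψ x ∈ Algebra.adjoin F W := by
    intro x
    induction x with
    | zero => rw [map_zero]; exact zero_mem _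
    | tmul a c =>
      have : a ⊗ₜ[k] c = (a ⊗ₜ[k] (1 : F)) * ((1 : A) ⊗ₜ[k] c) := by simp
      rw [this, map_mul, hψ1, hψ2]
      exact mul_mem (hWA a) (Subalgebra.algebraMap_mem _ _)
    | add x y hx hy => rw [map_add]; exact add_mem hx hy
  have hΛS : ∀ y, Λ y ∈ Algebra.adjoin F W := by
    intro y
    obtain ⟨n, x, hx⟩ := hΛform y
    rw [hx]
    exact mul_mem (hψS x) (pow_mem hinv n)
  have hSΛ : ∀ z ∈ Algebra.adjoin F W, z ∈ Λ.range := by
    intro z hz
    induction hz using Algebra.adjoin_induction with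
    | mem w hw =>
      rcases hWle w hw with rfl | ⟨a, rfl⟩
      · refine ⟨IsLocalization.Away.invSelf gF, ?_⟩
        have h1 : algebraMap (A ⊗[k] F) (L) gF * IsLocalization.Away.invSelf gF = 1 :=
          IsLocalization.Away.mul_invSelf gF
        have h2 := congrArg Λ h1
        rw [map_mul, map_one, hΛ] at h2
        calc Λ (IsLocalization.Away.invSelf gF) = (ψ gF * w) * Λ (IsLocalization.Away.invSelf gF) := by rw [h, one_mul]
          _ = w * (ψ gF * Λ (IsLocalization.Away.invSelf gF)) := by ring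
          _ = w := by rw [h2, mul_one]
      · exact ⟨algebraMap (A ⊗[k] F) (L) (a ⊗ₜ 1), by rw [hΛ, hψ2]⟩
    | algebraMap r => exact ⟨algebraMap (A ⊗[k] F) (L) (1 ⊗ₜ r), by rw [hΛ, hψ1]⟩
    | add x y _ _ h1 h2 => exact add_mem h1 h2
    | mul x y _ _ h1 h2 => exact mul_mem h1 h2
  let Λ' : L →+* Algebra.adjoin F W := Λ.codRestrict (Algebra.adjoin F W) hΛS
  let Λ'' : L →ₐ[A] Algebra.adjoin F W :=
    { Λ' with
      commutes' := by
        intro a
        apply Subtype.ext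
        change Λ (algebraMap A _ a) = _
        rw [hAlg, IsScalarTower.algebraMap_apply A (A ⊗[k] F) (L), hΛ,
          Algebra.TensorProduct.algebraMap_apply]
        exact hψ2 a }
  have hbij : Function.Bijective Λ'' := by
    constructor
    · intro x y hxy
      exact hinj (congrArg Subtype.val hxy)
    · rintro ⟨z, hz⟩
      obtain ⟨y, hy⟩ := hSΛ z hz
      exact ⟨y, Subtype.ext hy⟩
  exact Algebra.Etale.of_equiv (AlgEquiv.ofBijective Λ'' hbij)

theorem etale_of {k A D F : Type u} [Field k] [CommRing A] [Algebra k A]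
    [CommRing D] [Field F] [Algebra k F] [Algebra F D] [FiniteDimensional k F] [Algebra.IsSeparable k F]
    (φ : A →+* D)
    (ψ : A ⊗[k] F →+* D) (hψ1 : ∀ c : F, ψ (1 ⊗ₜ c) = algebraMap F D c) (hψ2 : ∀ a : A, ψ (a ⊗ₜ 1) = φ a)
    (gF : A ⊗[k] F) (ginv : D) (h : ψ gF * ginv = 1) (hker : ∀ x, ψ x = 0 → ∃ n : ℕ, gF ^ n * x = 0)
    (W : Set D) (hWA : ∀ a : A, φ a ∈ Algebra.adjoin F W) (hinv : ginv ∈ Algebra.adjoin F W)
    (hWle : ∀ w ∈ W, w = ginv ∨ ∃ a, w = φ a)
    [Algebra A (Algebra.adjoin F W)]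
    (hAlg : ∀ a : A, ((algebraMap A (Algebra.adjoin F W) a : Algebra.adjoin F W) : D) = φ a) :
    Algebra.Etale A (Algebra.adjoin F W) := by
  have : Algebra.FormallyEtale k F := Algebra.FormallyEtale.of_isSeparable k F
  have hFP : Algebra.FinitePresentation k F := Algebra.FinitePresentation.of_finiteType.mp inferInstance
  have : Algebra.Etale k F := ⟨inferInstance, inferInstance⟩
  have hE1 : Algebra.Etale A (A ⊗[k] F) := inferInstance
  have hE2 : Algebra.Etale A (Localization.Away gF) := inferInstance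
  exact etale_of_aux φ ψ hψ1 hψ2 gF ginv h hker W hWA hinv hWle hAlg (Localization.Away gF)




section assembly

/-- elements of `A` map into the algebra generated by the images of generators -/
theorem img_mem {k A D K : Type u} [Field k] [CommRing A] [Algebra k A] [CommRing D] [CommRing K] [Algebra K D]
    (φ : A →+* D) (hk : ∀ c : k, ∃ r : K, φ (algebraMap k A c) = algebraMap K D r)
    (Z : Set A) (hZ : Algebra.adjoin k Z = ⊤) (W : Set D) (hW : ∀ z ∈ Z, φ z ∈ W) (a : A) :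
    φ a ∈ Algebra.adjoin K W := by
  have ha : a ∈ Algebra.adjoin k Z := hZ ▸ trivial
  induction ha using Algebra.adjoin_induction with
  | mem x hx => exact Algebra.subset_adjoin (hW x hx)
  | algebraMap c =>
    obtain ⟨r, hr⟩ := hk c
    rw [hr]
    exact Subalgebra.algebraMap_mem _ _
  | add x y _ _ h1 h2 => rw [map_add]; exact add_mem h1 h2
  | mul x y _ _ h1 h2 => rw [map_mul]; exact mul_mem h1 h2

/-- the map `A ⊗ F → Ω ⊗ A` -/
noncomputable def rho (k : Type u) (Ω A : Type u) [Field k] [Field Ω] [Algebra k Ω] [CommRing A] [Algebra k A]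
    (s : Finset Ω) : A ⊗[k] (F k s) →+* Ω ⊗[k] A :=
  ((Algebra.TensorProduct.comm k A Ω).toAlgHom.comp
    (Algebra.TensorProduct.map (AlgHom.id k A) (F k s).val)).toRingHom

theorem rho_tmul {k Ω A : Type u} [Field k] [Field Ω] [Algebra k Ω] [CommRing A] [Algebra k A]
    (s : Finset Ω) (a : A) (c : F k s) : rho k Ω A s (a ⊗ₜ c) = (c : Ω) ⊗ₜ[k] a := by
  simp [rho]

theorem rho_injective {k Ω A : Type u} [Field k] [Field Ω] [Algebra k Ω] [CommRing A] [Algebra k A]
    (s : Finset Ω) : Function.Injective (rho k Ω A s) := by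
  have h1 : Function.Injective (LinearMap.lTensor A (F k s).val.toLinearMap) :=
    Module.Flat.lTensor_preserves_injective_linearMap (M := A) _ (by
      intro x y h
      exact Subtype.ext h)
  have h2 : Function.Injective (Algebra.TensorProduct.comm k A Ω) := (Algebra.TensorProduct.comm k A Ω).injective
  exact h2.comp h1

theorem ev_rho {k Ω A : Type u} [Field k] [Field Ω] [Algebra k Ω] [CommRing A] [Algebra k A]
    (g : Ω ⊗[k] A) : ∀ᶠ s : Finset Ω in atTop, ∃ x, rho k Ω A s x = g := by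
  induction g with
  | zero => exact Eventually.of_forall fun s => ⟨0, map_zero _⟩
  | tmul c a =>
    filter_upwards [ev_F (k := k) c] with s hs
    exact ⟨a ⊗ₜ ⟨c, hs⟩, rho_tmul s a ⟨c, hs⟩⟩
  | add x y h1 h2 =>
    filter_upwards [h1, h2] with s h1 h2
    obtain ⟨x', hx⟩ := h1
    obtain ⟨y', hy⟩ := h2
    exact ⟨x' + y', by rw [map_add, hx, hy]⟩

theorem assemble {k Ω A D : Type u} [Field k] [PerfectField k] [Field Ω] [Algebra k Ω] [Algebra.IsAlgebraic k Ω]
    [CommRing A] [Algebra k A] [hft : Algebra.FiniteType k A] (M : Ideal A) (f : A)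
    (χ0 : A →ₐ[k] Ω) (hχ0 : ∀ a, χ0 a = 0 ↔ a ∈ M)
    (χ : Ω ⊗[k] A →ₐ[Ω] Ω) (hχ : ∀ a, χ (1 ⊗ₜ a) = χ0 a)
    (g : Ω ⊗[k] A) (hg : χ g ≠ 0)
    [CommRing D] [IsDomain D] [Algebra (Ω ⊗[k] A) D] [Algebra Ω D] [IsScalarTower Ω (Ω ⊗[k] A) D]
    [IsLocalization.Away g D]
    (d : ℕ) (t : Fin d → D) (b : Fin d → Ω) (G : MvPolynomial (Fin d) Ω)
    (h1 : AlgebraicIndependent Ω t)
    (h2 : ∀ a : D, IsIntegral (Algebra.adjoin Ω (Set.range t)) a)
    (h3 : ∀ i, t i ∈ (RingHom.ker χ).map (algebraMap (Ω ⊗[k] A) D))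
    (h4 : (RingHom.ker χ).map (algebraMap (Ω ⊗[k] A) D) ≤ Ideal.span (Set.range t) ⊔
      ((RingHom.ker χ).map (algebraMap (Ω ⊗[k] A) D)) ^ 2)
    (h5 : ∀ q : Ideal D, q.IsPrime → algebraMap (Ω ⊗[k] A) D (1 ⊗ₜ f) ∈ q → (∀ i, t i ∈ q) →
      (RingHom.ker χ).map (algebraMap (Ω ⊗[k] A) D) ≤ q)
    (h6 : MvPolynomial.eval b G ≠ 0)
    (h7 : MvPolynomial.aeval t G ∈ Ideal.span {algebraMap (Ω ⊗[k] A) D (1 ⊗ₜ f)}) :
    ∃ (K : Type u) (_ : Field K) (_ : Algebra k K) (_ : FiniteDimensional k K)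
      (A' : Type u) (_ : CommRing A') (_ : IsDomain A') (_ : Algebra A A')
      (_ : Algebra.Etale A A') (_ : Algebra K A') (M' : Ideal A') (_ : M'.IsPrime)
      (d : ℕ) (t : Fin d → A') (b : Fin d → K) (G : MvPolynomial (Fin d) K),
      (∀ c : k, algebraMap K A' (algebraMap k K c) = algebraMap A A' (algebraMap k A c)) ∧
      M'.comap (algebraMap A A') = M ∧
      (∀ a : A', ∃ c : K, a - algebraMap K A' c ∈ M') ∧
      AlgebraicIndependent K t ∧
      (∀ a : A', IsIntegral (Algebra.adjoin K (Set.range t)) a) ∧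
      (∀ i, t i ∈ M') ∧ M' ≤ Ideal.span (Set.range t) ⊔ M' ^ 2 ∧
      (∀ q : Ideal A', q.IsPrime → algebraMap A A' f ∈ q → (∀ i, t i ∈ q) → M' ≤ q) ∧
      MvPolynomial.eval b G ≠ 0 ∧
      MvPolynomial.aeval t G ∈ Ideal.span {algebraMap A A' f} := by
  classical
  obtain ⟨φ, hφ⟩ : ∃ φ : A →+* D, ∀ a, φ a = algebraMap (Ω ⊗[k] A) D (1 ⊗ₜ a) :=
    ⟨(algebraMap (Ω ⊗[k] A) D).comp (Algebra.TensorProduct.includeRight : A →ₐ[k] Ω ⊗[k] A).toRingHom, fun a => rfl⟩
  obtain ⟨ginv, hginv⟩ : ∃ ginv : D, algebraMap (Ω ⊗[k] A) D g * ginv = 1 :=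
    ⟨IsLocalization.Away.invSelf g, IsLocalization.Away.mul_invSelf g⟩
  obtain ⟨MD, hMD⟩ : ∃ MD, MD = (RingHom.ker χ).map (algebraMap (Ω ⊗[k] A) D) := ⟨_, rfl⟩
  rw [← hMD] at h3 h4 h5
  rw [← hφ] at h5 h7
  have hdisj : Disjoint (Submonoid.powers g : Set (Ω ⊗[k] A)) (RingHom.ker χ : Set (Ω ⊗[k] A)) := by
    rw [Set.disjoint_left]
    rintro _ ⟨n, rfl⟩ hn
    have h0 : χ (g ^ n) = 0 := hn
    rw [map_pow] at h0
    exact pow_ne_zero n hg h0
  have hkerp : (RingHom.ker χ).IsPrime := RingHom.ker_isPrime _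
  have hMDp : MD.IsPrime := by
    rw [hMD]
    exact IsLocalization.isPrime_of_isPrime_disjoint (Submonoid.powers g) D _ hkerp hdisj
  have hcomap : MD.comap (algebraMap (Ω ⊗[k] A) D) = RingHom.ker χ := by
    rw [hMD]
    exact IsLocalization.under_map_of_isPrime_disjoint (Submonoid.powers g) D hkerp hdisj
  have hMDmem : ∀ x, algebraMap (Ω ⊗[k] A) D x ∈ MD ↔ χ x = 0 := by
    intro x
    rw [← Ideal.mem_comap, hcomap, RingHom.mem_ker]
  have hsurj : ∀ y : D, ∃ (n : ℕ) (x : Ω ⊗[k] A), y * algebraMap (Ω ⊗[k] A) D g ^ n = algebraMap (Ω ⊗[k] A) D x :=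
    fun y => IsLocalization.Away.surj g y
  have hginvn : ∀ n : ℕ, algebraMap (Ω ⊗[k] A) D g ^ n * ginv ^ n = 1 := by
    intro n; rw [← mul_pow, hginv, one_pow]
  have hM : ∀ a : D, ∃ c : Ω, a - algebraMap Ω D c ∈ MD := by
    intro y
    obtain ⟨n, x, hx⟩ := hsurj y
    refine ⟨χ x * (χ g ^ n)⁻¹, ?_⟩
    have h1 : algebraMap (Ω ⊗[k] A) D g ^ n * (y - algebraMap Ω D (χ x * (χ g ^ n)⁻¹)) ∈ MD := by
      have e : ∀ r : Ω, algebraMap (Ω ⊗[k] A) D g ^ n * (y - algebraMap Ω D r) =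
          algebraMap (Ω ⊗[k] A) D (x - g ^ n * algebraMap Ω (Ω ⊗[k] A) r) := by
        intro r
        rw [mul_sub, mul_comm _ y, hx, map_sub, map_mul, map_pow, ← IsScalarTower.algebraMap_apply]
      rw [e, hMDmem, map_sub, map_mul, map_pow, AlgHom.commutes]
      simp only [Algebra.algebraMap_self, RingHom.id_apply]
      have : χ g ^ n ≠ 0 := pow_ne_zero _ hg
      field_simp
      ring
    refine (hMDp.mem_or_mem h1).resolve_left ?_
    intro h2
    have h3 := MD.mul_mem_right (ginv ^ n) h2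
    rw [hginvn] at h3
    exact hMDp.ne_top ((Ideal.eq_top_iff_one _).mpr h3)
  obtain ⟨Z, hZ⟩ : ∃ Z : Finset A, Algebra.adjoin k (Z : Set A) = ⊤ := hft.out
  obtain ⟨W, hW⟩ : ∃ W : Finset D, W = Z.image φ ∪ {ginv} := ⟨_, rfl⟩
  have hWg : ginv ∈ (W : Set D) := by rw [hW]; simp
  have hWZ : ∀ z ∈ (Z : Set A), φ z ∈ (W : Set D) := by
    intro z hz
    rw [hW]
    simp only [Finset.coe_union, Finset.coe_image, Finset.coe_singleton]
    exact Or.inl ⟨z, hz, rfl⟩
  have hkφ : ∀ c : k, φ (algebraMap k A c) = algebraMap Ω D (algebraMap k Ω c) := by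
    intro c
    rw [hφ, IsScalarTower.algebraMap_apply Ω (Ω ⊗[k] A) D]
    congr 1
    rw [Algebra.TensorProduct.algebraMap_apply, Algebra.algebraMap_self, RingHom.id_apply,
      Algebra.algebraMap_eq_smul_one, Algebra.algebraMap_eq_smul_one, TensorProduct.tmul_smul, TensorProduct.smul_tmul']
  have hWΩ : Algebra.adjoin Ω (W : Set D) = ⊤ := by
    rw [eq_top_iff]
    intro y _
    obtain ⟨n, x, hx⟩ := hsurj y
    have hx' : algebraMap (Ω ⊗[k] A) D x ∈ Algebra.adjoin Ω (W : Set D) := by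
      clear hx
      induction x with
      | zero => rw [map_zero]; exact zero_mem _
      | tmul c a =>
        have e : c ⊗ₜ[k] a = algebraMap Ω (Ω ⊗[k] A) c * (1 ⊗ₜ a) := by
          simp [Algebra.TensorProduct.algebraMap_apply]
        rw [e, map_mul, ← IsScalarTower.algebraMap_apply, ← hφ]
        exact mul_mem (Subalgebra.algebraMap_mem _ _)
          (img_mem φ (fun c => ⟨_, hkφ c⟩) (Z : Set A) hZ (W : Set D) hWZ a)
      | add x y h1 h2 => rw [map_add]; exact add_mem h1 h2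
    have e : y = algebraMap (Ω ⊗[k] A) D x * ginv ^ n := by
      rw [← hx, mul_assoc, hginvn, mul_one]
    rw [e]
    exact mul_mem hx' (pow_mem (Algebra.subset_adjoin hWg) n)
  have hd := descend (k := k) W hWΩ MD hM (φ f) d t b G h1 h2 h3 h4 h5 h6 h7
  obtain ⟨s, hs1, gF, hgF⟩ := (hd.and (ev_rho g)).exists
  obtain ⟨hf, t', b', G', c1, c2, c3, c4, c5, c6, c7, c8⟩ := hs1
  have hfd : FiniteDimensional k (F k s) :=
    IntermediateField.finiteDimensional_adjoin (fun x _ => Algebra.IsIntegral.isIntegral x)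
  have hsep : Algebra.IsSeparable k (F k s) := inferInstance
  have hWA : ∀ a : A, φ a ∈ Algebra.adjoin (F k s) (W : Set D) :=
    img_mem φ (fun c => ⟨algebraMap k (F k s) c, hkφ c⟩) (Z : Set A) hZ (W : Set D) hWZ
  let _ : Algebra A (Algebra.adjoin (F k s) (W : Set D)) :=
    (φ.codRestrict (Algebra.adjoin (F k s) (W : Set D)) hWA).toAlgebra
  have hAlg : ∀ a : A, ((algebraMap A (Algebra.adjoin (F k s) (W : Set D)) a :
      Algebra.adjoin (F k s) (W : Set D)) : D) = φ a := fun a => rfl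
  have hE : Algebra.Etale A (Algebra.adjoin (F k s) (W : Set D)) := by
    refine etale_of φ ((algebraMap (Ω ⊗[k] A) D).comp (rho k Ω A s)) ?_ ?_ gF ginv ?_ ?_ (W : Set D) hWA
      (Algebra.subset_adjoin hWg) ?_ hAlg
    · intro c
      have e : ((c : Ω) ⊗ₜ[k] (1 : A)) = algebraMap Ω (Ω ⊗[k] A) (c : Ω) := rfl
      rw [RingHom.comp_apply, rho_tmul, e, ← IsScalarTower.algebraMap_apply]
      rfl
    · intro a
      rw [RingHom.comp_apply, rho_tmul, hφ]
      rfl
    · rw [RingHom.comp_apply, hgF, hginv]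
    · intro x hx
      rw [RingHom.comp_apply] at hx
      obtain ⟨n, hn⟩ := IsLocalization.Away.exists_of_eq (S := D) g (hx.trans (map_zero (algebraMap (Ω ⊗[k] A) D)).symm)
      refine ⟨n, rho_injective s ?_⟩
      rw [map_mul, map_pow, hgF, hn, mul_zero, map_zero]
    · intro w hw
      rw [hW] at hw
      simp only [Finset.coe_union, Finset.coe_image, Finset.coe_singleton] at hw
      rcases hw with ⟨z, _, rfl⟩ | hw
      · exact Or.inr ⟨z, rfl⟩
      · exact Or.inl hw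
  refine ⟨F k s, inferInstance, inferInstance, hfd, Algebra.adjoin (F k s) (W : Set D), inferInstance, inferInstance,
    inferInstance, hE, inferInstance, MD.comap (algebraMap (Algebra.adjoin (F k s) (W : Set D)) D),
    Ideal.comap_isPrime _ _, d, t', b', G', ?_, ?_, c1, c2, c3, c4, c5, c6, c7, c8⟩
  · intro c
    apply Subtype.ext
    rw [hAlg, hkφ]
    rfl
  · ext a
    rw [Ideal.mem_comap, Ideal.mem_comap]
    change φ a ∈ MD ↔ _
    rw [hφ, hMDmem, hχ, hχ0]

end assembly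

end H694E2


theorem H694.fas {k A : Type u} [Field k] [PerfectField k] [CommRing A] [IsDomain A] [Algebra k A]
    [Algebra.Smooth k A] (M : Ideal A) [M.IsMaximal] (f : A) (hf : f ≠ 0) :
    ∃ (K : Type u) (_ : Field K) (_ : Algebra k K) (_ : FiniteDimensional k K)
      (A' : Type u) (_ : CommRing A') (_ : IsDomain A') (_ : Algebra A A')
      (_ : Algebra.Etale A A') (_ : Algebra K A') (M' : Ideal A') (_ : M'.IsPrime)
      (d : ℕ) (t : Fin d → A') (b : Fin d → K) (G : MvPolynomial (Fin d) K),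
      (∀ c : k, algebraMap K A' (algebraMap k K c) = algebraMap A A' (algebraMap k A c)) ∧
      M'.comap (algebraMap A A') = M ∧
      (∀ a : A', ∃ c : K, a - algebraMap K A' c ∈ M') ∧
      AlgebraicIndependent K t ∧
      (∀ a : A', IsIntegral (Algebra.adjoin K (Set.range t)) a) ∧
      (∀ i, t i ∈ M') ∧ M' ≤ Ideal.span (Set.range t) ⊔ M' ^ 2 ∧
      (∀ q : Ideal A', q.IsPrime → algebraMap A A' f ∈ q → (∀ i, t i ∈ q) → M' ≤ q) ∧
      MvPolynomial.eval b G ≠ 0 ∧
      MvPolynomial.aeval t G ∈ Ideal.span {algebraMap A A' f} := by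
  obtain ⟨Ω, _, _, _, _⟩ : ∃ (Ω : Type u) (_ : Field Ω) (_ : Algebra k Ω) (_ : IsAlgClosed Ω),
      Algebra.IsAlgebraic k Ω := ⟨AlgebraicClosure k, inferInstance, inferInstance, inferInstance, inferInstance⟩
  have hinf : Infinite Ω := IsAlgClosed.instInfinite
  have hft : Algebra.FiniteType k A := inferInstance
  let _ : Field (A ⧸ M) := Ideal.Quotient.field M
  have hfin : Module.Finite k (A ⧸ M) := finite_of_finite_type_of_isJacobsonRing k (A ⧸ M)
  have halg : Algebra.IsAlgebraic k (A ⧸ M) := Algebra.IsAlgebraic.of_finite k (A ⧸ M)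
  obtain ⟨χ0, hχ0⟩ : ∃ χ0 : A →ₐ[k] Ω, ∀ a, χ0 a = 0 ↔ a ∈ M := by
    obtain ⟨ι, hι⟩ : ∃ ι : (A ⧸ M) →ₐ[k] Ω, Function.Injective ι :=
      ⟨IsAlgClosed.lift, (IsAlgClosed.lift : (A ⧸ M) →ₐ[k] Ω).toRingHom.injective⟩
    refine ⟨ι.comp (Ideal.Quotient.mkₐ k M), ?_⟩
    intro a
    change ι (Ideal.Quotient.mk M a) = 0 ↔ _
    rw [map_eq_zero_iff ι hι, Ideal.Quotient.eq_zero_iff_mem]
  obtain ⟨χ, hχ⟩ : ∃ χ : Ω ⊗[k] A →ₐ[Ω] Ω, ∀ a, χ (1 ⊗ₜ a) = χ0 a := by
    refine ⟨Algebra.TensorProduct.lift (AlgHom.id Ω Ω) χ0 (fun _ _ => Commute.all _ _), ?_⟩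
    intro a
    simp
  have hχsurj : Function.Surjective χ := fun c => ⟨algebraMap _ _ c, χ.commutes c⟩
  have hMmax : (RingHom.ker χ).IsMaximal := RingHom.ker_isMaximal_of_surjective _ hχsurj
  have hML : ∀ a, ∃ c : Ω, a - algebraMap Ω _ c ∈ RingHom.ker χ := by
    intro a
    refine ⟨χ a, ?_⟩
    rw [RingHom.mem_ker, map_sub, AlgHom.commutes]
    exact sub_self _
  have hnz : (1 ⊗ₜ f : Ω ⊗[k] A) ∈ nonZeroDivisors (Ω ⊗[k] A) := by
    have hinj : Function.Injective (LinearMap.lTensor Ω (LinearMap.mulLeft k f)) :=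
      Module.Flat.lTensor_preserves_injective_linearMap (M := Ω) _ (mul_right_injective₀ hf)
    have hmul : ∀ x : Ω ⊗[k] A, LinearMap.lTensor Ω (LinearMap.mulLeft k f) x = (1 ⊗ₜ f : Ω ⊗[k] A) * x := by
      intro x
      induction x with
      | zero => simp
      | tmul a b => simp
      | add x y hx hy => rw [map_add, hx, hy, mul_add]
    rw [mem_nonZeroDivisors_iff_right]
    intro x hx
    apply hinj
    rw [hmul, map_zero, mul_comm, hx]
  obtain ⟨g, hg, d, t, b, G, hdom, h1, h2, h3, h4, h5, h6, h7⟩ := H694.fas_infinite (L := Ω) (RingHom.ker χ) hML (1 ⊗ₜ f) hnz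
  exact H694E2.assemble M f χ0 hχ0 χ hχ g hg d t b G h1 h2 h3 h4 h5 h6 h7
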