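import Mathlib

/-! # Galois closures -/

universe u

open Polynomial in
/-- A finite algebra has finitely many homomorphisms to a domain. -/
theorem H694.F_finite_algHom (P C N : Type*) [CommRing P] [CommRing C] [CommRing N]
    [IsDomain N] [Algebra P C] [Algebra P N] [Module.Finite P C] : Finite (C →ₐ[P] N) := by
  classical
  obtain ⟨S, hS⟩ := (Module.Finite.fg_top : (⊤ : Submodule P C).FG)
  have hint : ∀ c : C, ∃ p : P[X], p.Monic ∧ aeval c p = 0 := fun c =>
    (Algebra.IsIntegral.of_finite P C).isIntegral c
  choose p hp hp' using hint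
  have hmem : ∀ (s : C →ₐ[P] N) (c : C),
      s c ∈ ((p c).map (algebraMap P N)).roots.toFinset := by
    intro s c
    rw [Multiset.mem_toFinset, mem_roots ((hp c).map _).ne_zero, IsRoot.def, eval_map_algebraMap,
      aeval_algHom_apply, hp', map_zero]
  let F : (C →ₐ[P] N) → (∀ c : S, {x : N // x ∈ ((p c).map (algebraMap P N)).roots.toFinset}) :=
    fun s c => ⟨s c, hmem s c⟩
  refine Finite.of_injective F ?_
  intro s t hst
  have h1 : ∀ c ∈ S, s c = t c := by
    intro c hc
    have := congrFun hst ⟨c, hc⟩
    simpa [F] using congrArg Subtype.val this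
  have h2 : s.toLinearMap = t.toLinearMap := by
    exact LinearMap.ext_on hS fun c hc => h1 c hc
  exact AlgHom.toLinearMap_injective h2

open Polynomial in
/-- Transitivity for a finite group of automorphisms. -/
theorem H694.F_transitive {P B Ω : Type*} [CommRing P] [CommRing B] [Algebra P B] [Field Ω]
    [Finite (B ≃ₐ[P] B)] (y y' : B →+* Ω)
    (h : ∀ b, (∀ g : B ≃ₐ[P] B, g b = b) → y b = y' b) :
    ∃ g : B ≃ₐ[P] B, y' = y.comp (g : B →+* B) := by
  classical
  have : Fintype (B ≃ₐ[P] B) := Fintype.ofFinite _
  by_contra hcon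
  have hcon' : ∀ g : B ≃ₐ[P] B, ∃ b, y' b ≠ y (g b) := by
    intro g
    by_contra hg
    push Not at hg
    exact hcon ⟨g, RingHom.ext hg⟩
  choose b hb using hcon'
  let e := Fintype.equivFin (B ≃ₐ[P] B)
  let β : B[X] := ∑ g, monomial (e g : ℕ) (b g)
  have hcoeff : ∀ g, β.coeff (e g) = b g := by
    intro g
    simp only [β, finsetSum_coeff, coeff_monomial]
    rw [Finset.sum_eq_single g]
    · simp
    · intro g' _ hne
      rw [if_neg]
      intro h'
      exact hne (e.injective (Fin.val_injective h'))
    · intro h'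
      exact absurd (Finset.mem_univ g) h'
  let Φ : B[X][X] := ∏ g : B ≃ₐ[P] B, (X - C (β.map (g : B →+* B)))
  have hinv : ∀ g : B ≃ₐ[P] B, Φ.map (mapRingHom (g : B →+* B)) = Φ := by
    intro g
    simp only [Φ, Polynomial.map_prod, Polynomial.map_sub, map_X, map_C]
    refine Fintype.prod_equiv (Equiv.mulLeft g) _ _ ?_
    intro g'
    congr 2
    rw [coe_mapRingHom, map_map]
    rfl
  have hyy : Φ.map (mapRingHom y) = Φ.map (mapRingHom y') := by
    ext i j
    simp only [coeff_map, coe_mapRingHom]
    apply h
    intro g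
    have h1 := congrArg (fun q : B[X][X] => (q.coeff i).coeff j) (hinv g)
    simp only [coeff_map, coe_mapRingHom] at h1
    exact h1
  have h0 : (Φ.map (mapRingHom y')).eval (β.map y') = 0 := by
    simp only [Φ, Polynomial.map_prod, Polynomial.map_sub, map_X, map_C, eval_prod, eval_sub,
      eval_X, eval_C]
    refine Finset.prod_eq_zero (Finset.mem_univ (1 : B ≃ₐ[P] B)) ?_
    rw [coe_mapRingHom, map_map, sub_eq_zero]
    rfl
  rw [← hyy] at h0
  simp only [Φ, Polynomial.map_prod, Polynomial.map_sub, map_X, map_C, eval_prod, eval_sub,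
    eval_X, eval_C] at h0
  obtain ⟨g, -, hg⟩ := Finset.prod_eq_zero_iff.1 h0
  rw [coe_mapRingHom, map_map, sub_eq_zero] at hg
  have h1 := congrArg (fun q : Polynomial Ω => q.coeff (e g)) hg
  simp only [coeff_map, hcoeff] at h1
  exact hb g h1

open Polynomial in
/-- An element whose conjugates are all equal is purely inseparable. -/
theorem H694.F_pow_mem {K N : Type*} [Field K] [Field N] [Algebra K N] [IsAlgClosed N]
    (q : ℕ) [ExpChar K q] {x : N} (hx : IsIntegral K x)
    (h : ∀ r, aeval r (minpoly K x) = 0 → r = x) : ∃ n : ℕ, ∃ k : K, algebraMap K N k = x ^ q ^ n := by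
  classical
  have h1 : (minpoly K x).natSepDegree = 1 := by
    rw [natSepDegree_eq_of_splits (E := N) (minpoly K x) (IsAlgClosed.splits _)]
    have h2 : ((minpoly K x).aroots N).toFinset = {x} := by
      ext r
      rw [Multiset.mem_toFinset, mem_aroots, Finset.mem_singleton]
      constructor
      · rintro ⟨-, hr⟩
        exact h r hr
      · rintro rfl
        exact ⟨minpoly.ne_zero hx, minpoly.aeval K r⟩
    rw [h2, Finset.card_singleton]
  obtain ⟨n, k, hk⟩ := (minpoly.natSepDegree_eq_one_iff_pow_mem q).1 h1
  exact ⟨n, k, hk⟩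

theorem H694.galois_closure {P A : Type u} [CommRing P] [IsDomain P] [IsIntegrallyClosed P]
    [CommRing A] [IsDomain A] [Algebra P A] [Module.Finite P A]
    (hinj : Function.Injective (algebraMap P A)) :
    ∃ (B : Type u) (_ : CommRing B) (_ : IsDomain B) (_ : Algebra P B) (_ : Module.Finite P B),
      Function.Injective (algebraMap P B) ∧ Nonempty (A →ₐ[P] B) ∧ Finite (A →ₐ[P] B) ∧
      ∀ (Ω : Type u) [Field Ω] (y y' : B →+* Ω),
        y.comp (algebraMap P B) = y'.comp (algebraMap P B) →
        ∃ g : B ≃ₐ[P] B, y' = y.comp (g : B →+* B) := by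
  classical
  let K := FractionRing P
  let N := AlgebraicClosure K
  have hPN : Function.Injective (algebraMap P N) := by
    rw [IsScalarTower.algebraMap_eq P K N]
    exact (algebraMap K N).injective.comp (IsFractionRing.injective P K)
  have : Module.IsTorsionFree P A := by
    have : FaithfulSMul P A := (faithfulSMul_iff_algebraMap_injective P A).2 hinj
    infer_instance
  have : Module.IsTorsionFree P N := by
    have : FaithfulSMul P N := (faithfulSMul_iff_algebraMap_injective P N).2 hPN
    infer_instance
  have : Algebra.IsIntegral P A := Algebra.IsIntegral.of_finite P A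
  have s₀ : A →ₐ[P] N := IsAlgClosed.lift
  have hfin : Finite (A →ₐ[P] N) := H694.F_finite_algHom P A N
  obtain ⟨S, hS⟩ := (Module.Finite.fg_top : (⊤ : Submodule P A).FG)
  let T : Set N := ⋃ s : A →ₐ[P] N, s '' (S : Set A)
  have hT : T.Finite := Set.finite_iUnion fun s => S.finite_toSet.image s
  have hTint : ∀ x ∈ T, IsIntegral P x := by
    intro x hx
    obtain ⟨s, a, -, rfl⟩ := Set.mem_iUnion.1 hx
    exact (Algebra.IsIntegral.isIntegral a).map s
  let B : Subalgebra P N := Algebra.adjoin P T
  have hBfin : Module.Finite P B :=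
    (Module.Finite.iff_fg (N := Subalgebra.toSubmodule B)).2 (fg_adjoin_of_finite hT hTint)
  have hPB : Function.Injective (algebraMap P B) := by
    intro a b hab
    apply hPN
    exact congrArg Subtype.val hab
  have hrange : ∀ (s : A →ₐ[P] N) (a : A), s a ∈ B := by
    intro s a
    have ha : a ∈ Submodule.span P (S : Set A) := by
      rw [hS]
      trivial
    induction ha using Submodule.span_induction with
    | mem a ha => exact Algebra.subset_adjoin (Set.mem_iUnion.2 ⟨s, a, ha, rfl⟩)
    | zero =>
      rw [map_zero]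
      exact B.zero_mem
    | add a b _ _ ha hb =>
      rw [map_add]
      exact B.add_mem ha hb
    | smul c a _ ha =>
      rw [map_smul]
      exact B.smul_mem ha c
  have hmap : ∀ (σ : N ≃ₐ[K] N) (b : N), b ∈ B → σ b ∈ B := by
    intro σ b hb
    have hle : B ≤ B.comap (σ.toAlgHom.restrictScalars P) := by
      refine Algebra.adjoin_le ?_
      intro x hx
      obtain ⟨s, a, ha, rfl⟩ := Set.mem_iUnion.1 hx
      change σ (s a) ∈ B
      exact Algebra.subset_adjoin (Set.mem_iUnion.2
        ⟨(σ.toAlgHom.restrictScalars P).comp s, a, ha, rfl⟩)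
    exact hle hb
  have hfinB : Finite (B →ₐ[P] N) := H694.F_finite_algHom P B N
  have hfinG : Finite (B ≃ₐ[P] B) := by
    refine Finite.of_injective (fun g : B ≃ₐ[P] B => B.val.comp (g : B →ₐ[P] B)) ?_
    intro g g' hgg
    ext b
    exact DFunLike.congr_fun hgg b
  refine ⟨B, inferInstance, inferInstance, inferInstance, hBfin, hPB, ⟨s₀.codRestrict B
    (hrange s₀)⟩, ?_, ?_⟩
  · refine Finite.of_injective (fun g : A →ₐ[P] B => B.val.comp g) ?_
    intro g g' hgg
    ext b
    exact DFunLike.congr_fun hgg b
  · intro Ω _ y y' hyy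
    refine H694.F_transitive y y' ?_
    intro b hb
    obtain ⟨q, hq⟩ := ExpChar.exists P
    have hqK : ExpChar K q := expChar_of_injective_algebraMap (IsFractionRing.injective P K) q
    have hbint : IsIntegral P (b : N) :=
      (Algebra.IsIntegral.of_finite P B).isIntegral b |>.map B.val
    have hbK : IsIntegral K (b : N) := hbint.tower_top
    have hconj : ∀ r : N, Polynomial.aeval r (minpoly K (b : N)) = 0 → r = b := by
      intro r hr
      obtain ⟨σ, hσ⟩ := minpoly.exists_algEquiv_of_root' (Algebra.IsAlgebraic.isAlgebraic (b : N)) hr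
      let g₁ : B →ₐ[P] B := ((σ.toAlgHom.restrictScalars P).comp B.val).codRestrict B
        fun c => hmap σ c c.2
      let g₂ : B →ₐ[P] B := ((σ.symm.toAlgHom.restrictScalars P).comp B.val).codRestrict B
        fun c => hmap σ.symm c c.2
      let g : B ≃ₐ[P] B := AlgEquiv.ofAlgHom g₁ g₂
        (by
          ext c
          exact σ.apply_symm_apply _)
        (by
          ext c
          exact σ.symm_apply_apply _)
      have h1 := congrArg Subtype.val (hb g)
      change σ b = b at h1
      rw [← hσ, h1]
    obtain ⟨n, k, hk⟩ := H694.F_pow_mem q hbK hconj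
    have hkint : IsIntegral P k := by
      have h1 : IsIntegral P (algebraMap K N k) := by
        rw [hk]
        exact hbint.pow _
      exact (isIntegral_algebraMap_iff (algebraMap K N).injective).1 h1
    obtain ⟨p, hp⟩ := IsIntegrallyClosed.isIntegral_iff.1 hkint
    have hpb : algebraMap P B p = b ^ q ^ n := by
      apply Subtype.ext
      change algebraMap P N p = (b : N) ^ q ^ n
      rw [← hk, ← hp, ← IsScalarTower.algebraMap_apply]
    have hyp : y b ^ q ^ n = y' b ^ q ^ n := by
      rw [← map_pow, ← map_pow, ← hpb]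
      exact RingHom.congr_fun hyy p
    rcases hq with _ | hprime
    · simpa using hyp
    · have hchar : CharP Ω q := by
        rw [CharP.charP_iff_prime_eq_zero hprime]
        have h1 : ((q : P)) = 0 := CharP.cast_eq_zero P q
        have h2 : (q : Ω) = y (algebraMap P B (q : P)) := by
          rw [map_natCast, map_natCast]
        rw [h2, h1, map_zero, map_zero]
      have : ExpChar Ω q := ExpChar.prime hprime
      have h3 : (y b - y' b) ^ q ^ n = 0 := by
        rw [sub_pow_expChar_pow, hyp, sub_self]
      exact sub_eq_zero.1 ((pow_eq_zero_iff (pow_ne_zero n hprime.ne_zero)).1 h3)
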