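import Mathlib

/-! # Rigidity of unramified points -/

universe u

theorem H694.rigidity {P A B : Type u} [CommRing P] [CommRing A] [CommRing B] [IsDomain B]
    [Algebra P A] [Algebra P B] [Algebra.FiniteType P A] (σ τ : A →ₐ[P] B) (M : Ideal A)
    (hPM : ∀ a : A, ∃ p : P, a - algebraMap P A p ∈ M) (𝔫 : Ideal P)
    (hM : M ≤ 𝔫.map (algebraMap P A) ⊔ M ^ 2) (q : Ideal B) (hq : q ≠ ⊤)
    (hσ : ∀ a ∈ M, σ a ∈ q) (hτ : ∀ a ∈ M, τ a ∈ q) (hn : ∀ p ∈ 𝔫, algebraMap P B p ∈ q) :
    σ = τ := by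
  have hmul : ∀ x y, σ (x * y) - τ (x * y) = σ x * (σ y - τ y) + (σ x - τ x) * τ y := by
    intro x y
    rw [map_mul, map_mul]
    ring
  obtain ⟨s, hs⟩ := (inferInstance : Algebra.FiniteType P A).out
  let J : Ideal B := Ideal.span ((fun a => σ a - τ a) '' (s : Set A))
  have hJ : ∀ a, σ a - τ a ∈ J := by
    intro a
    have ha : a ∈ Algebra.adjoin P (s : Set A) := by rw [hs]; trivial
    induction ha using Algebra.adjoin_induction with
    | mem x hx => exact Ideal.subset_span ⟨x, hx, rfl⟩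
    | algebraMap r =>
      rw [AlgHom.commutes, AlgHom.commutes, sub_self]
      exact J.zero_mem
    | add x y _ _ hx hy =>
      rw [map_add, map_add, add_sub_add_comm]
      exact J.add_mem hx hy
    | mul x y _ _ hx hy =>
      rw [hmul]
      exact J.add_mem (J.mul_mem_left _ hy) (J.mul_mem_right _ hx)
  have hfg : J.FG := by
    classical
    exact ⟨s.image (fun a => σ a - τ a), by rw [Finset.coe_image]⟩
  have hmap : ∀ x ∈ 𝔫.map (algebraMap P A), σ x - τ x ∈ q * J ∧ τ x ∈ q := by
    intro x hx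
    induction hx using Submodule.span_induction with
    | mem z hz =>
      obtain ⟨p, hp, rfl⟩ := hz
      refine ⟨?_, ?_⟩
      · change σ (algebraMap P A p) - τ (algebraMap P A p) ∈ _
        rw [AlgHom.commutes, AlgHom.commutes, sub_self]
        exact (q * J).zero_mem
      · change τ (algebraMap P A p) ∈ _
        rw [AlgHom.commutes]
        exact hn p hp
    | zero => exact ⟨by rw [map_zero, map_zero, sub_self]; exact (q * J).zero_mem,
        by rw [map_zero]; exact q.zero_mem⟩
    | add z w _ _ hz hw =>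
      rw [map_add, map_add, add_sub_add_comm]
      exact ⟨(q * J).add_mem hz.1 hw.1, q.add_mem hz.2 hw.2⟩
    | smul c z _ hz =>
      rw [smul_eq_mul, hmul, map_mul]
      refine ⟨(q * J).add_mem ((q * J).mul_mem_left _ hz.1) ?_, q.mul_mem_left _ hz.2⟩
      rw [mul_comm (σ c - τ c)]
      exact Ideal.mul_mem_mul hz.2 (hJ c)
  have hMM : ∀ y ∈ M ^ 2, σ y - τ y ∈ q * J := by
    intro y hy
    rw [pow_two] at hy
    induction hy using Submodule.mul_induction_on' with
    | mem_mul_mem m hm n hn' =>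
      rw [hmul]
      refine (q * J).add_mem (Ideal.mul_mem_mul (hσ m hm) (hJ n)) ?_
      rw [mul_comm (σ m - τ m)]
      exact Ideal.mul_mem_mul (hτ n hn') (hJ m)
    | add z _ w _ hz hw =>
      rw [map_add, map_add, add_sub_add_comm]
      exact (q * J).add_mem hz hw
  have hMJ : ∀ a ∈ M, σ a - τ a ∈ q * J := by
    intro a ha
    obtain ⟨x, hx, y, hy, rfl⟩ := Submodule.mem_sup.1 (hM ha)
    rw [map_add, map_add, add_sub_add_comm]
    exact (q * J).add_mem (hmap x hx).1 (hMM y hy)
  have hle : J ≤ q • J := by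
    rw [smul_eq_mul]
    refine Ideal.span_le.2 ?_
    rintro _ ⟨a, -, rfl⟩
    obtain ⟨p, hp⟩ := hPM a
    have h1 := hMJ _ hp
    rw [map_sub, map_sub, AlgHom.commutes, AlgHom.commutes, sub_sub_sub_cancel_right] at h1
    exact h1
  obtain ⟨r, hr1, hr2⟩ :=
    Submodule.exists_sub_one_mem_and_smul_eq_zero_of_fg_of_le_smul q J hfg hle
  have hr : r ≠ 0 := by
    rintro rfl
    apply hq
    rw [Ideal.eq_top_iff_one]
    have := q.neg_mem hr1
    simpa using this
  ext a
  have h3 := hr2 _ (hJ a)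
  rw [smul_eq_mul] at h3
  exact sub_eq_zero.1 ((mul_eq_zero.1 h3).resolve_left hr)
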