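import Mathlib

/-! # Etale local sections: the local case -/

universe u

open TensorProduct


namespace H694.H1aux

/-- core local statement: a finite étale local algebra with trivial residue extension is trivial -/
lemma core {B E : Type u} [CommRing B] [CommRing E] [IsLocalRing B] [IsLocalRing E] [Algebra B E]
    [Algebra.Etale B E] [Module.Finite B E]
    (hres : ∀ x : E, ∃ b : B, x - algebraMap B E b ∈ IsLocalRing.maximalIdeal E) :
    Function.Bijective (algebraMap B E) := by
  have hmax : (IsLocalRing.maximalIdeal E).comap (algebraMap B E) = IsLocalRing.maximalIdeal B := by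
    have : Ideal.IsMaximal ((IsLocalRing.maximalIdeal E).comap (algebraMap B E)) :=
      Ideal.isMaximal_comap_of_isIntegral_of_isMaximal _
    exact IsLocalRing.eq_maximalIdeal this
  have : IsLocalHom (algebraMap B E) :=
    ((IsLocalRing.local_hom_TFAE (algebraMap B E)).out 4 0).mp hmax
  have hunr : (IsLocalRing.maximalIdeal B).map (algebraMap B E) = IsLocalRing.maximalIdeal E :=
    Algebra.FormallyUnramified.map_maximalIdeal
  constructor
  · have : Module.Flat B E := inferInstance
    have : Module.FaithfullyFlat B E := Module.FaithfullyFlat.of_flat_of_isLocalHom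
    exact FaithfulSMul.algebraMap_injective B E
  · have htop : LinearMap.range (Algebra.linearMap B E) = ⊤ := by
      rw [← top_le_iff]
      apply Submodule.le_of_le_smul_of_le_jacobson_bot (I := IsLocalRing.maximalIdeal B)
        (Module.finite_def.mp ‹_›) (IsLocalRing.jacobson_eq_maximalIdeal ⊥ bot_ne_top).ge
      rintro x -
      obtain ⟨b, hb⟩ := hres x
      rw [← hunr] at hb
      have hx : x = algebraMap B E b + (x - algebraMap B E b) := by ring
      rw [hx]
      refine Submodule.add_mem_sup ⟨b, rfl⟩ ?_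
      rw [Ideal.smul_top_eq_map]
      exact hb
    intro x
    have : x ∈ LinearMap.range (Algebra.linearMap B E) := by rw [htop]; trivial
    exact this

lemma loc_local {R S SM : Type u} [CommRing R] [CommRing S] [CommRing SM] [Algebra R S]
    [Algebra.IsIntegral R S] [Algebra S SM]
    (m : Ideal R) [m.IsPrime] [IsLocalization (Algebra.algebraMapSubmonoid S m.primeCompl) SM]
    (P : Ideal S) [P.IsPrime] [P.LiesOver m]
    (hu : ∀ P' : Ideal S, P'.IsPrime → P'.LiesOver m → P' = P) :
    ∃ _ : IsLocalRing SM, (IsLocalRing.maximalIdeal SM) = P.map (algebraMap S SM) ∧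
      (IsLocalRing.maximalIdeal SM).under S = P := by
  set M := Algebra.algebraMapSubmonoid S m.primeCompl with hM
  have hdisj : Disjoint (M : Set S) (P : Set S) := by
    rw [Set.disjoint_left]
    rintro _ ⟨r, hr, rfl⟩ hx
    apply hr
    have := P.over_def m
    rw [this]
    exact hx
  have hPp : (P.map (algebraMap S SM)).IsPrime :=
    IsLocalization.isPrime_of_isPrime_disjoint M SM P ‹_› hdisj
  have hPu : (P.map (algebraMap S SM)).under S = P :=
    IsLocalization.under_map_of_isPrime_disjoint M SM ‹_› hdisj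
  have hNT : Nontrivial SM := by
    refine ⟨⟨0, 1, fun h => hPp.ne_top ?_⟩⟩
    rw [Ideal.eq_top_iff_one, ← h]
    exact Ideal.zero_mem _
  have key : ∀ N : Ideal SM, N.IsMaximal → N = P.map (algebraMap S SM) := by
    intro N hN
    have hNp : N.IsPrime := hN.isPrime
    obtain ⟨hQp, hQd⟩ := (IsLocalization.isPrime_iff_isPrime_disjoint M SM N).mp hNp
    have hle : (N.under S).comap (algebraMap R S) ≤ m := by
      intro r hr
      by_contra hrm
      exact Set.disjoint_left.mp hQd ⟨r, hrm, rfl⟩ hr
    obtain ⟨Q', hQ', hQ'p, hQ'm⟩ := Ideal.exists_ideal_over_prime_of_isIntegral m (N.under S) hle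
    have : Q' = P := hu Q' hQ'p ⟨hQ'm.symm⟩
    subst this
    have h1 : N ≤ Q'.map (algebraMap S SM) := by
      have h2 := IsLocalization.map_under M SM N
      rw [← h2]
      exact Ideal.map_mono hQ'
    exact hN.eq_of_le hPp.ne_top h1
  have hloc : IsLocalRing SM := by
    apply IsLocalRing.of_unique_max_ideal
    obtain ⟨N, hN⟩ := Ideal.exists_maximal SM
    exact ⟨N, hN, fun N' hN' => (key N' hN').trans (key N hN).symm⟩
  have hmax := key (IsLocalRing.maximalIdeal SM) inferInstance
  exact ⟨hloc, hmax, by rw [hmax, hPu]⟩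

lemma loc_bij {R C E B EB : Type u} [CommRing R] [CommRing C] [CommRing E] [CommRing B] [CommRing EB]
    [Algebra R C] [Algebra C E] [Algebra R E] [IsScalarTower R C E] [Module.Finite R C]
    [Module.Finite R E]
    [Algebra.Etale C E] [Algebra C B] [Algebra E EB] [Algebra B EB] [Algebra C EB]
    [IsScalarTower C B EB] [IsScalarTower C E EB]
    (m : Ideal R) [m.IsPrime] [IsLocalization (Algebra.algebraMapSubmonoid C m.primeCompl) B]
    [IsLocalization (Algebra.algebraMapSubmonoid E m.primeCompl) EB]
    (P : Ideal E) [P.IsPrime] [P.LiesOver m]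
    (hC : ∀ Q Q' : Ideal C, Q.IsPrime → Q.LiesOver m → Q'.IsPrime → Q'.LiesOver m → Q = Q')
    (hE : ∀ P' : Ideal E, P'.IsPrime → P'.LiesOver m → P' = P)
    (hres : ∀ x : E, ∃ c c' : C, algebraMap C E c' ∉ P ∧
      algebraMap C E c' * x - algebraMap C E c ∈ P) :
    Function.Bijective (algebraMap B EB) := by
  have hQp : (P.under C).IsPrime := inferInstance
  have hPQ : P.LiesOver (P.under C) := ⟨rfl⟩
  have hQm : (P.under C).LiesOver m := by
    refine ⟨?_⟩
    rw [Ideal.under_under]
    exact P.over_def m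
  obtain ⟨hlE, hmaxE, hundE⟩ := loc_local (SM := EB) m P hE
  obtain ⟨hlC, hmaxC, hundC⟩ := loc_local (SM := B) m (P.under C)
    (fun Q' h1 h2 => hC _ _ h1 h2 hQp hQm)
  have hsub : Algebra.algebraMapSubmonoid E (Algebra.algebraMapSubmonoid C m.primeCompl) =
      Algebra.algebraMapSubmonoid E m.primeCompl := Algebra.algebraMapSubmonoid_map_map _
  have hloc2 : IsLocalization (Algebra.algebraMapSubmonoid E
      (Algebra.algebraMapSubmonoid C m.primeCompl)) EB := by
    rw [hsub]; infer_instance
  have hpush : Algebra.IsPushout C E B EB :=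
    Algebra.isPushout_of_isLocalization (Algebra.algebraMapSubmonoid C m.primeCompl) B E EB
  have hpush' : Algebra.IsPushout C B E EB := hpush.symm
  have het : Algebra.Etale B EB := by
    have := RingHom.Etale.isStableUnderBaseChange C E B EB
      (RingHom.etale_algebraMap.mpr inferInstance)
    exact RingHom.etale_algebraMap.mp this
  have hCE : Module.Finite C E := Module.Finite.of_restrictScalars_finite R C E
  have hfin : Module.Finite B EB := by
    exact Module.Finite.equiv (Algebra.IsPushout.equiv C B E EB).toLinearEquiv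
  apply core
  intro x
  obtain ⟨⟨y, ⟨s, r', hr', rfl⟩⟩, hx⟩ := IsLocalization.surj
    (Algebra.algebraMapSubmonoid E m.primeCompl) x
  obtain ⟨c, c', hc', hcc⟩ := hres y
  have hc'u : IsUnit (algebraMap C B c') := by
    by_contra h
    apply hc'
    have h1 : algebraMap C B c' ∈ IsLocalRing.maximalIdeal B :=
      (IsLocalRing.mem_maximalIdeal _).mpr h
    have h2 : c' ∈ (IsLocalRing.maximalIdeal B).under C := h1
    rw [hundC] at h2
    exact h2
  have hr'u : IsUnit (algebraMap C B (algebraMap R C r')) :=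
    IsLocalization.map_units B (⟨algebraMap R C r', ⟨r', hr', rfl⟩⟩ :
      Algebra.algebraMapSubmonoid C m.primeCompl)
  obtain ⟨u, hu⟩ := hc'u
  obtain ⟨v, hv⟩ := hr'u
  refine ⟨(↑u⁻¹ : B) * (↑v⁻¹ : B) * algebraMap C B c, ?_⟩
  have hprime : (IsLocalRing.maximalIdeal EB).IsPrime := inferInstance
  have hunit : IsUnit (algebraMap B EB (u * v)) := (u * v).isUnit.map (algebraMap B EB)
  have key : algebraMap B EB (u * v) * (x - algebraMap B EB (↑u⁻¹ * ↑v⁻¹ * algebraMap C B c)) =
      algebraMap E EB (algebraMap C E c' * y - algebraMap C E c) := by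
    have e1 : algebraMap B EB (u * v) * algebraMap B EB (↑u⁻¹ * ↑v⁻¹ * algebraMap C B c) =
        algebraMap B EB (algebraMap C B c) := by
      rw [← map_mul]
      congr 1
      have a1 : (u : B) * ↑u⁻¹ = 1 := u.mul_inv
      have a2 : (v : B) * ↑v⁻¹ = 1 := v.mul_inv
      calc (u : B) * v * (↑u⁻¹ * ↑v⁻¹ * algebraMap C B c) = (u * ↑u⁻¹) * (v * ↑v⁻¹) *
          algebraMap C B c := by ring
        _ = _ := by rw [a1, a2]; ring
    rw [mul_sub, e1, map_sub, map_mul (algebraMap B EB), map_mul (algebraMap E EB), hu, hv]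
    rw [← IsScalarTower.algebraMap_apply C B EB, ← IsScalarTower.algebraMap_apply C B EB,
      ← IsScalarTower.algebraMap_apply C B EB, ← IsScalarTower.algebraMap_apply C E EB,
      ← IsScalarTower.algebraMap_apply C E EB, ← hx]
    rw [IsScalarTower.algebraMap_apply C E EB (algebraMap R C r'),
      ← IsScalarTower.algebraMap_apply R C E]
    simp only
    ring
  have h3 : algebraMap B EB (u * v) * (x - algebraMap B EB (↑u⁻¹ * ↑v⁻¹ * algebraMap C B c)) ∈
      IsLocalRing.maximalIdeal EB := by
    rw [key, hmaxE]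
    exact Ideal.mem_map_of_mem _ hcc
  rcases hprime.mem_or_mem h3 with h4 | h4
  · exact absurd hunit ((IsLocalRing.mem_maximalIdeal _).mp h4)
  · exact h4


lemma map_eq_algebraMap {C E T ET : Type u} [CommRing C] [CommRing E] [CommRing T] [CommRing ET]
    [Algebra C E] [Algebra C T] [Algebra E ET] [Algebra T ET] [Algebra C ET]
    [IsScalarTower C E ET] [IsScalarTower C T ET] (S : Submonoid C)
    [IsLocalizedModule S (Algebra.linearMap C T)]
    [IsLocalizedModule S (IsScalarTower.toAlgHom C E ET).toLinearMap] :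
    IsLocalizedModule.map S (Algebra.linearMap C T) (IsScalarTower.toAlgHom C E ET).toLinearMap
      (Algebra.linearMap C E) = (IsScalarTower.toAlgHom C T ET).toLinearMap := by
  apply IsLocalizedModule.linearMap_ext S (Algebra.linearMap C T)
    (IsScalarTower.toAlgHom C E ET).toLinearMap
  rw [IsLocalizedModule.map_comp]
  ext
  simp

lemma loc_desc {R C E : Type u} [CommRing R] [CommRing C] [CommRing E]
    [Algebra R C] [Algebra C E] [Algebra R E] [IsScalarTower R C E] [Module.Finite R C]
    [Module.Finite R E] [Algebra.Etale C E]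
    (m : Ideal R) [m.IsPrime] 
    (P : Ideal E) [P.IsPrime] [P.LiesOver m]
    (hC : ∀ Q Q' : Ideal C, Q.IsPrime → Q.LiesOver m → Q'.IsPrime → Q'.LiesOver m → Q = Q')
    (hE : ∀ P' : Ideal E, P'.IsPrime → P'.LiesOver m → P' = P)
    (hres : ∀ x : E, ∃ c c' : C, algebraMap C E c' ∉ P ∧
      algebraMap C E c' * x - algebraMap C E c ∈ P) :
    ∃ g : R, g ∉ m ∧ ∀ (T : Type u) [CommRing T] [Algebra C T]
      [IsLocalization.Away (algebraMap R C g) T], Nonempty (E →ₐ[C] T) := by
  have hCE : Module.Finite C E := Module.Finite.of_restrictScalars_finite R C E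
  have hfp : Module.FinitePresentation C E :=
    Module.FinitePresentation.of_finite_of_finitePresentation C E
  set S := Algebra.algebraMapSubmonoid C m.primeCompl with hS
  have hsub : Algebra.algebraMapSubmonoid E S =
      Algebra.algebraMapSubmonoid E m.primeCompl := Algebra.algebraMapSubmonoid_map_map _
  have hloc2 : IsLocalization (Algebra.algebraMapSubmonoid E m.primeCompl)
      (Localization (Algebra.algebraMapSubmonoid E S)) := by
    rw [← hsub]; infer_instance
  have hbij : Function.Bijective (algebraMap (Localization S)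
      (Localization (Algebra.algebraMapSubmonoid E S))) :=
    loc_bij m P hC hE hres
  have i1 : IsLocalizedModule S (Algebra.linearMap C (Localization S)) := inferInstance
  have i2 : IsLocalizedModule S (IsScalarTower.toAlgHom C E
      (Localization (Algebra.algebraMapSubmonoid E S))).toLinearMap :=
    isLocalizedModule_iff_isLocalization.mpr inferInstance
  have hb2 : Function.Bijective (IsLocalizedModule.map S (Algebra.linearMap C (Localization S))
      (IsScalarTower.toAlgHom C E (Localization (Algebra.algebraMapSubmonoid E S))).toLinearMap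
      (Algebra.linearMap C E)) := by
    rw [map_eq_algebraMap]
    exact hbij
  obtain ⟨t, ⟨g, hg, rfl⟩, ht⟩ := exists_bijective_map_powers S _ _ _ hb2
  refine ⟨g, hg, ?_⟩
  intro T _ _ _
  have hb3 := ht _ dvd_rfl
  set t := algebraMap R C g with htdef
  have hTloc : IsLocalization (Submonoid.powers t) T := ‹_›
  let alg : Algebra T (Localization (Algebra.algebraMapSubmonoid E (Submonoid.powers t))) :=
    localizationAlgebra (Submonoid.powers t) E
  have : IsScalarTower C T (Localization (Algebra.algebraMapSubmonoid E (Submonoid.powers t))) :=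
    isScalarTower_localizationAlgebra _ _
  have i3 : IsLocalizedModule (Submonoid.powers t) (Algebra.linearMap C T) := inferInstance
  have i4 : IsLocalizedModule (Submonoid.powers t) (IsScalarTower.toAlgHom C E
      (Localization (Algebra.algebraMapSubmonoid E (Submonoid.powers t)))).toLinearMap :=
    isLocalizedModule_iff_isLocalization.mpr inferInstance
  have hb4 := (IsLocalizedModule.map_bijective_iff_localizedModuleMap_bijective
    (Algebra.linearMap C T) (IsScalarTower.toAlgHom C E
      (Localization (Algebra.algebraMapSubmonoid E (Submonoid.powers t)))).toLinearMap).mpr hb3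
  rw [map_eq_algebraMap] at hb4
  let eqv : T ≃ₐ[C] (Localization (Algebra.algebraMapSubmonoid E (Submonoid.powers t))) :=
    AlgEquiv.ofBijective (IsScalarTower.toAlgHom C T
      (Localization (Algebra.algebraMapSubmonoid E (Submonoid.powers t)))) hb4
  exact ⟨eqv.symm.toAlgHom.comp (IsScalarTower.toAlgHom C E
      (Localization (Algebra.algebraMapSubmonoid E (Submonoid.powers t))))⟩

lemma bc_etale {R C D A : Type u} [CommRing R] [CommRing C] [CommRing D] [CommRing A]
    [Algebra R C] [Algebra C D] [Algebra R D] [IsScalarTower R C D] [Algebra R A]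
    [Algebra.Etale C D] [alg : Algebra (A ⊗[R] C) (A ⊗[R] D)]
    (h : algebraMap (A ⊗[R] C) (A ⊗[R] D) =
      (Algebra.TensorProduct.map (AlgHom.id A A) (IsScalarTower.toAlgHom R C D)).toRingHom) :
    Algebra.Etale (A ⊗[R] C) (A ⊗[R] D) := by
  let a1 : Algebra C (A ⊗[R] C) := Algebra.TensorProduct.rightAlgebra
  let a2 : Algebra D (A ⊗[R] D) := Algebra.TensorProduct.rightAlgebra
  let a3 : Algebra C (A ⊗[R] D) := ((algebraMap D (A ⊗[R] D)).comp (algebraMap C D)).toAlgebra
  have t1 : IsScalarTower C D (A ⊗[R] D) := IsScalarTower.of_algebraMap_eq' rfl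
  have t2 : IsScalarTower C (A ⊗[R] C) (A ⊗[R] D) := by
    apply IsScalarTower.of_algebraMap_eq
    intro x
    rw [h]
    change (1 : A) ⊗ₜ[R] (algebraMap C D x) = Algebra.TensorProduct.map (AlgHom.id A A) (IsScalarTower.toAlgHom R C D) ((1 : A) ⊗ₜ[R] x)
    simp
  have t3 : IsScalarTower A (A ⊗[R] C) (A ⊗[R] D) := by
    apply IsScalarTower.of_algebraMap_eq
    intro x
    rw [h]
    simp
  have t4 : IsScalarTower R (A ⊗[R] C) (A ⊗[R] D) := by
    apply IsScalarTower.of_algebraMap_eq
    intro x
    rw [h]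
    rw [IsScalarTower.algebraMap_apply R A (A ⊗[R] C), IsScalarTower.algebraMap_apply R A (A ⊗[R] D)]
    simp
  have p1 : Algebra.IsPushout R C A (A ⊗[R] C) := inferInstance
  have p2 : Algebra.IsPushout R D A (A ⊗[R] D) := inferInstance
  have p3 : Algebra.IsPushout C D (A ⊗[R] C) (A ⊗[R] D) :=
    (Algebra.IsPushout.comp_iff R C A (A ⊗[R] C)).mp p2
  have := RingHom.Etale.isStableUnderBaseChange C D (A ⊗[R] C) (A ⊗[R] D)
      (RingHom.etale_algebraMap.mpr inferInstance)
  exact RingHom.etale_algebraMap.mp this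

end H694.H1aux

theorem H694.etale_section_local {R C D : Type u} [CommRing R] [CommRing C] [CommRing D]
    [Algebra R C] [Module.Finite R C] [Algebra C D] [Algebra.Etale C D] [Algebra R D]
    [IsScalarTower R C D] (m : Ideal R) [m.IsPrime] (q : Ideal C) [q.IsPrime] [q.LiesOver m]
    (hq : ∀ q' : Ideal C, q'.IsPrime → q'.LiesOver m → q' = q)
    (r : Ideal D) [r.IsPrime] [r.LiesOver q]
    (hres : Function.Bijective
      (Ideal.ResidueField.mapₐ q r (Algebra.ofId C D) (r.over_def q))) :
    ∃ (R' : Type u) (_ : CommRing R') (_ : Algebra R R') (_ : Algebra.Etale R R')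
      (m' : Ideal R') (_ : m'.IsPrime) (_ : m'.LiesOver m),
      Function.Bijective
        (Ideal.ResidueField.mapₐ m m' (Algebra.ofId R R') (m'.over_def m)) ∧
      Nonempty (D →ₐ[C] (C ⊗[R] R')) := by
  have hRD : Algebra.FiniteType R D := Algebra.FiniteType.trans (S := C) inferInstance inferInstance
  have hrm : r.LiesOver m := Ideal.LiesOver.trans r q m
  have hqfC : Algebra.QuasiFinite C D := inferInstance
  have hqf : Algebra.QuasiFinite R D := Algebra.QuasiFinite.trans R C D
  have hqfr : Algebra.QuasiFiniteAt R r := inferInstance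
  obtain ⟨R1, iR1, aR1, hR1et, m1, hm1p, hm1m, e, he, P', hP'p, hP'm1, hP'r, heP', hκ, hfin, huniq⟩ :=
    Algebra.exists_etale_isIdempotentElem_forall_liesOver_eq (R := R) (S := D) m r
  -- residue condition at the level of C → D
  have hqr : ∀ b : C, b ∉ q → algebraMap C D b ∉ r := by
    intro b hb h
    apply hb
    rw [r.over_def q]
    exact h
  have hresD : ∀ d : D, ∃ c c' : C, c' ∉ q ∧ algebraMap C D c' * d - algebraMap C D c ∈ r := by
    intro d
    obtain ⟨z, hz⟩ := hres.2 (algebraMap D r.ResidueField d)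
    obtain ⟨a, b, hb, hab⟩ := IsFractionRing.div_surjective (A := C ⧸ q) z
    obtain ⟨a, rfl⟩ := Ideal.Quotient.mk_surjective a
    obtain ⟨b, rfl⟩ := Ideal.Quotient.mk_surjective b
    have hbq : b ∉ q := by
      intro h
      have : (Ideal.Quotient.mk q b) = 0 := Ideal.Quotient.eq_zero_iff_mem.mpr h
      exact (mem_nonZeroDivisors_iff_ne_zero.mp hb) this
    refine ⟨a, b, hbq, ?_⟩
    have hb0 : algebraMap D r.ResidueField (algebraMap C D b) ≠ 0 := by
      rw [Ne, Ideal.algebraMap_residueField_eq_zero]
      exact hqr b hbq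
    have key : ∀ x : C, (Ideal.ResidueField.mapₐ q r (Algebra.ofId C D) (r.over_def q))
        (algebraMap C q.ResidueField x) = algebraMap D r.ResidueField (algebraMap C D x) :=
      fun x => Ideal.ResidueField.map_algebraMap q r _ _ x
    have hz2 : algebraMap D r.ResidueField d = algebraMap D r.ResidueField (algebraMap C D a) /
        algebraMap D r.ResidueField (algebraMap C D b) := by
      rw [← hz, ← hab]
      exact (map_div₀ _ _ _).trans (congrArg₂ (· / ·) (key a) (key b))
    rw [← Ideal.algebraMap_residueField_eq_zero (I := r), map_sub, map_mul, hz2]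
    field_simp
    ring
  let φ : (R1 ⊗[R] C) →ₐ[R1] (R1 ⊗[R] D) :=
    Algebra.TensorProduct.map (AlgHom.id R1 R1) (IsScalarTower.toAlgHom R C D)
  let algCD : Algebra (R1 ⊗[R] C) (R1 ⊗[R] D) := φ.toRingHom.toAlgebra
  have tow : IsScalarTower R1 (R1 ⊗[R] C) (R1 ⊗[R] D) := .of_algebraMap_eq' φ.comp_algebraMap.symm
  have hetCD : Algebra.Etale (R1 ⊗[R] C) (R1 ⊗[R] D) := H694.H1aux.bc_etale rfl
  have hetE : Algebra.Etale (R1 ⊗[R] C) (Localization.Away e) := inferInstance
  have tow1 : IsScalarTower (R1 ⊗[R] C) (R1 ⊗[R] D) (Localization.Away e) := inferInstance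
  have tow2 : IsScalarTower R1 (R1 ⊗[R] D) (Localization.Away e) := inferInstance
  have tow3 : IsScalarTower R1 (R1 ⊗[R] C) (Localization.Away e) := inferInstance
  have hfinC : Module.Finite R1 (R1 ⊗[R] C) := inferInstance
  have hdisj : Disjoint (Submonoid.powers e : Set (R1 ⊗[R] D)) (P' : Set (R1 ⊗[R] D)) := by
    rwa [Ideal.disjoint_powers_iff_notMem_of_isPrime]
  set P := P'.map (algebraMap (R1 ⊗[R] D) (Localization.Away e)) with hPdef
  have hPp : P.IsPrime :=
    IsLocalization.isPrime_of_isPrime_disjoint (Submonoid.powers e) (Localization.Away e) P' ‹_› hdisj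
  have hPP' : P.LiesOver P' := IsLocalization.liesOver_map_of_isPrime_disjoint (Submonoid.powers e) _ hdisj
  have hPm : P.LiesOver m1 := .trans _ P' _
  have hC : ∀ Q Q' : Ideal (R1 ⊗[R] C), Q.IsPrime → Q.LiesOver m1 → Q'.IsPrime → Q'.LiesOver m1 →
      Q = Q' := by
    have hcom : ∀ Q : Ideal (R1 ⊗[R] C), Q.IsPrime → Q.LiesOver m1 →
        Q.comap Algebra.TensorProduct.includeRight.toRingHom = q := by
      intro Q hQ hQm
      apply hq
      · infer_instance
      · refine ⟨?_⟩
        have hQm' : Q.LiesOver m := .trans _ m1 _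
        rw [Q.over_def m]
        simp only [Ideal.under, Ideal.comap_comap]
        congr 1
        ext x
        simp
    intro Q Q' hQ hQm hQ' hQm'
    apply Ideal.eq_of_comap_eq_comap_of_bijective_residueFieldMap hκ
    rw [hcom Q hQ hQm, hcom Q' hQ' hQm']
  have hE : ∀ P'' : Ideal (Localization.Away e), P''.IsPrime → P''.LiesOver m1 → P'' = P := by
    intro P'' hP'' hm''
    have h1 : P''.under (R1 ⊗[R] D) = P' := by
      apply huniq
      · infer_instance
      · refine ⟨?_⟩
        rw [Ideal.under_under]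
        exact P''.over_def m1
      · intro h
        have hu : IsUnit (algebraMap (R1 ⊗[R] D) (Localization.Away e) e) :=
          IsLocalization.Away.algebraMap_isUnit e
        exact hP''.ne_top (Ideal.eq_top_of_isUnit_mem _ h hu)
    rw [hPdef, ← h1]
    exact (IsLocalization.map_under (Submonoid.powers e) _ P'').symm
  have hres1 : ∀ x : R1 ⊗[R] D, ∃ c c' : R1 ⊗[R] C, φ c' ∉ P' ∧ φ c' * x - φ c ∈ P' := by
    intro x
    induction x using TensorProduct.induction_on with
    | zero =>
      refine ⟨0, 1, ?_, ?_⟩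
      · rw [map_one]
        exact fun h => hP'p.ne_top ((Ideal.eq_top_iff_one _).mpr h)
      · simp
    | tmul a d =>
      obtain ⟨c, c', hc', hcc⟩ := hresD d
      refine ⟨a ⊗ₜ c, 1 ⊗ₜ c', ?_, ?_⟩
      · intro h
        apply hqr c' hc'
        rw [← hP'r]
        exact h
      · have h1 : φ (1 ⊗ₜ c') * (a ⊗ₜ[R] d) - φ (a ⊗ₜ c) =
            (a ⊗ₜ[R] (1 : D)) * ((1 : R1) ⊗ₜ[R] (algebraMap C D c' * d - algebraMap C D c)) := by
          simp [φ, TensorProduct.tmul_sub, mul_sub]
        rw [h1]
        apply Ideal.mul_mem_left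
        rw [← hP'r] at hcc
        exact hcc
    | add x y hx hy =>
      obtain ⟨c1, c1', h1, h1'⟩ := hx
      obtain ⟨c2, c2', h2, h2'⟩ := hy
      refine ⟨c2' * c1 + c1' * c2, c1' * c2', ?_, ?_⟩
      · rw [map_mul]
        exact fun h => (hP'p.mem_or_mem h).elim h1 h2
      · have : φ (c1' * c2') * (x + y) - φ (c2' * c1 + c1' * c2) =
            φ c2' * (φ c1' * x - φ c1) + φ c1' * (φ c2' * y - φ c2) := by
          simp only [map_mul, map_add]; ring
        rw [this]
        exact Ideal.add_mem _ (Ideal.mul_mem_left _ _ h1') (Ideal.mul_mem_left _ _ h2')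
  have hresE : ∀ x : Localization.Away e, ∃ c c' : R1 ⊗[R] C,
      algebraMap (R1 ⊗[R] C) (Localization.Away e) c' ∉ P ∧
      algebraMap (R1 ⊗[R] C) (Localization.Away e) c' * x -
        algebraMap (R1 ⊗[R] C) (Localization.Away e) c ∈ P := by
    intro x
    obtain ⟨y, rfl⟩ := IsLocalization.Away.algebraMap_surjective_of_isIdempotentElem e he x
    obtain ⟨c, c', h1, h2⟩ := hres1 y
    refine ⟨c, c', ?_, ?_⟩
    · intro h
      apply h1
      rw [P.over_def P']
      exact h
    · rw [IsScalarTower.algebraMap_apply (R1 ⊗[R] C) (R1 ⊗[R] D) (Localization.Away e),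
        IsScalarTower.algebraMap_apply (R1 ⊗[R] C) (R1 ⊗[R] D) (Localization.Away e), ← map_mul,
        ← map_sub]
      exact Ideal.mem_map_of_mem _ h2
  obtain ⟨g, hg, hT⟩ := H694.H1aux.loc_desc m1 P hC hE hresE
  -- the final neighbourhood
  let R' := Localization.Away g
  have hdisj1 : Disjoint (Submonoid.powers g : Set R1) (m1 : Set R1) := by
    rwa [Ideal.disjoint_powers_iff_notMem_of_isPrime]
  let m' := m1.map (algebraMap R1 R')
  have hm'p : m'.IsPrime :=
    IsLocalization.isPrime_of_isPrime_disjoint (Submonoid.powers g) R' m1 ‹_› hdisj1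
  have hm'm1 : m'.LiesOver m1 :=
    IsLocalization.liesOver_map_of_isPrime_disjoint (Submonoid.powers g) _ hdisj1
  have hm'm : m'.LiesOver m := .trans _ m1 _
  refine ⟨R', inferInstance, inferInstance, inferInstance, m', hm'p, hm'm, ?_, ?_⟩
  · suffices Function.Bijective ⇑(Ideal.ResidueField.mapₐ m1 m'
        (IsScalarTower.toAlgHom R R1 R') (m'.over_def m1)) by
      convert! this.comp hκ; rw [← AlgHom.coe_comp]; congr; ext
    exact (RingHom.surjectiveOnStalks_of_isLocalization (Submonoid.powers g)
      _).residueFieldMap_bijective _ _ _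
  · let ψ : R1 ⊗[R] C →ₐ[R1] R' ⊗[R] C :=
      Algebra.TensorProduct.map (Algebra.ofId _ _) (.id _ _)
    let algψ : Algebra (R1 ⊗[R] C) (R' ⊗[R] C) := ψ.toAlgebra
    have towψ : IsScalarTower R1 (R1 ⊗[R] C) (R' ⊗[R] C) :=
      IsScalarTower.of_algebraMap_eq' ψ.comp_algebraMap.symm
    have hlocψ : IsLocalization.Away (algebraMap R1 (R1 ⊗[R] C) g) (R' ⊗[R] C) := by
      have : .powers (algebraMap R1 (R1 ⊗[R] C) g) =
          Algebra.algebraMapSubmonoid (R1 ⊗[R] C) (.powers g) := by simp
      rw [IsLocalization.Away, this]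
      refine IsLocalization.tensorProduct_tensorProduct _ _ _ _ ?_
      ext; simp [RingHom.algebraMap_toAlgebra, ψ, algψ]
    obtain ⟨F⟩ := hT (R' ⊗[R] C)
    let G : D →+* C ⊗[R] R' :=
      ((Algebra.TensorProduct.comm R R' C).toRingEquiv.toRingHom.comp
        (F.toRingHom.comp (algebraMap (R1 ⊗[R] D) (Localization.Away e)))).comp
        (Algebra.TensorProduct.includeRight : D →ₐ[R] R1 ⊗[R] D).toRingHom
    refine ⟨{ G with commutes' := ?_ }⟩
    intro c
    change (Algebra.TensorProduct.comm R R' C) (F (algebraMap (R1 ⊗[R] D) (Localization.Away e)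
      ((1 : R1) ⊗ₜ[R] algebraMap C D c))) = c ⊗ₜ[R] (1 : R')
    have h1 : algebraMap (R1 ⊗[R] D) (Localization.Away e) ((1 : R1) ⊗ₜ[R] algebraMap C D c) =
        algebraMap (R1 ⊗[R] C) (Localization.Away e) ((1 : R1) ⊗ₜ[R] c) := by
      rw [IsScalarTower.algebraMap_apply (R1 ⊗[R] C) (R1 ⊗[R] D) (Localization.Away e)]
      congr 1
    rw [h1, F.commutes]
    change (Algebra.TensorProduct.comm R R' C) (ψ ((1 : R1) ⊗ₜ[R] c)) = _
    simp [ψ]
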