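import Mathlib
import Pool.Agent.H694_ABV.Alg.H1

/-! # Etale local sections: several primes -/

universe u

open TensorProduct


namespace H694

/-- a trivial residue field extension gives a point with values in the residue field -/
theorem h2_toHom {C D : Type u} [CommRing C] [CommRing D] [Algebra C D] (q : Ideal C) [q.IsPrime]
    (r : Ideal D) [r.IsPrime] [r.LiesOver q]
    (h : Function.Bijective (Ideal.ResidueField.mapₐ q r (Algebra.ofId C D) (r.over_def q))) :
    Nonempty (D →ₐ[C] q.ResidueField) :=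
  ⟨((AlgEquiv.ofBijective _ h).symm : r.ResidueField →ₐ[C] q.ResidueField).comp
    (IsScalarTower.toAlgHom C D r.ResidueField)⟩

theorem h2_ofHom {C D : Type u} [CommRing C] [CommRing D] [Algebra C D] (q : Ideal C) [q.IsPrime]
    (σ : D →ₐ[C] q.ResidueField) : ∃ (r : Ideal D) (_ : r.IsPrime) (_ : r.LiesOver q),
      Function.Bijective
        (Ideal.ResidueField.mapₐ q r (Algebra.ofId C D) (r.over_def q)) := by
  have hp : (RingHom.ker σ).IsPrime := RingHom.ker_isPrime σ
  have hl : (RingHom.ker σ).LiesOver q := by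
    refine ⟨?_⟩
    ext x
    rw [Ideal.mem_comap, RingHom.mem_ker, σ.commutes, Ideal.algebraMap_residueField_eq_zero]
  refine ⟨RingHom.ker σ, hp, hl, (Ideal.ResidueField.mapₐ q (RingHom.ker σ) (Algebra.ofId C D)
    ((RingHom.ker σ).over_def q)).toRingHom.injective, ?_⟩
  let τ : (RingHom.ker σ).ResidueField →ₐ[C] q.ResidueField :=
    Ideal.ResidueField.liftₐ (RingHom.ker σ) σ le_rfl (by
      intro x hx
      exact (isUnit_iff_ne_zero.2 fun h => hx h : IsUnit (σ x)))
  have h1 : τ.comp (Ideal.ResidueField.mapₐ q (RingHom.ker σ) (Algebra.ofId C D)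
    ((RingHom.ker σ).over_def q)) = AlgHom.id C _ := by
    apply Ideal.ResidueField.algHom_ext
    ext
  intro y
  refine ⟨τ y, τ.toRingHom.injective ?_⟩
  exact congrArg (fun f => f (τ y)) h1

/-- push a section forward -/
theorem h2_push {C D Ra Ca Rb X : Type u} [CommRing C] [CommRing D] [CommRing Ra] [CommRing Ca]
    [CommRing Rb] [CommRing X] [Algebra C D] [Algebra C Ca] [Algebra Ra Ca] [Algebra Ra Rb]
    [Algebra C X] (σ : (Ca ⊗[C] D) →ₐ[Ca] (Ca ⊗[Ra] Rb)) (f : Ca →ₐ[C] X) (g : Rb →+* X)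
    (hfg : ∀ x : Ra, f (algebraMap Ra Ca x) = g (algebraMap Ra Rb x)) :
    Nonempty (D →ₐ[C] X) := by
  let _ : Algebra Ra X := (f.toRingHom.comp (algebraMap Ra Ca)).toAlgebra
  let f' : Ca →ₐ[Ra] X := { f.toRingHom with commutes' := fun _ => rfl }
  let g' : Rb →ₐ[Ra] X := { g with commutes' := fun x => (hfg x).symm }
  let h : D →+* X := (Algebra.TensorProduct.productMap f' g').toRingHom.comp
    (σ.toRingHom.comp (Algebra.TensorProduct.includeRight : D →ₐ[C] Ca ⊗[C] D).toRingHom)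
  refine ⟨{ h with commutes' := fun c => ?_ }⟩
  change Algebra.TensorProduct.productMap f' g' (σ (1 ⊗ₜ[C] algebraMap C D c)) = _
  have h1 : (1 : Ca) ⊗ₜ[C] algebraMap C D c = algebraMap Ca (Ca ⊗[C] D) (algebraMap C Ca c) := by
    rw [Algebra.TensorProduct.algebraMap_apply, Algebra.algebraMap_self_apply,
      Algebra.algebraMap_eq_smul_one, Algebra.algebraMap_eq_smul_one, TensorProduct.tmul_smul,
      TensorProduct.smul_tmul']
  rw [h1, σ.commutes, Algebra.TensorProduct.algebraMap_apply, Algebra.algebraMap_self_apply,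
    Algebra.TensorProduct.productMap_apply_tmul, map_one, mul_one]
  exact f.commutes c

/-- combine sections over the two factors -/
theorem h2_combine {C D T : Type u} [CommRing C] [CommRing D] [CommRing T] [Algebra C D]
    [Algebra C T] (ε : T) (hε : IsIdempotentElem ε)
    (h1 : Nonempty (D →ₐ[C] T ⧸ Ideal.span {1 - ε}))
    (h2 : Nonempty (D →ₐ[C] T ⧸ Ideal.span {ε})) : Nonempty (D →ₐ[C] T) := by
  obtain ⟨h1⟩ := h1
  obtain ⟨h2⟩ := h2
  have hε' : ε * ε = ε := hε
  let Φ : T →ₐ[C] (T ⧸ Ideal.span {1 - ε}) × (T ⧸ Ideal.span {ε}) :=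
    AlgHom.prod (Ideal.Quotient.mkₐ C _) (Ideal.Quotient.mkₐ C _)
  have hΦ : Function.Bijective Φ := by
    constructor
    · rw [injective_iff_map_eq_zero]
      intro x hx
      have hx1 : x ∈ Ideal.span {1 - ε} := Ideal.Quotient.eq_zero_iff_mem.1 (congrArg Prod.fst hx)
      have hx2 : x ∈ Ideal.span {ε} := Ideal.Quotient.eq_zero_iff_mem.1 (congrArg Prod.snd hx)
      obtain ⟨a, ha⟩ := Ideal.mem_span_singleton'.1 hx1
      obtain ⟨b, hb⟩ := Ideal.mem_span_singleton'.1 hx2
      have h3 : ε * x = 0 := by rw [← ha]; linear_combination (-a) * hε'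
      have h4 : (1 - ε) * x = 0 := by rw [← hb]; linear_combination (-b) * hε'
      linear_combination h3 + h4
    · rintro ⟨a, b⟩
      obtain ⟨a, rfl⟩ := Ideal.Quotient.mk_surjective a
      obtain ⟨b, rfl⟩ := Ideal.Quotient.mk_surjective b
      refine ⟨ε * a + (1 - ε) * b, Prod.ext ?_ ?_⟩
      · refine (Ideal.Quotient.eq).2 (Ideal.mem_span_singleton'.2 ⟨b - a, ?_⟩)
        ring
      · refine (Ideal.Quotient.eq).2 (Ideal.mem_span_singleton'.2 ⟨a - b, ?_⟩)
        ring
  exact ⟨((AlgEquiv.ofBijective Φ hΦ).symm : _ →ₐ[C] T).comp (AlgHom.prod h1 h2)⟩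

/-- transfer of the hypothesis -/
theorem h2_transfer {R C D Ra Ca : Type u} [CommRing R] [CommRing C] [CommRing D] [CommRing Ra]
    [CommRing Ca] [Algebra R C] [Algebra R Ra] [Algebra Ra Ca] [Algebra C Ca] [Algebra C D]
    (hcomm : ∀ x : R, algebraMap Ra Ca (algebraMap R Ra x) = algebraMap C Ca (algebraMap R C x))
    (m : Ideal R) (ma : Ideal Ra) [ma.LiesOver m]
    (H : ∀ (q : Ideal C) [q.IsPrime] [q.LiesOver m], Nonempty (D →ₐ[C] q.ResidueField))
    (q' : Ideal Ca) [q'.IsPrime] [q'.LiesOver ma] :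
    Nonempty ((Ca ⊗[C] D) →ₐ[Ca] q'.ResidueField) := by
  have : (q'.under C).LiesOver m := by
    refine ⟨?_⟩
    have h1 : ma = q'.comap (algebraMap Ra Ca) := q'.over_def ma
    have h2 : m = ma.comap (algebraMap R Ra) := ma.over_def m
    ext x
    rw [Ideal.mem_comap, Ideal.mem_comap, ← hcomm, ← Ideal.mem_comap (f := algebraMap Ra Ca), ← h1,
      ← Ideal.mem_comap, ← h2]
  obtain ⟨σ⟩ := H (q'.under C)
  let μ : (q'.under C).ResidueField →ₐ[C] q'.ResidueField :=
    Ideal.ResidueField.mapₐ (q'.under C) q' (Algebra.ofId C Ca) rfl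
  exact ⟨Algebra.TensorProduct.lift (Algebra.ofId Ca q'.ResidueField) (μ.comp σ)
    fun _ _ => Commute.all _ _⟩

/-- push a section over a base change forward -/
theorem h2_push2 {C D R1 R2 R3 Cu X : Type u} [CommRing C] [CommRing D] [CommRing R1]
    [CommRing R2] [CommRing R3] [CommRing Cu] [CommRing X] [Algebra C D] [Algebra R1 Cu]
    [Algebra C Cu] [Algebra R1 R2] [Algebra R2 R3] [Algebra C X] [Algebra C (R2 ⊗[R1] Cu)]
    (hinst : ∀ c, algebraMap C (R2 ⊗[R1] Cu) c = 1 ⊗ₜ[R1] algebraMap C Cu c)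
    (σ : ((R2 ⊗[R1] Cu) ⊗[C] D) →ₐ[R2 ⊗[R1] Cu] ((R2 ⊗[R1] Cu) ⊗[R2] R3))
    (f : Cu →ₐ[C] X) (g : R3 →+* X)
    (hfg : ∀ x : R1, f (algebraMap R1 Cu x) = g (algebraMap R2 R3 (algebraMap R1 R2 x))) :
    Nonempty (D →ₐ[C] X) := by
  let _ : Algebra R1 X := (f.toRingHom.comp (algebraMap R1 Cu)).toAlgebra
  let f' : Cu →ₐ[R1] X := { f.toRingHom with commutes' := fun _ => rfl }
  let g' : R2 →ₐ[R1] X := { g.comp (algebraMap R2 R3) with commutes' := fun x => (hfg x).symm }
  let F : (R2 ⊗[R1] Cu) →ₐ[C] X :=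
    { (Algebra.TensorProduct.productMap g' f').toRingHom with
      commutes' := fun c => by
        change Algebra.TensorProduct.productMap g' f' (algebraMap C (R2 ⊗[R1] Cu) c) = _
        rw [hinst, Algebra.TensorProduct.productMap_apply_tmul, map_one, one_mul]
        exact f.commutes c }
  refine h2_push σ F g fun x => ?_
  change Algebra.TensorProduct.productMap g' f' (algebraMap R2 (R2 ⊗[R1] Cu) x) = _
  rw [Algebra.TensorProduct.algebraMap_apply, Algebra.algebraMap_self_apply,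
    Algebra.TensorProduct.productMap_apply_tmul, map_one, mul_one]
  rfl

/-- a section over `R2` can be pushed to every ring with compatible maps -/
def H2Push (C D R1 R2 Cu : Type u) [CommRing C] [CommRing D] [CommRing R1] [CommRing R2]
    [CommRing Cu] [Algebra C D] [Algebra R1 Cu] [Algebra C Cu] [Algebra R1 R2] : Prop :=
  ∀ (X : Type u) [CommRing X] [Algebra C X] (f : Cu →ₐ[C] X) (g : R2 →+* X),
    (∀ x : R1, f (algebraMap R1 Cu x) = g (algebraMap R1 R2 x)) → Nonempty (D →ₐ[C] X)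

theorem h2_assemble {C D R1 R2 R3 C1 T : Type u} [CommRing C] [CommRing D] [CommRing R1]
    [CommRing R2] [CommRing R3] [CommRing C1] [CommRing T] [Algebra C D] [Algebra R1 C1]
    [Algebra C C1] [Algebra R1 R2] [Algebra R2 R3] [Algebra R1 R3] [IsScalarTower R1 R2 R3]
    [Algebra C T] (φ : C1 →ₐ[C] T) (g0 : R3 →+* T)
    (hφ : ∀ x : R1, φ (algebraMap R1 C1 x) = g0 (algebraMap R1 R3 x))
    (e : C1) (he : IsIdempotentElem e)
    (σe : H2Push C D R1 R2 (C1 ⧸ Ideal.span {1 - e}))
    (σf : H2Push C D R1 R3 (C1 ⧸ Ideal.span {e})) : Nonempty (D →ₐ[C] T) := by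
  refine h2_combine (φ e) (he.map φ) ?_ ?_
  · refine σe _ (Ideal.Quotient.liftₐ (Ideal.span {1 - e})
      ((Ideal.Quotient.mkₐ C (Ideal.span {1 - φ e})).comp φ) ?_)
      ((Ideal.Quotient.mk (Ideal.span {1 - φ e})).comp (g0.comp (algebraMap R2 R3))) ?_
    · intro a ha
      obtain ⟨b, rfl⟩ := Ideal.mem_span_singleton'.1 ha
      change Ideal.Quotient.mk (Ideal.span {1 - φ e}) (φ (b * (1 - e))) = 0
      rw [Ideal.Quotient.eq_zero_iff_mem, map_mul, map_sub, map_one]
      exact Ideal.mul_mem_left _ _ (Ideal.mem_span_singleton_self _)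
    · intro x
      have h1 := congrArg (Ideal.Quotient.mk (Ideal.span {1 - φ e})) (hφ x)
      rw [IsScalarTower.algebraMap_apply R1 R2 R3] at h1
      exact h1
  · refine σf _ (Ideal.Quotient.liftₐ (Ideal.span {e})
      ((Ideal.Quotient.mkₐ C (Ideal.span {φ e})).comp φ) ?_)
      ((Ideal.Quotient.mk (Ideal.span {φ e})).comp g0) ?_
    · intro a ha
      obtain ⟨b, rfl⟩ := Ideal.mem_span_singleton'.1 ha
      change Ideal.Quotient.mk (Ideal.span {φ e}) (φ (b * e)) = 0
      rw [Ideal.Quotient.eq_zero_iff_mem, map_mul]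
      exact Ideal.mul_mem_left _ _ (Ideal.mem_span_singleton_self _)
    · intro x
      exact congrArg (Ideal.Quotient.mk (Ideal.span {φ e})) (hφ x)

/-- the conclusion -/
def H2Concl (R C D : Type u) [CommRing R] [CommRing C] [CommRing D] [Algebra R C] [Algebra C D]
    (m : Ideal R) [m.IsPrime] : Prop :=
  ∃ (R' : Type u) (_ : CommRing R') (_ : Algebra R R') (_ : Algebra.Etale R R')
      (m' : Ideal R') (_ : m'.IsPrime) (_ : m'.LiesOver m),
      Function.Bijective
        (Ideal.ResidueField.mapₐ m m' (Algebra.ofId R R') (m'.over_def m)) ∧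
      Nonempty (D →ₐ[C] (C ⊗[R] R'))

theorem h2_base {R C D : Type u} [CommRing R] [CommRing C] [CommRing D] [Algebra R C]
    [Module.Finite R C] [Algebra C D] (m : Ideal R) [m.IsPrime]
    (h : ∀ q : Ideal C, q.IsPrime → q.LiesOver m → False) : H2Concl R C D m := by
  obtain ⟨g, hg, hgm⟩ : ∃ g, algebraMap R C g = 0 ∧ g ∉ m := by
    by_contra hcon
    push Not at hcon
    obtain ⟨Q, -, hQ1, hQ2⟩ := Ideal.exists_ideal_over_prime_of_isIntegral m (⊥ : Ideal C) (by
      intro x hx
      exact hcon x hx)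
    exact h Q hQ1 ⟨hQ2.symm⟩
  have hd : Disjoint (Submonoid.powers g : Set R) (m : Set R) := by
    rwa [Ideal.disjoint_powers_iff_notMem_of_isPrime]
  let Pf := m.map (algebraMap R (Localization.Away g))
  have h1 : Pf.IsPrime := IsLocalization.isPrime_of_isPrime_disjoint (.powers g) _ _ ‹_› hd
  have h2 : Pf.LiesOver m := IsLocalization.liesOver_map_of_isPrime_disjoint (.powers g) _ hd
  refine ⟨Localization.Away g, inferInstance, inferInstance, inferInstance, Pf, h1, h2, ?_, ?_⟩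
  · exact (RingHom.surjectiveOnStalks_of_isLocalization (.powers g)
      _).residueFieldMap_bijective _ _ _
  · have h3 : (1 : C ⊗[R] Localization.Away g) = 0 := by
      have h4 : IsUnit (algebraMap R (Localization.Away g) g) :=
        IsLocalization.Away.algebraMap_isUnit g
      obtain ⟨u, hu⟩ := h4
      have h5 : (1 : Localization.Away g) = g • (↑u⁻¹ : Localization.Away g) := by
        rw [Algebra.smul_def, ← hu]
        simp
      rw [Algebra.TensorProduct.one_def, h5, TensorProduct.tmul_smul, TensorProduct.smul_tmul',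
        Algebra.smul_def, hg, zero_mul, TensorProduct.zero_tmul]
    have h4 : Subsingleton (C ⊗[R] Localization.Away g) := subsingleton_of_zero_eq_one h3.symm
    exact ⟨{ toFun := fun _ => 0, map_one' := Subsingleton.elim _ _,
             map_mul' := fun _ _ => Subsingleton.elim _ _, map_zero' := Subsingleton.elim _ _,
             map_add' := fun _ _ => Subsingleton.elim _ _,
             commutes' := fun _ => Subsingleton.elim _ _ }⟩

theorem h2_local {R1 C D Ce : Type u} [CommRing R1] [CommRing C] [CommRing D] [CommRing Ce]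
    [Algebra R1 Ce] [Module.Finite R1 Ce] [Algebra C Ce] [Algebra C D] [Algebra.Etale C D]
    (m1 : Ideal R1) [m1.IsPrime] (qe : Ideal Ce) [qe.IsPrime] [qe.LiesOver m1]
    (hq : ∀ q' : Ideal Ce, q'.IsPrime → q'.LiesOver m1 → q' = qe)
    (H : Nonempty ((Ce ⊗[C] D) →ₐ[Ce] qe.ResidueField)) :
    ∃ (R2 : Type u) (_ : CommRing R2) (_ : Algebra R1 R2) (_ : Algebra.Etale R1 R2)
      (m2 : Ideal R2) (_ : m2.IsPrime) (_ : m2.LiesOver m1),
      Function.Bijective
        (Ideal.ResidueField.mapₐ m1 m2 (Algebra.ofId R1 R2) (m2.over_def m1)) ∧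
      H2Push C D R1 R2 Ce := by
  obtain ⟨σ⟩ := H
  obtain ⟨r, h1, h2, h3⟩ := h2_ofHom qe σ
  obtain ⟨R2, i1, i2, i3, m2, i4, i5, i6, ⟨τ⟩⟩ := etale_section_local m1 qe hq r h3
  exact ⟨R2, i1, i2, i3, m2, i4, i5, i6, fun X _ _ f g hfg => h2_push τ f g hfg⟩

/-- composition of etale neighbourhoods with trivial residue field extensions -/
theorem h2_comp {R R1 R2 : Type u} [CommRing R] [CommRing R1] [CommRing R2] [Algebra R R1]
    [Algebra R1 R2] [Algebra R R2] [IsScalarTower R R1 R2] (m : Ideal R) [m.IsPrime]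
    (m1 : Ideal R1) [m1.IsPrime] [m1.LiesOver m] (m2 : Ideal R2) [m2.IsPrime] [m2.LiesOver m1]
    [m2.LiesOver m]
    (h1 : Function.Bijective (Ideal.ResidueField.mapₐ m m1 (Algebra.ofId R R1) (m1.over_def m)))
    (h2 : Function.Bijective
      (Ideal.ResidueField.mapₐ m1 m2 (Algebra.ofId R1 R2) (m2.over_def m1))) :
    Function.Bijective (Ideal.ResidueField.mapₐ m m2 (Algebra.ofId R R2) (m2.over_def m)) := by
  have h3 : Ideal.ResidueField.mapₐ m m2 (Algebra.ofId R R2) (m2.over_def m) =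
      ((Ideal.ResidueField.mapₐ m1 m2 (Algebra.ofId R1 R2) (m2.over_def m1)).restrictScalars R).comp
        (Ideal.ResidueField.mapₐ m m1 (Algebra.ofId R R1) (m1.over_def m)) := by
    apply Ideal.ResidueField.algHom_ext
    ext
  rw [h3]
  exact h2.comp h1

theorem h2_unique {R1 C1 : Type u} [CommRing R1] [CommRing C1] [Algebra R1 C1] (m1 : Ideal R1)
    (P' : Ideal C1) [P'.IsPrime] [P'.LiesOver m1] (e : C1) (he : IsIdempotentElem e)
    (heP' : e ∉ P')
    (huniq : ∀ P'' : Ideal C1, P''.IsPrime → P''.LiesOver m1 → e ∉ P'' → P'' = P') :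
    ∃ (qe : Ideal (C1 ⧸ Ideal.span {1 - e})) (_ : qe.IsPrime) (_ : qe.LiesOver m1),
      ∀ q' : Ideal (C1 ⧸ Ideal.span {1 - e}), q'.IsPrime → q'.LiesOver m1 → q' = qe := by
  have hee : e * e = e := he
  have h1e : 1 - e ∈ P' := by
    have h1 : e * (1 - e) ∈ P' := by
      have : e * (1 - e) = 0 := by linear_combination -hee
      rw [this]
      exact P'.zero_mem
    exact (Ideal.IsPrime.mem_or_mem ‹_› h1).resolve_left heP'
  have hI1 : Ideal.span {1 - e} ≤ P' := by
    rw [Ideal.span_singleton_le_iff_mem]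
    exact h1e
  have hcm : (P'.map (Ideal.Quotient.mk (Ideal.span {1 - e}))).comap
      (Ideal.Quotient.mk (Ideal.span {1 - e})) = P' := Ideal.comap_map_mk hI1
  refine ⟨P'.map (Ideal.Quotient.mk _), Ideal.map_isPrime_of_surjective
    Ideal.Quotient.mk_surjective (by simpa using hI1), ⟨?_⟩, ?_⟩
  · calc m1 = P'.comap (algebraMap R1 C1) := P'.over_def m1
      _ = ((P'.map (Ideal.Quotient.mk (Ideal.span {1 - e}))).comap
            (Ideal.Quotient.mk (Ideal.span {1 - e}))).comap (algebraMap R1 C1) := by rw [hcm]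
      _ = _ := rfl
  · intro q' hq' hq'm
    have h2 : (q'.comap (Ideal.Quotient.mk (Ideal.span {1 - e}))) = P' := by
      refine huniq _ inferInstance ⟨?_⟩ ?_
      · rw [q'.over_def m1]
        rfl
      · intro h3
        have h4 : (1 - e) ∈ q'.comap (Ideal.Quotient.mk (Ideal.span {1 - e})) := by
          rw [Ideal.mem_comap, Ideal.Quotient.eq_zero_iff_mem.2 (Ideal.mem_span_singleton_self _)]
          exact q'.zero_mem
        have h5 := Ideal.add_mem _ h3 h4
        rw [add_sub_cancel, ← Ideal.eq_top_iff_one] at h5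
        exact (Ideal.IsPrime.ne_top (I := q'.comap (Ideal.Quotient.mk (Ideal.span {1 - e})))
          inferInstance) h5
    rw [← h2]
    exact (Ideal.map_comap_of_surjective _ Ideal.Quotient.mk_surjective _).symm

theorem h2_commf {R R1 R2 C Cf : Type u} [CommRing R] [CommRing R1] [CommRing R2] [CommRing C]
    [CommRing Cf] [Algebra R R1] [Algebra R1 R2] [Algebra R R2] [IsScalarTower R R1 R2]
    [Algebra R1 Cf] [Algebra R C] [Algebra C Cf] [Algebra C (R2 ⊗[R1] Cf)]
    (hinst : ∀ c, algebraMap C (R2 ⊗[R1] Cf) c = 1 ⊗ₜ[R1] algebraMap C Cf c)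
    (h1 : ∀ x : R, algebraMap R1 Cf (algebraMap R R1 x) = algebraMap C Cf (algebraMap R C x))
    (x : R) : algebraMap R2 (R2 ⊗[R1] Cf) (algebraMap R R2 x) =
      algebraMap C (R2 ⊗[R1] Cf) (algebraMap R C x) := by
  rw [hinst, ← h1, IsScalarTower.algebraMap_apply R R1 R2,
    Algebra.TensorProduct.algebraMap_apply, Algebra.algebraMap_self_apply,
    Algebra.algebraMap_eq_smul_one, Algebra.algebraMap_eq_smul_one (algebraMap R R1 x),
    TensorProduct.tmul_smul, TensorProduct.smul_tmul']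

/-- the statement proved by induction -/
def H2Ind (n : ℕ) : Prop := ∀ (R C D : Type u) [CommRing R] [CommRing C] [CommRing D] [Algebra R C]
    [Module.Finite R C] [Algebra C D] [Algebra.Etale C D] (m : Ideal R) [m.IsPrime],
    (m.primesOver C).ncard = n →
    (∀ (q : Ideal C) [q.IsPrime] [q.LiesOver m], Nonempty (D →ₐ[C] q.ResidueField)) →
    H2Concl R C D m

theorem h2_second {R R1 R2 C D Cf : Type u} [CommRing R] [CommRing R1] [CommRing R2] [CommRing C]
    [CommRing D] [CommRing Cf] [Algebra R R1] [Algebra R1 R2] [Algebra R R2]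
    [IsScalarTower R R1 R2] [Algebra R1 Cf] [Module.Finite R1 Cf] [Algebra R C] [Algebra C Cf]
    [Algebra C D] [Algebra.Etale C D] (m : Ideal R) [m.IsPrime] (m1 : Ideal R1) [m1.IsPrime]
    (m2 : Ideal R2) [m2.IsPrime] [m2.LiesOver m1] [m2.LiesOver m]
    (hm2 : Function.Bijective
      (Ideal.ResidueField.mapₐ m1 m2 (Algebra.ofId R1 R2) (m2.over_def m1)))
    (h1 : ∀ x : R, algebraMap R1 Cf (algebraMap R R1 x) = algebraMap C Cf (algebraMap R C x))
    (IH : H2Ind.{u} (m1.primesOver Cf).ncard)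
    (H : ∀ (q : Ideal C) [q.IsPrime] [q.LiesOver m], Nonempty (D →ₐ[C] q.ResidueField)) :
    ∃ (R3 : Type u) (_ : CommRing R3) (_ : Algebra R2 R3) (_ : Algebra.Etale R2 R3)
      (m3 : Ideal R3) (_ : m3.IsPrime) (_ : m3.LiesOver m2),
      Function.Bijective
        (Ideal.ResidueField.mapₐ m2 m3 (Algebra.ofId R2 R3) (m3.over_def m2)) ∧
      ∀ (_ : Algebra R1 R3) (_ : IsScalarTower R1 R2 R3), H2Push C D R1 R3 Cf := by
  let _ : Algebra Cf (R2 ⊗[R1] Cf) := Algebra.TensorProduct.rightAlgebra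
  let _ : Algebra C (R2 ⊗[R1] Cf) := Algebra.compHom _ (algebraMap C Cf)
  have hcommf := h2_commf (R := R) (R1 := R1) (R2 := R2) (C := C) (Cf := Cf) (fun _ => rfl) h1
  have hcount : (m2.primesOver (R2 ⊗[R1] Cf)).ncard = (m1.primesOver Cf).ncard := by
    let F := Ideal.fiberIsoOfBijectiveResidueField hm2 (S := Cf)
    rw [← Nat.card_coe_set_eq, Nat.card_congr F.toEquiv, Nat.card_coe_set_eq]
  obtain ⟨R3, i1, i2, i3, m3, i4, i5, i6, ⟨σf⟩⟩ := IH R2 (R2 ⊗[R1] Cf) ((R2 ⊗[R1] Cf) ⊗[C] D) m2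
    hcount (fun q' _ _ => h2_transfer hcommf m m2 H q')
  refine ⟨R3, i1, i2, i3, m3, i4, i5, i6, fun _ _ X _ _ f g hfg => ?_⟩
  refine h2_push2 (fun _ => rfl) σf f g fun x => ?_
  rw [hfg, IsScalarTower.algebraMap_apply R1 R2 R3]

theorem h2_main (n : ℕ) : H2Ind.{u} n := by
  induction n using Nat.strong_induction_on with
  | h n IH =>
  intro R C D _ _ _ _ _ _ _ m _ hn H
  by_cases hq0 : ∀ q : Ideal C, q.IsPrime → q.LiesOver m → False
  · exact h2_base m hq0
  push Not at hq0
  obtain ⟨q, hqp, hqm, -⟩ := hq0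
  have hfin : (m.primesOver C).Finite := by
    have : IsArtinianRing (m.ResidueField ⊗[R] C) := IsArtinianRing.of_finite m.ResidueField _
    exact (PrimeSpectrum.primesOverOrderIsoFiber R C m).finite_iff.mpr inferInstance
  obtain ⟨R1, _, _, _, m1, _, _, e, he, P', _, _, hP'q, heP', hm1, _, huniq⟩ :=
    Algebra.exists_etale_isIdempotentElem_forall_liesOver_eq m q
  let _ : Algebra C (R1 ⊗[R] C) := Algebra.TensorProduct.rightAlgebra
  have hcomm1 : ∀ x : R, algebraMap R1 (R1 ⊗[R] C) (algebraMap R R1 x) =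
      algebraMap C (R1 ⊗[R] C) (algebraMap R C x) := by
    intro x
    change (algebraMap R R1 x) ⊗ₜ[R] (1 : C) = (1 : R1) ⊗ₜ[R] (algebraMap R C x)
    rw [Algebra.algebraMap_eq_smul_one, Algebra.algebraMap_eq_smul_one, TensorProduct.tmul_smul,
      TensorProduct.smul_tmul']
  obtain ⟨qe, _, _, hqe⟩ := h2_unique m1 P' e he heP' huniq
  obtain ⟨R2, _, _, _, m2, _, _, hm2, σe⟩ := h2_local (C := C) (D := D) m1 qe hqe
    (h2_transfer (R := R) (C := C) (Ra := R1) (Ca := (R1 ⊗[R] C) ⧸ Ideal.span {1 - e})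
      (fun x => congrArg (Ideal.Quotient.mk (Ideal.span {1 - e})) (hcomm1 x)) m m1 H qe)
  have hcount : (m1.primesOver ((R1 ⊗[R] C) ⧸ Ideal.span {e})).ncard < n := by
    let F := Ideal.fiberIsoOfBijectiveResidueField hm1 (S := C)
    refine (Ideal.ncard_primesOver_quotient_singleton_lt_of_notMem _ _
      P' heP' (F.finite_iff.mpr hfin)).trans_le ?_
    rw [← hn, ← Nat.card_coe_set_eq, ← Nat.card_coe_set_eq, Nat.card_congr F.toEquiv]
  let _ : Algebra R R2 := ((algebraMap R1 R2).comp (algebraMap R R1)).toAlgebra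
  have : IsScalarTower R R1 R2 := IsScalarTower.of_algebraMap_eq' rfl
  have : m2.LiesOver m := .trans _ m1 _
  obtain ⟨R3, _, _, _, m3, _, _, hm3, σf⟩ := h2_second (D := D) m m1 m2 hm2
    (fun x => congrArg (Ideal.Quotient.mk (Ideal.span {e})) (hcomm1 x)) (IH _ hcount) H
  let _ : Algebra R R3 := ((algebraMap R2 R3).comp (algebraMap R R2)).toAlgebra
  let _ : Algebra R1 R3 := ((algebraMap R2 R3).comp (algebraMap R1 R2)).toAlgebra
  have : IsScalarTower R R2 R3 := IsScalarTower.of_algebraMap_eq' rfl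
  have : IsScalarTower R1 R2 R3 := IsScalarTower.of_algebraMap_eq' rfl
  have : m3.LiesOver m := .trans _ m2 _
  have : Algebra.Etale R R2 := Algebra.Etale.comp R R1 R2
  refine ⟨R3, inferInstance, inferInstance, Algebra.Etale.comp R R2 R3, m3, inferInstance,
    inferInstance, h2_comp m m2 m3 (h2_comp m m1 m2 hm1 hm2) hm3, ?_⟩
  let g0 : R3 →+* C ⊗[R] R3 :=
    (Algebra.TensorProduct.includeRight : R3 →ₐ[R] C ⊗[R] R3).toRingHom
  let α : R1 →ₐ[R] C ⊗[R] R3 :=
    { g0.comp (algebraMap R1 R3) with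
      commutes' := fun x => (Algebra.TensorProduct.includeRight : R3 →ₐ[R] C ⊗[R] R3).commutes x }
  let φ : (R1 ⊗[R] C) →ₐ[C] C ⊗[R] R3 :=
    { (Algebra.TensorProduct.productMap α
        (Algebra.TensorProduct.includeLeft : C →ₐ[R] C ⊗[R] R3)).toRingHom with
      commutes' := fun c => by
        change Algebra.TensorProduct.productMap α
          (Algebra.TensorProduct.includeLeft : C →ₐ[R] C ⊗[R] R3) (1 ⊗ₜ[R] c) = _
        rw [Algebra.TensorProduct.productMap_apply_tmul, map_one, one_mul]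
        rfl }
  refine h2_assemble φ g0 ?_ e he σe (σf _ inferInstance)
  intro x
  change Algebra.TensorProduct.productMap α
    (Algebra.TensorProduct.includeLeft : C →ₐ[R] C ⊗[R] R3) (x ⊗ₜ[R] 1) = _
  rw [Algebra.TensorProduct.productMap_apply_tmul, map_one, mul_one]
  rfl

theorem etale_section_of_residue {R C D : Type u} [CommRing R] [CommRing C] [CommRing D]
    [Algebra R C] [Module.Finite R C] [Algebra C D] [Algebra.Etale C D] (m : Ideal R) [m.IsPrime]
    (hres : ∀ (q : Ideal C) [q.IsPrime] [q.LiesOver m],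
      ∃ (r : Ideal D) (_ : r.IsPrime) (_ : r.LiesOver q), Function.Bijective
        (Ideal.ResidueField.mapₐ q r (Algebra.ofId C D) (r.over_def q))) :
    ∃ (R' : Type u) (_ : CommRing R') (_ : Algebra R R') (_ : Algebra.Etale R R')
      (m' : Ideal R') (_ : m'.IsPrime) (_ : m'.LiesOver m),
      Function.Bijective
        (Ideal.ResidueField.mapₐ m m' (Algebra.ofId R R') (m'.over_def m)) ∧
      Nonempty (D →ₐ[C] (C ⊗[R] R')) := by
  refine h2_main _ R C D m rfl fun q _ _ => ?_
  obtain ⟨r, _, _, hr⟩ := hres q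
  exact h2_toHom q r hr

end H694
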