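import Mathlib
import Pool.Agent.H694_ABV.Alg.H2

/-! # Etale local sections -/

universe u

open TensorProduct


/-- Nullstellensatz: a nonzero finitely generated algebra over an algebraically closed field has a
point -/
lemma H442.exists_point (Ω A : Type u) [Field Ω] [IsAlgClosed Ω] [CommRing A] [Algebra Ω A]
    [Algebra.FiniteType Ω A] [Nontrivial A] : Nonempty (A →ₐ[Ω] Ω) := by
  obtain ⟨m, hm⟩ := Ideal.exists_maximal A
  let := Ideal.Quotient.field m
  have : Module.Finite Ω (A ⧸ m) := finite_of_finite_type_of_isJacobsonRing Ω (A ⧸ m)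
  exact ⟨(IsAlgClosed.lift (R := Ω) (S := A ⧸ m) (M := Ω)).comp (Ideal.Quotient.mkₐ Ω m)⟩

lemma H442.extend {C D Ω : Type u} [CommRing C] [CommRing D] [Algebra C D] [Algebra.Etale C D]
    (hsurj : Function.Surjective (PrimeSpectrum.comap (algebraMap C D)))
    [Field Ω] [IsAlgClosed Ω] (φ : C →+* Ω) : ∃ ψ : D →+* Ω, ψ.comp (algebraMap C D) = φ := by
  have : Module.FaithfullyFlat C D := Module.FaithfullyFlat.of_comap_surjective hsurj
  let := φ.toAlgebra
  have : Nontrivial (Ω ⊗[C] D) := inferInstance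
  obtain ⟨f⟩ := H442.exists_point Ω (Ω ⊗[C] D)
  refine ⟨(f : (Ω ⊗[C] D) →+* Ω).comp
    ((Algebra.TensorProduct.includeRight : D →ₐ[C] Ω ⊗[C] D) : D →+* Ω ⊗[C] D), ?_⟩
  ext c
  simp only [RingHom.comp_apply, AlgHom.coe_toRingHom]
  have h1 : (Algebra.TensorProduct.includeRight : D →ₐ[C] Ω ⊗[C] D) (algebraMap C D c) =
      algebraMap Ω (Ω ⊗[C] D) (φ c) := by
    rw [AlgHom.commutes]
    rw [IsScalarTower.algebraMap_apply C Ω (Ω ⊗[C] D)]
    rfl
  exact (congrArg f h1).trans (f.commutes (φ c))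

lemma H442.residue {C D Ω : Type u} [CommRing C] [CommRing D] [Algebra C D] [Field Ω]
    (β : D →+* Ω) (h : ∀ d : D, ∃ c : C, β (algebraMap C D c) = β d) (q : Ideal C) [q.IsPrime]
    (hq : RingHom.ker (β.comp (algebraMap C D)) = q) :
    ∃ (r : Ideal D) (_ : r.IsPrime) (_ : r.LiesOver q), Function.Bijective
        (Ideal.ResidueField.mapₐ q r (Algebra.ofId C D) (r.over_def q)) := by
  have hr : (RingHom.ker β).IsPrime := RingHom.ker_isPrime β
  have hl : (RingHom.ker β).LiesOver q := ⟨by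
    rw [← hq]; rfl⟩
  refine ⟨RingHom.ker β, hr, hl, RingHom.injective _, ?_⟩
  set r := RingHom.ker β with hrdef
  have key : ∀ d : D, ∃ c : C, algebraMap D r.ResidueField d =
      Ideal.ResidueField.mapₐ q r (Algebra.ofId C D) (r.over_def q)
        (algebraMap C q.ResidueField c) := by
    intro d
    obtain ⟨c, hc⟩ := h d
    refine ⟨c, ?_⟩
    have h3 : Ideal.ResidueField.mapₐ q r (Algebra.ofId C D) (r.over_def q)
        (algebraMap C q.ResidueField c) = algebraMap D r.ResidueField (algebraMap C D c) :=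
      Ideal.ResidueField.map_algebraMap q r (algebraMap C D) (r.over_def q) c
    rw [h3]
    have h1 : d - algebraMap C D c ∈ r := by
      rw [hrdef, RingHom.mem_ker, map_sub, hc, sub_self]
    have h2 : algebraMap D r.ResidueField (d - algebraMap C D c) = 0 := by
      rw [Ideal.algebraMap_residueField_eq_zero]; exact h1
    rw [map_sub, sub_eq_zero] at h2
    exact h2
  intro x
  obtain ⟨a, b, hb, rfl⟩ := IsFractionRing.div_surjective (A := D ⧸ r) x
  obtain ⟨a, rfl⟩ := Ideal.Quotient.mk_surjective a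
  obtain ⟨b, rfl⟩ := Ideal.Quotient.mk_surjective b
  obtain ⟨c₁, h₁⟩ := key a
  obtain ⟨c₂, h₂⟩ := key b
  refine ⟨algebraMap C q.ResidueField c₁ / algebraMap C q.ResidueField c₂, ?_⟩
  rw [map_div₀, ← h₁, ← h₂]
  rfl

lemma H442.lift_point {A B Ω : Type u} [CommRing A] [CommRing B] [Algebra A B]
    [Algebra.IsIntegral A B] [Field Ω] [IsAlgClosed Ω] (lam : A →+* Ω) (p : Ideal A) [p.IsPrime]
    (hp : RingHom.ker lam = p) (q : Ideal B) [q.IsPrime] [q.LiesOver p] :
    ∃ ι : B →+* Ω, ι.comp (algebraMap A B) = lam ∧ RingHom.ker ι = q := by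
  let : Algebra (A ⧸ p) Ω := (Ideal.Quotient.lift p lam (by
    intro a ha; rw [← hp] at ha; exact ha)).toAlgebra
  have hinj : Function.Injective (algebraMap (A ⧸ p) Ω) := by
    rw [injective_iff_map_eq_zero]
    intro x hx
    obtain ⟨x, rfl⟩ := Ideal.Quotient.mk_surjective x
    have h1 : lam x = 0 := hx
    rw [Ideal.Quotient.eq_zero_iff_mem, ← hp]
    exact h1
  have tf1 : Module.IsTorsionFree (A ⧸ p) Ω :=
    Module.isTorsionFree_iff_algebraMap_injective.2 hinj
  have hint : Algebra.IsIntegral (A ⧸ p) (B ⧸ q) := inferInstance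
  have hdA : IsDomain (A ⧸ p) := inferInstance
  have hdB : IsDomain (B ⧸ q) := inferInstance
  have hdalg : Algebra.IsAlgebraic (A ⧸ p) (B ⧸ q) := inferInstance
  have hf : FaithfulSMul (A ⧸ p) (B ⧸ q) := inferInstance
  have tf2 : Module.IsTorsionFree (A ⧸ p) (B ⧸ q) :=
    Module.isTorsionFree_iff_faithfulSMul.2 hf
  let f : (B ⧸ q) →ₐ[A ⧸ p] Ω := IsAlgClosed.lift
  refine ⟨(f : (B ⧸ q) →+* Ω).comp (Ideal.Quotient.mk q), ?_, ?_⟩
  · ext a
    have h1 := f.commutes (Ideal.Quotient.mk p a)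
    exact h1
  · have hf : RingHom.ker (f : (B ⧸ q) →+* Ω) = ⊥ := by
      apply Ideal.eq_bot_of_comap_eq_bot (R := A ⧸ p)
      rw [eq_bot_iff]
      intro x hx
      have h2 : f (algebraMap (A ⧸ p) (B ⧸ q) x) = 0 := hx
      rw [f.commutes] at h2
      have := (injective_iff_map_eq_zero _).1 hinj x h2
      exact this
    ext x
    rw [RingHom.mem_ker, RingHom.comp_apply, ← RingHom.mem_ker, hf, Ideal.mem_bot,
      Ideal.Quotient.eq_zero_iff_mem]

lemma H442.etale_of_finite (k K : Type u) [Field k] [PerfectField k] [Field K] [Algebra k K]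
    [Module.Finite k K] : Algebra.Etale k K := by
  have h1 : Algebra.IsSeparable k K := inferInstance
  have h2 : Algebra.FormallyEtale k K := Algebra.FormallyEtale.of_isSeparable k K
  have h3 : Algebra.FinitePresentation k K := Algebra.FinitePresentation.of_finiteType.mp inferInstance
  exact ⟨h2, h3⟩

/-- the field `K` -/
lemma H442.exists_field {k R C D Ω : Type u} [Field k] [CommRing R] [Algebra k R]
    [Algebra.FiniteType k R] [CommRing C] [Algebra R C] [Module.Finite R C] [CommRing D]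
    [Algebra C D] [Algebra.Etale C D]
    (hsurj : Function.Surjective (PrimeSpectrum.comap (algebraMap C D)))
    [Field Ω] [IsAlgClosed Ω] [Algebra k Ω] [Algebra.IsAlgebraic k Ω] (χ : R →ₐ[k] Ω) :
    ∃ K : IntermediateField k Ω, FiniteDimensional k K ∧
      ∀ φ : C →+* Ω, φ.comp (algebraMap R C) = χ → ∃ ψ : D →+* Ω,
        ψ.comp (algebraMap C D) = φ ∧ ∀ d, ψ d ∈ K := by
  classical
  let : Algebra k C := ((algebraMap R C).comp (algebraMap k R)).toAlgebra
  have : IsScalarTower k R C := .of_algebraMap_eq' rfl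
  let : Algebra k D := ((algebraMap C D).comp (algebraMap k C)).toAlgebra
  have : IsScalarTower k C D := .of_algebraMap_eq' rfl
  have ftC : Algebra.FiniteType k C := Algebra.FiniteType.trans (S := R) inferInstance inferInstance
  have ftD : Algebra.FiniteType k D := Algebra.FiniteType.trans (S := C) ftC inferInstance
  let : Algebra R Ω := (χ : R →+* Ω).toAlgebra
  have hfin : Finite (C →ₐ[R] Ω) := inferInstance
  obtain ⟨G, hG⟩ := ftD.out
  choose ext hext using fun φ : C →ₐ[R] Ω => H442.extend hsurj (φ : C →+* Ω)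
  have hextk : ∀ (φ : C →ₐ[R] Ω) (a : k), ext φ (algebraMap k D a) = algebraMap k Ω a := by
    intro φ a
    have h1 : ext φ (algebraMap C D (algebraMap k C a)) = φ (algebraMap k C a) :=
      congrArg (fun f : C →+* Ω => f (algebraMap k C a)) (hext φ)
    have h2 : φ (algebraMap R C (algebraMap k R a)) = χ (algebraMap k R a) := φ.commutes _
    rw [χ.commutes] at h2
    exact h1.trans h2
  let Ψ : (C →ₐ[R] Ω) → (D →ₐ[k] Ω) := fun φ => { ext φ with commutes' := hextk φ }
  let T : Set Ω := ⋃ φ : C →ₐ[R] Ω, (Ψ φ) '' (G : Set D)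
  have hT : T.Finite := Set.finite_iUnion fun φ => (G.finite_toSet).image _
  have : Finite T := hT
  refine ⟨IntermediateField.adjoin k T, ?_, ?_⟩
  · exact IntermediateField.finiteDimensional_adjoin fun x _ =>
      (Algebra.IsAlgebraic.isAlgebraic x).isIntegral
  · intro φ hφ
    let φ' : C →ₐ[R] Ω := { φ with commutes' := fun r => congrArg (fun f : R →+* Ω => f r) hφ }
    refine ⟨ext φ', ?_, ?_⟩
    · rw [hext φ']; rfl
    · intro d
      have h1 : (Ψ φ').range ≤ (IntermediateField.adjoin k T).toSubalgebra := by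
        rw [← Algebra.map_top, ← hG, AlgHom.map_adjoin]
        apply Algebra.adjoin_le
        intro x hx
        have hxT : x ∈ T := Set.mem_iUnion.2 ⟨φ', hx⟩
        exact IntermediateField.subset_adjoin k T hxT
      exact h1 ⟨d, rfl⟩

/-- the given section for `R_K` produces one for `R` -/
lemma H442.transfer {R RK C D R' : Type u} [CommRing R] [CommRing RK] [Algebra R RK] [CommRing C]
    [Algebra R C] [CommRing D] [Algebra C D] [CommRing R'] [Algebra RK R'] [Algebra R R']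
    [IsScalarTower R RK R'] (CK : Type u) [CommRing CK] [Algebra RK CK] [Algebra C CK]
    (s : D →+* (CK ⊗[RK] R'))
    (hs : ∀ c : C, s (algebraMap C D c) = (algebraMap C CK c) ⊗ₜ[RK] (1 : R'))
    (a : CK →+* (C ⊗[R] R')) (ha : ∀ x : RK, a (algebraMap RK CK x) = 1 ⊗ₜ algebraMap RK R' x)
    (ha' : ∀ c : C, a (algebraMap C CK c) = c ⊗ₜ 1) :
    Nonempty (D →ₐ[C] (C ⊗[R] R')) := by
  let j : R' →+* (C ⊗[R] R') :=
    (Algebra.TensorProduct.includeRight : R' →ₐ[R] C ⊗[R] R')
  let : Algebra RK (C ⊗[R] R') := (j.comp (algebraMap RK R')).toAlgebra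
  let a' : CK →ₐ[RK] (C ⊗[R] R') := { a with commutes' := fun x => ha x }
  let j' : R' →ₐ[RK] (C ⊗[R] R') := { j with commutes' := fun x => rfl }
  let b : CK ⊗[RK] R' →ₐ[RK] (C ⊗[R] R') := Algebra.TensorProduct.productMap a' j'
  let F : D →+* (C ⊗[R] R') := (b : CK ⊗[RK] R' →+* (C ⊗[R] R')).comp s
  refine ⟨{ F with commutes' := ?_ }⟩
  intro c
  show b (s (algebraMap C D c)) = algebraMap C (C ⊗[R] R') c
  rw [hs]
  show Algebra.TensorProduct.productMap a' j' ((algebraMap C CK c) ⊗ₜ[RK] (1 : R')) = _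
  rw [Algebra.TensorProduct.productMap_apply_tmul, map_one, mul_one]
  exact ha' c

attribute [local instance] Algebra.TensorProduct.rightAlgebra in
lemma H442.step {R C D RK Ω : Type u} [CommRing R] [CommRing C] [Algebra R C] [Module.Finite R C]
    [CommRing D] [Algebra C D] [Algebra.Etale C D] [CommRing RK] [Algebra R RK]
    [Algebra.Etale R RK] [Field Ω] [IsAlgClosed Ω] (lam : RK →+* Ω)
    (hext : ∀ φ : C →+* Ω, φ.comp (algebraMap R C) = lam.comp (algebraMap R RK) →
      ∃ ψ : D →+* Ω, ψ.comp (algebraMap C D) = φ ∧ ∀ d, ∃ x, lam x = ψ d)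
    (m : Ideal R) (hm : ∀ x : R, x ∈ m ↔ lam (algebraMap R RK x) = 0) :
    ∃ (R' : Type u) (_ : CommRing R') (_ : Algebra R R') (_ : Algebra.Etale R R')
      (m' : Ideal R') (_ : m'.IsPrime) (_ : m'.LiesOver m),
      Nonempty (D →ₐ[C] (C ⊗[R] R')) := by
  have hmK : (RingHom.ker lam).IsPrime := RingHom.ker_isPrime _
  have hmKm : (RingHom.ker lam).LiesOver m := ⟨by
    ext x
    exact hm x⟩
  have hres : ∀ (q : Ideal (RK ⊗[R] C)) [q.IsPrime] [q.LiesOver (RingHom.ker lam)],
      ∃ (r : Ideal ((RK ⊗[R] C) ⊗[C] D)) (_ : r.IsPrime) (_ : r.LiesOver q), Function.Bijective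
        (Ideal.ResidueField.mapₐ q r (Algebra.ofId (RK ⊗[R] C) ((RK ⊗[R] C) ⊗[C] D))
          (r.over_def q)) := by
    intro q _ _
    obtain ⟨ι, hι, hιq⟩ := H442.lift_point lam (RingHom.ker lam) rfl q
    have hι' : ∀ x : RK, ι (algebraMap RK (RK ⊗[R] C) x) = lam x := fun x =>
      congrArg (fun f : RK →+* Ω => f x) hι
    let φ : C →+* Ω := ι.comp (algebraMap C (RK ⊗[R] C))
    have hφ : φ.comp (algebraMap R C) = lam.comp (algebraMap R RK) := by
      ext x
      have h1 : algebraMap C (RK ⊗[R] C) (algebraMap R C x) =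
          algebraMap RK (RK ⊗[R] C) (algebraMap R RK x) := by
        show (1 : RK) ⊗ₜ[R] (algebraMap R C x) = (algebraMap R RK x) ⊗ₜ[R] (1 : C)
        rw [Algebra.algebraMap_eq_smul_one, Algebra.algebraMap_eq_smul_one, TensorProduct.tmul_smul,
          TensorProduct.smul_tmul']
      show ι (algebraMap C (RK ⊗[R] C) (algebraMap R C x)) = lam (algebraMap R RK x)
      rw [h1, hι']
    obtain ⟨ψ, hψ, hψK⟩ := hext φ hφ
    let : Algebra C Ω := φ.toAlgebra
    let ι' : (RK ⊗[R] C) →ₐ[C] Ω := { ι with commutes' := fun c => rfl }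
    let ψ' : D →ₐ[C] Ω := { ψ with commutes' := fun c => congrArg (fun f : C →+* Ω => f c) hψ }
    let β : ((RK ⊗[R] C) ⊗[C] D) →ₐ[C] Ω := Algebra.TensorProduct.productMap ι' ψ'
    have hβ : ∀ (x : (RK ⊗[R] C)) (y : D), β (x ⊗ₜ y) = ι x * ψ y := fun x y => by
      show Algebra.TensorProduct.productMap ι' ψ' (x ⊗ₜ y) = _
      rw [Algebra.TensorProduct.productMap_apply_tmul]
      rfl
    have hβ1 : ∀ x : (RK ⊗[R] C), β (algebraMap (RK ⊗[R] C) ((RK ⊗[R] C) ⊗[C] D) x) = ι x := by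
      intro x
      show β (x ⊗ₜ 1) = ι x
      rw [hβ, map_one, mul_one]
    refine H442.residue β.toRingHom ?_ q ?_
    · intro d
      show ∃ c : (RK ⊗[R] C), β (algebraMap (RK ⊗[R] C) ((RK ⊗[R] C) ⊗[C] D) c) = β d
      induction d using TensorProduct.induction_on with
      | zero => exact ⟨0, by rw [map_zero]⟩
      | tmul x y =>
        obtain ⟨z, hz⟩ := hψK y
        refine ⟨x * algebraMap RK (RK ⊗[R] C) z, ?_⟩
        rw [hβ1, hβ, map_mul, hι', hz]
      | add x y hx hy =>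
        obtain ⟨c₁, h₁⟩ := hx
        obtain ⟨c₂, h₂⟩ := hy
        exact ⟨c₁ + c₂, by rw [map_add, map_add, h₁, h₂, map_add]⟩
    · rw [← hιq]
      ext x
      rw [RingHom.mem_ker, RingHom.mem_ker]
      show β (algebraMap (RK ⊗[R] C) ((RK ⊗[R] C) ⊗[C] D) x) = 0 ↔ _
      rw [hβ1]
  obtain ⟨R', _, _, hE, m', hm', hm'K, -, ⟨s⟩⟩ :=
    H694.etale_section_of_residue (R := RK) (C := (RK ⊗[R] C)) (D := ((RK ⊗[R] C) ⊗[C] D))
      (RingHom.ker lam) hres
  let : Algebra R R' := ((algebraMap RK R').comp (algebraMap R RK)).toAlgebra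
  have hst : IsScalarTower R RK R' := .of_algebraMap_eq' rfl
  have hE' : Algebra.Etale R R' := Algebra.Etale.comp R RK R'
  have hm'm : m'.LiesOver m := Ideal.LiesOver.trans m' (RingHom.ker lam) m
  refine ⟨R', inferInstance, inferInstance, hE', m', hm', hm'm, ?_⟩
  -- the map to `C ⊗[R] R'`
  let a : (RK ⊗[R] C) →ₐ[R] (C ⊗[R] R') := Algebra.TensorProduct.productMap
    ((Algebra.TensorProduct.includeRight : R' →ₐ[R] C ⊗[R] R').comp
      (IsScalarTower.toAlgHom R RK R'))
    (Algebra.TensorProduct.includeLeft : C →ₐ[R] C ⊗[R] R')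
  let s' : D →+* ((RK ⊗[R] C) ⊗[RK] R') := s.toRingHom.comp
    (Algebra.TensorProduct.includeRight : D →ₐ[C] ((RK ⊗[R] C) ⊗[C] D)).toRingHom
  refine H442.transfer (RK := RK) (RK ⊗[R] C) s' ?_ a.toRingHom ?_ ?_
  · intro c
    show s ((Algebra.TensorProduct.includeRight : D →ₐ[C] ((RK ⊗[R] C) ⊗[C] D))
      (algebraMap C D c)) = _
    have h1 : (Algebra.TensorProduct.includeRight : D →ₐ[C] ((RK ⊗[R] C) ⊗[C] D))
        (algebraMap C D c) =
        algebraMap (RK ⊗[R] C) ((RK ⊗[R] C) ⊗[C] D) (algebraMap C (RK ⊗[R] C) c) := by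
      rw [AlgHom.commutes]
      exact IsScalarTower.algebraMap_apply C (RK ⊗[R] C) ((RK ⊗[R] C) ⊗[C] D) c
    rw [h1, s.commutes]
    rfl
  · intro x
    show Algebra.TensorProduct.productMap _ _ (x ⊗ₜ[R] (1 : C)) = _
    rw [Algebra.TensorProduct.productMap_apply_tmul, map_one, mul_one]
    rfl
  · intro c
    show Algebra.TensorProduct.productMap _ _ ((1 : RK) ⊗ₜ[R] c) = _
    rw [Algebra.TensorProduct.productMap_apply_tmul, map_one, one_mul]
    rfl

theorem H694.etale_section {k R C D : Type u} [Field k] [PerfectField k] [CommRing R] [Algebra k R]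
    [Algebra.FiniteType k R] [CommRing C] [Algebra R C] [Module.Finite R C] [CommRing D]
    [Algebra C D] [Algebra.Etale C D]
    (hsurj : Function.Surjective (PrimeSpectrum.comap (algebraMap C D)))
    (m : Ideal R) [m.IsMaximal] :
    ∃ (R' : Type u) (_ : CommRing R') (_ : Algebra R R') (_ : Algebra.Etale R R')
      (m' : Ideal R') (_ : m'.IsPrime) (_ : m'.LiesOver m),
      Nonempty (D →ₐ[C] (C ⊗[R] R')) := by
  classical
  let Ω := AlgebraicClosure k
  -- the map `χ`
  let := Ideal.Quotient.field m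
  have hfin : Module.Finite k (R ⧸ m) := finite_of_finite_type_of_isJacobsonRing k (R ⧸ m)
  have halg : Algebra.IsAlgebraic k (R ⧸ m) := inferInstance
  let χ0 : (R ⧸ m) →ₐ[k] Ω := IsAlgClosed.lift
  let χ : R →ₐ[k] Ω := χ0.comp (Ideal.Quotient.mkₐ k m)
  have hχ : ∀ x : R, χ x = 0 ↔ x ∈ m := by
    intro x
    have h1 : χ x = χ0 (Ideal.Quotient.mk m x) := rfl
    rw [h1, map_eq_zero_iff χ0 χ0.injective, Ideal.Quotient.eq_zero_iff_mem]
  obtain ⟨K, hK, hext⟩ := H442.exists_field (C := C) (D := D) hsurj χ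
  have hKe : Algebra.Etale k K := H442.etale_of_finite k K
  have hRK : Algebra.Etale R (R ⊗[k] K) := inferInstance
  let lam : (R ⊗[k] K) →ₐ[k] Ω := Algebra.TensorProduct.productMap χ K.val
  have hlam : ∀ (x : R) (y : K), lam (x ⊗ₜ y) = χ x * (y : Ω) := fun x y => by
    show Algebra.TensorProduct.productMap χ K.val (x ⊗ₜ y) = _
    rw [Algebra.TensorProduct.productMap_apply_tmul]
    rfl
  have hlam1 : ∀ x : R, lam (x ⊗ₜ (1 : K)) = χ x := by
    intro x
    rw [hlam]
    simp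
  refine H442.step (RK := R ⊗[k] K) (Ω := Ω) lam.toRingHom ?_ m ?_
  · intro φ hφ
    obtain ⟨ψ, h1, h2⟩ := hext φ (by
      rw [hφ]
      ext x
      exact hlam1 x)
    refine ⟨ψ, h1, fun d => ⟨(1 : R) ⊗ₜ (⟨ψ d, h2 d⟩ : K), ?_⟩⟩
    show lam ((1 : R) ⊗ₜ (⟨ψ d, h2 d⟩ : K)) = ψ d
    rw [hlam, map_one, one_mul]
  · intro x
    show x ∈ m ↔ lam (x ⊗ₜ (1 : K)) = 0
    rw [hlam1, hχ]
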