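import Mathlib

/-! # Generic splitting of an etale algebra -/

universe u

open TensorProduct

/-- a root of a polynomial with invertible leading coefficient is integral -/
theorem H694.isIntegral_of_unit {R S : Type*} [CommRing R] [CommRing S] [Algebra R S] (x : S)
    (p : Polynomial R) (hu : IsUnit p.leadingCoeff) (hx : Polynomial.aeval x p = 0) :
    IsIntegral R x := by
  obtain ⟨c, hc⟩ := hu.exists_left_inv
  refine ⟨Polynomial.C c * p, Polynomial.monic_C_mul_of_mul_leadingCoeff_eq_one hc, ?_⟩
  rw [← Polynomial.aeval_def, map_mul, hx, mul_zero]

/-- every element of an étale algebra over a domain is algebraic -/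
theorem H694.algebraic {A D : Type u} [CommRing A] [IsDomain A] [CommRing D]
    [Algebra A D] [Algebra.Etale A D] (x : D) : IsAlgebraic A x := by
  have hfl : Module.Flat A D := inferInstance
  have hinj : Function.Injective
      (Algebra.TensorProduct.includeRight : D →ₐ[A] (FractionRing A) ⊗[A] D) :=
    Algebra.TensorProduct.includeRight_injective (IsFractionRing.injective A (FractionRing A))
  have hfin : Module.Finite (FractionRing A) ((FractionRing A) ⊗[A] D) :=
    Algebra.FormallyUnramified.finite_of_free _ _
  have h1 : IsAlgebraic (FractionRing A) ((1 : FractionRing A) ⊗ₜ[A] x) :=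
    (Algebra.IsIntegral.isIntegral (R := FractionRing A) _).isAlgebraic
  have h2 : IsAlgebraic A ((1 : FractionRing A) ⊗ₜ[A] x) :=
    (IsFractionRing.isAlgebraic_iff A (FractionRing A) _).2 h1
  exact (isAlgebraic_algHom_iff
    (Algebra.TensorProduct.includeRight : D →ₐ[A] (FractionRing A) ⊗[A] D) hinj).1 h2

theorem H694.generic_splitting {A D : Type u} [CommRing A] [IsDomain A] [CommRing D] [Nontrivial D]
    [Algebra A D] [Algebra.Etale A D] :
    ∃ (g : A) (_ : g ≠ 0) (T : Type u) (_ : CommRing T) (_ : Algebra A T)
      (_ : Algebra (Localization.Away g) T) (_ : IsScalarTower A (Localization.Away g) T)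
      (_ : Module.Finite (Localization.Away g) T)
      (_ : Function.Surjective (PrimeSpectrum.comap (algebraMap (Localization.Away g) T)))
      (m : ℕ) (_ : 0 < m), Nonempty (T ⊗[A] D ≃ₐ[T] (Fin m → T)) := by
  have hfl : Module.Flat A D := inferInstance
  obtain ⟨s, hs⟩ := (inferInstance : Algebra.FiniteType A D).out
  choose p hp0 hpx using fun x : D => H694.algebraic (A := A) x
  set g : A := ∏ x ∈ s, (p x).leadingCoeff with hg
  have hg0 : g ≠ 0 := by
    rw [hg, Finset.prod_ne_zero_iff]
    intro x _
    exact Polynomial.leadingCoeff_ne_zero.2 (hp0 x)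
  have hpow : Submonoid.powers g ≤ nonZeroDivisors A := powers_le_nonZeroDivisors_of_noZeroDivisors hg0
  have hdom : IsDomain (Localization.Away g) := IsLocalization.isDomain_localization hpow
  have hinjA : Function.Injective (algebraMap A (Localization.Away g)) :=
    IsLocalization.injective _ hpow
  have hinj : Function.Injective
      (Algebra.TensorProduct.includeRight : D →ₐ[A] (Localization.Away g) ⊗[A] D) :=
    Algebra.TensorProduct.includeRight_injective hinjA
  have hnt : Nontrivial ((Localization.Away g) ⊗[A] D) := hinj.nontrivial
  have hint : Algebra.IsIntegral (Localization.Away g) ((Localization.Away g) ⊗[A] D) := by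
    have hgen : ∀ d : D, IsIntegral (Localization.Away g) ((1 : Localization.Away g) ⊗ₜ[A] d) := by
      intro d
      have hd : d ∈ Algebra.adjoin A (s : Set D) := by rw [hs]; trivial
      have hle : Algebra.adjoin A (s : Set D) ≤
          ((integralClosure (Localization.Away g)
            ((Localization.Away g) ⊗[A] D)).restrictScalars A).comap
            (Algebra.TensorProduct.includeRight : D →ₐ[A] (Localization.Away g) ⊗[A] D) := by
        rw [Algebra.adjoin_le_iff]
        intro x hx
        change IsIntegral (Localization.Away g) ((1 : Localization.Away g) ⊗ₜ[A] x)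
        have hdvd : (p x).leadingCoeff ∣ g := Finset.dvd_prod_of_mem _ hx
        have hunit : IsUnit (algebraMap A (Localization.Away g) (p x).leadingCoeff) :=
          isUnit_of_dvd_unit (map_dvd (algebraMap A (Localization.Away g)) hdvd)
            (IsLocalization.Away.algebraMap_isUnit g)
        refine H694.isIntegral_of_unit _ ((p x).map (algebraMap A (Localization.Away g))) ?_ ?_
        · rw [Polynomial.leadingCoeff_map_of_injective hinjA]
          exact hunit
        · rw [Polynomial.aeval_map_algebraMap]
          have := congrArg (Algebra.TensorProduct.includeRight : D →ₐ[A] (Localization.Away g) ⊗[A] D)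
            (hpx x)
          rw [map_zero, ← Polynomial.aeval_algHom_apply] at this
          exact this
      exact hle hd
    refine ⟨fun y => ?_⟩
    induction y using TensorProduct.induction_on with
    | zero => exact isIntegral_zero
    | tmul a d =>
      have : a ⊗ₜ[A] d = a • ((1 : Localization.Away g) ⊗ₜ[A] d) := by
        rw [TensorProduct.smul_tmul', smul_eq_mul, mul_one]
      rw [this]
      exact (hgen d).smul a
    | add x y hx hy => exact hx.add hy
  have hfin : Module.Finite (Localization.Away g) ((Localization.Away g) ⊗[A] D) :=
    Algebra.IsIntegral.finite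
  have het : Algebra.Etale (Localization.Away g) ((Localization.Away g) ⊗[A] D) := inferInstance
  have hflg : Module.Flat (Localization.Away g) ((Localization.Away g) ⊗[A] D) := inferInstance
  have hfp : Module.FinitePresentation (Localization.Away g) ((Localization.Away g) ⊗[A] D) :=
    Module.FinitePresentation.of_finite_of_finitePresentation _ _
  have hlc := Module.isLocallyConstant_rankAtStalk (R := Localization.Away g)
    (M := (Localization.Away g) ⊗[A] D)
  obtain ⟨n, hn⟩ : ∃ n : ℕ, Module.rankAtStalk (R := Localization.Away g)
      ((Localization.Away g) ⊗[A] D) = n := by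
    have hirr : IrreducibleSpace (PrimeSpectrum (Localization.Away g)) :=
      PrimeSpectrum.irreducibleSpace
    have hpre : PreconnectedSpace (PrimeSpectrum (Localization.Away g)) :=
      PreirreducibleSpace.preconnectedSpace _
    obtain ⟨c, hc⟩ := hlc.exists_eq_const
    exact ⟨c, hc⟩
  obtain ⟨T, _, _, hTff, hTfin, hTet, ⟨m, ⟨e⟩⟩⟩ :=
    Algebra.IsFiniteSplit.exists_tensorProduct_of_etale hn
  have hntT : Nontrivial (T ⊗[Localization.Away g] ((Localization.Away g) ⊗[A] D)) := inferInstance
  have hm : 0 < m := by
    rcases Nat.eq_zero_or_pos m with h | h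
    · subst h
      exact absurd (e.toEquiv.subsingleton) (not_subsingleton _)
    · exact h
  let _ : Algebra A T := ((algebraMap (Localization.Away g) T).comp
    (algebraMap A (Localization.Away g))).toAlgebra
  have : IsScalarTower A (Localization.Away g) T := IsScalarTower.of_algebraMap_eq' rfl
  refine ⟨g, hg0, T, inferInstance, inferInstance, inferInstance, inferInstance, hTfin,
    PrimeSpectrum.comap_surjective_of_faithfullyFlat, m, hm, ⟨?_⟩⟩
  exact (Algebra.TensorProduct.cancelBaseChange A (Localization.Away g) T T D).symm.trans e
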